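import Pool.Agent.Lib.MP_4e5fcd_ag.Inv.Base

/-! # INV-Coeff: coefficients of polynomials whose values lie in an ideal

PROOF. Suppose `P.coeff ν ∉ I`. There is a ℂ-linear form `φ : B → ℂ` which vanishes on `I` and not at
`P.coeff ν` (`Submodule.exists_dual_map_eq_bot_of_notMem` or `Submodule.exists_le_ker_of_lt_top`,
applied to `I.restrictScalars ℂ`). Let `Q : MvPolynomial σ ℂ` be obtained by applying `φ` to the
coefficients (e.g. `Q = ∑ μ ∈ P.support, monomial μ (φ (P.coeff μ))`; its coefficients are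
`φ (P.coeff μ)`). For every `c`: `eval c Q = φ (eval (algebraMap ∘ c) P)`, which is `0` if
`eval c Δ ≠ 0`. So `Q * Δ` vanishes at all points, `Q * Δ = 0` (`MvPolynomial.funext`), `Q = 0`,
contradiction with `Q.coeff ν ≠ 0`. -/

open MvPolynomial

namespace MotMono

theorem coeff_mem_of_eval {B σ : Type} [CommRing B] [Algebra ℂ B] (I : Ideal B)
    (P : MvPolynomial σ B) (Δ : MvPolynomial σ ℂ) (hΔ : Δ ≠ 0)
    (h : ∀ c : σ → ℂ, eval c Δ ≠ 0 → eval (fun v => algebraMap ℂ B (c v)) P ∈ I) (ν : σ →₀ ℕ) :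
    P.coeff ν ∈ I := by
  classical
  by_contra hν
  obtain ⟨φ, hφ, hker⟩ := Submodule.exists_le_ker_of_notMem (K := ℂ)
    (p := I.restrictScalars ℂ) (v := P.coeff ν) hν
  have hφI : ∀ b ∈ I, φ b = 0 := fun b hb => hker hb
  let Q : MvPolynomial σ ℂ := ∑ μ ∈ P.support, monomial μ (φ (P.coeff μ))
  have hQc : Q.coeff ν = φ (P.coeff ν) := by
    change MvPolynomial.coeff ν (∑ μ ∈ P.support, monomial μ (φ (P.coeff μ))) = _
    rw [MvPolynomial.coeff_sum]
    simp only [MvPolynomial.coeff_monomial]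
    rw [Finset.sum_ite_eq' P.support ν]
    split_ifs with hs
    · rfl
    · rw [notMem_support_iff] at hs
      rw [hs, map_zero]
  have hQe : ∀ c : σ → ℂ, eval c Q = φ (eval (fun v => algebraMap ℂ B (c v)) P) := by
    intro c
    change eval c (∑ μ ∈ P.support, monomial μ (φ (P.coeff μ))) = _
    rw [map_sum, eval_eq, map_sum]
    refine Finset.sum_congr rfl fun μ _ => ?_
    rw [eval_monomial]
    have h1 : ∏ i ∈ μ.support, (algebraMap ℂ B (c i)) ^ μ i =
        algebraMap ℂ B (μ.prod fun i k => c i ^ k) := by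
      rw [Finsupp.prod, map_prod]
      refine Finset.prod_congr rfl fun i _ => ?_
      rw [map_pow]
    rw [h1, mul_comm (P.coeff μ), ← Algebra.smul_def, map_smul, smul_eq_mul, mul_comm]
  have hQΔ : Q * Δ = 0 := by
    apply MvPolynomial.funext
    intro c
    rw [map_mul, map_zero]
    by_cases hc : eval c Δ = 0
    · rw [hc, mul_zero]
    · rw [hQe, hφI _ (h c hc), zero_mul]
  have hQ0 : Q = 0 := (mul_eq_zero.1 hQΔ).resolve_right hΔ
  rw [hQ0, MvPolynomial.coeff_zero] at hQc
  exact hφ hQc.symm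

/-- one variable, nonzero values -/
theorem coeff_mem_of_eval_one {B : Type} [CommRing B] [Algebra ℂ B] (I : Ideal B)
    (P : Polynomial B) (h : ∀ c : ℂ, c ≠ 0 → P.eval (algebraMap ℂ B c) ∈ I) (k : ℕ) :
    P.coeff k ∈ I := by
  classical
  by_contra hν
  obtain ⟨φ, hφ, hker⟩ := Submodule.exists_le_ker_of_notMem (K := ℂ)
    (p := I.restrictScalars ℂ) (v := P.coeff k) hν
  have hφI : ∀ b ∈ I, φ b = 0 := fun b hb => hker hb
  let Q : Polynomial ℂ := ∑ μ ∈ P.support, Polynomial.monomial μ (φ (P.coeff μ))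
  have hQc : Q.coeff k = φ (P.coeff k) := by
    change Polynomial.coeff (∑ μ ∈ P.support, Polynomial.monomial μ (φ (P.coeff μ))) k = _
    rw [Polynomial.finsetSum_coeff]
    simp only [Polynomial.coeff_monomial]
    rw [Finset.sum_ite_eq' P.support k]
    split_ifs with hs
    · rfl
    · rw [Polynomial.notMem_support_iff] at hs
      rw [hs, map_zero]
  have hQe : ∀ c : ℂ, Q.eval c = φ (P.eval (algebraMap ℂ B c)) := by
    intro c
    change Polynomial.eval c (∑ μ ∈ P.support, Polynomial.monomial μ (φ (P.coeff μ))) = _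
    rw [Polynomial.eval_finsetSum, Polynomial.eval_eq_sum, Polynomial.sum, map_sum]
    refine Finset.sum_congr rfl fun μ _ => ?_
    rw [Polynomial.eval_monomial, ← map_pow, mul_comm (P.coeff μ), ← Algebra.smul_def, map_smul,
      smul_eq_mul, mul_comm]
  have hQX : Q * Polynomial.X = 0 := by
    apply Polynomial.funext
    intro c
    rw [Polynomial.eval_mul, Polynomial.eval_X, Polynomial.eval_zero]
    by_cases hc : c = 0
    · rw [hc, mul_zero]
    · rw [hQe, hφI _ (h c hc), zero_mul]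
  have hQ0 : Q = 0 := (mul_eq_zero.1 hQX).resolve_right Polynomial.X_ne_zero
  rw [hQ0, Polynomial.coeff_zero] at hQc
  exact hφ hQc.symm

end MotMono
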