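import Pool.Agent.Lib.MP_4e5fcd_ag.Inv.Ord
import Pool.Agent.Lib.MP_4e5fcd_ag.Det.M10

/-! # INV-DiagEval: the values of the elements of a stable ideal at diagonal arcs

NOTATION: `D c = X ^ (τ * mue (part u c.1) c.2) * v c`, `constantCoeff (v c) = z c`, and the reference
`refU n u δ = dgD n (fun c => X ^ mue (part u c.1) c.2 * C δ)`. Let `N₀ = minF (AW A) u`,
`⟨β, u⟩ = ∑ c, β c * mue (part u c.1) c.2`.
PROOF. (1) `pair_wtw`: `∑ c, wtw w c * mue (part u c.1) c.2 = pair (Wf w) u` (`pair_Wf`, `m1_ev_eq`, exchange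
the sums).
(2) Let `ζ c = z c / δ`. `prod_zeta_wtw`: `∏ c, ζ c ^ wtw w c = ∏ c, (∏ i, if i ≤ c.2 then ζ ⟨c.1, i⟩ else 1) ^ w c`
(exchange the products), so for `w ∈ A` in the face this is `1` (last condition of `Gz`).
(3) Claim: for `f ∈ I` and `κ ∈ f.support`: `N₀ < ⟨rowwt e κ, u⟩`, or `N₀ = ⟨rowwt e κ, u⟩` and
`∏ c, ζ c ^ rowwt e κ c = 1`. By `raise` with this property `Pr`:
`hbase`: `dPoly e hmn w ∈ I`, so `w' ≤ w` for some `w' ∈ A` (`hA'`); `⟨wtw w, u⟩ = pair (Wf w) u =
pair (Wf w') u + pair (Wf (w - w')) u ≥ N₀`. If equality holds, then `w'` is in the face and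
`pair (Wf (w - w')) u = 0`, i.e. `(w - w') c * ev (part u c.1) (c.2 + 1) = 0` for all `c` (`pair_Wf`): if
`w' c < w c`, then `ev (part u c.1) (c.2 + 1) = 0`, so `u ⟨c.1, k⟩ = 0` for all `k ≤ c.2`, and `z ⟨c.1, i⟩ = δ`
for all `i ≤ c.2` by the second condition of `Gz`: the factor of index `c` of
`∏ c, (∏ i ≤ c.2, ζ ⟨c.1, i⟩) ^ (w - w') c` is `1`. So `∏ c, ζ c ^ wtw w c = ∏ c, ζ c ^ wtw w' c = 1`.
`hstep`: `j < i`, `⟨β + single j 1, u⟩ = ⟨β, u⟩ + mue (part u a) j ≤ ⟨β, u⟩ + mue (part u a) i`. If the left side is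
`> N₀`, so is the right side. If it is `= N₀` and `mue j < mue i`, the right side is `> N₀`. If
`mue j = mue i` then `u ⟨a, k⟩ = 0` for `j < k ≤ i`, so `z ⟨a, i⟩ = z ⟨a, j⟩` (third condition of `Gz`, induction)
and `ζ ^ (β + single i 1) = ζ ^ (β + single j 1) = 1`.
(4) Write `f` as the sum of its terms. For a monomial `κ`, `aeval_monomial_dgD` for `dgD n D` and for the
reference (the same alternative holds for both, as it only depends on whether `κ` involves a variable
off the diagonal: in the second case, show that both values are `0`; prove a lemma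
`(∃ a i k, (i : ℕ) ≠ k ∧ κ (e ⟨a, (i, k)⟩) ≠ 0) → ∏ p, pt e (dgD n D) p ^ κ p = 0`). In the diagonal case the value
at `dgD n D` is `∏ c, D c ^ β c = X ^ (τ * ⟨β, u⟩) * ∏ c, v c ^ β c` (`β = rowwt e κ`), whose coefficient of index
`τ * N₀` is `0` if `⟨β, u⟩ > N₀` (`τ > 0`), and `∏ c, z c ^ β c` if `⟨β, u⟩ = N₀`; the value at the reference is
`X ^ ⟨β, u⟩ * δ ^ (∑ c, β c)`, whose coefficient of index `N₀` is `0` resp. `∏ c, δ ^ β c`. These agree by (3).
The divisibility statement is `⟨β, u⟩ ≥ N₀` in both cases (`dvd_diag`). -/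

open MvPolynomial

namespace MotMono

variable {s N : ℕ} {m n : Fin s → ℕ}

theorem pair_wtw (w u : (Σ a, Fin (m a)) → ℕ) :
    ∑ c, wtw w c * mue (part u c.1) c.2 = pair (Wf w) u := by
  rw [pair_Wf, Fintype.sum_sigma, Fintype.sum_sigma]
  refine Finset.sum_congr rfl fun a _ => ?_
  have h1 : ∀ i : Fin (m a), ev (part u a) ((i : ℕ) + 1) =
      ∑ k : Fin (m a), if k ≤ i then mue (part u a) k else 0 := by
    intro i
    rw [m1_ev_eq]
    have h2 : Finset.range ((i : ℕ) + 1) ⊆ Finset.range (m a) :=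
      Finset.range_subset_range.2 (by omega)
    have h3 : ∑ k : Fin (m a), (if k ≤ i then mue (part u a) k else 0) =
        ∑ k ∈ Finset.range (m a), if k ≤ (i : ℕ) then mue (part u a) k else 0 := by
      rw [Finset.sum_range]
      rfl
    rw [h3, ← Finset.sum_filter]
    refine Finset.sum_congr ?_ fun _ _ => rfl
    ext k
    rw [Finset.mem_range, Finset.mem_filter, Finset.mem_range]
    omega
  simp only [h1, wtw, Finset.sum_mul, Finset.mul_sum]
  rw [Finset.sum_comm]
  refine Finset.sum_congr rfl fun i _ => Finset.sum_congr rfl fun k _ => ?_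
  split_ifs <;> simp

/-- the pairing of a row degree with the invariant exponents -/
private def de_pr (u β : (Σ a, Fin (m a)) → ℕ) : ℕ := ∑ c, β c * mue (part u c.1) c.2

private theorem de_pr_single (u β : (Σ a, Fin (m a)) → ℕ) (c : Σ a, Fin (m a)) :
    de_pr u (β + Pi.single c 1) = de_pr u β + mue (part u c.1) c.2 := by
  classical
  unfold de_pr
  simp only [Pi.add_apply, add_mul, Finset.sum_add_distrib]
  congr 1
  rw [Finset.sum_eq_single c]
  · simp
  · intro b _ hb
    simp [hb]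
  · intro h
    exact absurd (Finset.mem_univ c) h

private theorem de_mue_mono (b : ℕ → ℕ) {j i : ℕ} (h : j ≤ i) : mue b j ≤ mue b i := by
  unfold mue
  exact Finset.sum_le_sum_of_subset (Finset.range_subset_range.2 (by omega))

private theorem de_mue_eq (b : ℕ → ℕ) {j i : ℕ} (h : j ≤ i) (he : mue b j = mue b i) :
    ∀ k, j < k → k ≤ i → b k = 0 := by
  intro k hjk hki
  have h1 : mue b j + b k ≤ mue b k := by
    unfold mue
    rw [Finset.sum_range_succ (n := k)]
    have : ∑ x ∈ Finset.range (j + 1), b x ≤ ∑ x ∈ Finset.range k, b x :=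
      Finset.sum_le_sum_of_subset (Finset.range_subset_range.2 (by omega))
    omega
  have h2 := de_mue_mono b hki
  omega

private theorem de_minF_le (A : Finset ((Σ a, Fin (m a)) → ℕ)) (u : (Σ a, Fin (m a)) → ℕ)
    {W : (Σ a, Fin (m a)) → ℕ} (hW : W ∈ AW A) : minF (AW A) u ≤ pair W u :=
  Nat.sInf_le ⟨W, hW, rfl⟩

private theorem de_mem_AW {A : Finset ((Σ a, Fin (m a)) → ℕ)} {w : (Σ a, Fin (m a)) → ℕ}
    (hw : w ∈ A) : Wf w ∈ AW A := by
  unfold AW
  exact Finset.mem_image_of_mem _ hw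

/-- exchange of the products -/
private theorem de_prod_wtw (ζ : (Σ a, Fin (m a)) → ℂ) (w : (Σ a, Fin (m a)) → ℕ) :
    ∏ c, ζ c ^ wtw w c =
      ∏ c : (Σ a, Fin (m a)), (∏ i : Fin (m c.1), if i ≤ c.2 then ζ ⟨c.1, i⟩ else 1) ^ w c := by
  rw [Fintype.prod_sigma, Fintype.prod_sigma]
  refine Finset.prod_congr rfl fun a _ => ?_
  change ∏ k : Fin (m a), ζ ⟨a, k⟩ ^ (∑ i : Fin (m a), if k ≤ i then w ⟨a, i⟩ else 0) =
    ∏ i : Fin (m a), (∏ k : Fin (m a), if k ≤ i then ζ ⟨a, k⟩ else 1) ^ w ⟨a, i⟩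
  simp only [← Finset.prod_pow_eq_pow_sum, ← Finset.prod_pow]
  rw [Finset.prod_comm]
  refine Finset.prod_congr rfl fun i _ => Finset.prod_congr rfl fun k _ => ?_
  split_ifs <;> simp

/-- the value of a diagonal monomial at a diagonal point -/
private theorem de_diag {R : Type} [CommRing R]
    (e : (Σ a, Fin (m a) × Fin (n a)) ≃ Fin N) (D : (Σ a, Fin (m a)) → R) (κ : Fin N →₀ ℕ)
    (h : ∀ a (i : Fin (m a)) (k : Fin (n a)), (i : ℕ) ≠ k → κ (e ⟨a, (i, k)⟩) = 0) :
    (∏ p, pt e (dgD n D) p ^ κ p) = ∏ c, D c ^ rowwt e κ c := by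
  rw [← Equiv.prod_comp e, Fintype.prod_sigma, Fintype.prod_sigma]
  refine Finset.prod_congr rfl fun a _ => ?_
  rw [Fintype.prod_prod_type]
  refine Finset.prod_congr rfl fun i _ => ?_
  unfold rowwt
  rw [← Finset.prod_pow_eq_pow_sum]
  refine Finset.prod_congr rfl fun k _ => ?_
  unfold pt
  rw [Equiv.symm_apply_apply]
  change (if (i : ℕ) = k then D ⟨a, i⟩ else 0) ^ κ (e ⟨a, (i, k)⟩) = _
  by_cases hik : (i : ℕ) = k
  · rw [if_pos hik]
  · rw [if_neg hik, h a i k hik, pow_zero, pow_zero]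

/-- the value of another monomial at a diagonal point -/
private theorem de_offdiag {R : Type} [CommRing R]
    (e : (Σ a, Fin (m a) × Fin (n a)) ≃ Fin N) (D : (Σ a, Fin (m a)) → R) (κ : Fin N →₀ ℕ)
    (h : ¬ ∀ a (i : Fin (m a)) (k : Fin (n a)), (i : ℕ) ≠ k → κ (e ⟨a, (i, k)⟩) = 0) :
    (∏ p, pt e (dgD n D) p ^ κ p) = 0 := by
  push Not at h
  obtain ⟨a, i, k, hik, hκ⟩ := h
  refine Finset.prod_eq_zero (Finset.mem_univ (e ⟨a, (i, k)⟩)) ?_
  unfold pt
  rw [Equiv.symm_apply_apply]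
  change (if (i : ℕ) = k then D ⟨a, i⟩ else 0) ^ κ (e ⟨a, (i, k)⟩) = 0
  rw [if_neg hik]
  exact zero_pow hκ

private theorem de_aeval (e : (Σ a, Fin (m a) × Fin (n a)) ≃ Fin N)
    (Y : ∀ a, Matrix (Fin (m a)) (Fin (n a)) (PowerSeries ℂ)) (f : MvPolynomial (Fin N) ℂ) :
    aeval (pt e Y) f = ∑ κ ∈ f.support, PowerSeries.C (coeff κ f) * ∏ p, pt e Y p ^ κ p := by
  rw [MvPolynomial.aeval_def, MvPolynomial.eval₂_eq']
  rfl

private theorem de_prod_X (u β : (Σ a, Fin (m a)) → ℕ) (τ : ℕ)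
    (v : (Σ a, Fin (m a)) → PowerSeries ℂ) :
    ∏ c, ((PowerSeries.X : PowerSeries ℂ) ^ (τ * mue (part u c.1) c.2) * v c) ^ β c =
      PowerSeries.X ^ (τ * de_pr u β) * ∏ c, v c ^ β c := by
  simp only [mul_pow, Finset.prod_mul_distrib, ← pow_mul]
  rw [Finset.prod_pow_eq_pow_sum]
  congr 2
  unfold de_pr
  rw [Finset.mul_sum]
  refine Finset.sum_congr rfl fun c _ => by ring

private theorem de_refU (u : (Σ a, Fin (m a)) → ℕ) (δ : ℂ) :
    refU n u δ = dgD n fun c => (PowerSeries.X : PowerSeries ℂ) ^ (1 * mue (part u c.1) c.2) *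
      PowerSeries.C δ := by
  funext a i k
  change (if (i : ℕ) = k then PowerSeries.C δ * PowerSeries.X ^ mue (part u a) i else 0) =
    if (i : ℕ) = k then PowerSeries.X ^ (1 * mue (part u a) i) * PowerSeries.C δ else 0
  rw [one_mul, mul_comm]

theorem dvd_diag (e : (Σ a, Fin (m a) × Fin (n a)) ≃ Fin N) (hmn : ∀ a, m a ≤ n a)
    (I : Ideal (MvPolynomial (Fin N) ℂ)) (hI : GLStable e I)
    (A : Finset ((Σ a, Fin (m a)) → ℕ)) (hA : ∀ w ∈ A, dPoly e hmn w ∈ I)
    (hA' : ∀ w, dPoly e hmn w ∈ I → ∃ w' ∈ A, ∀ c, w' c ≤ w c)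
    (u : (Σ a, Fin (m a)) → ℕ) (τ : ℕ) (v : (Σ a, Fin (m a)) → PowerSeries ℂ) :
    ∀ f ∈ I, (PowerSeries.X : PowerSeries ℂ) ^ (τ * minF (AW A) u) ∣
      aeval (pt e (dgD n fun c => PowerSeries.X ^ (τ * mue (part u c.1) c.2) * v c)) f := by
  intro f hf
  rw [de_aeval]
  refine Finset.dvd_sum fun κ hκ => Dvd.dvd.mul_left ?_ _
  by_cases hd : ∀ a (i : Fin (m a)) (k : Fin (n a)), (i : ℕ) ≠ k → κ (e ⟨a, (i, k)⟩) = 0
  · rw [de_diag e _ κ hd, de_prod_X]
    refine Dvd.dvd.mul_right (pow_dvd_pow _ (Nat.mul_le_mul_left _ ?_)) _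
    refine raise e hmn I hI (fun β => minF (AW A) u ≤ de_pr u β) ?_ ?_ f hf κ hκ
    · intro w hw
      obtain ⟨w', hw', hle⟩ := hA' w hw
      have h1 : de_pr u (wtw w) = pair (Wf w) u := pair_wtw w u
      rw [h1]
      refine (de_minF_le A u (de_mem_AW hw')).trans ?_
      rw [pair_Wf, pair_Wf]
      exact Finset.sum_le_sum fun c _ => Nat.mul_le_mul_right _ (hle c)
    · intro a j i hji β hβ
      rw [de_pr_single] at hβ ⊢
      have := de_mue_mono (part u a) (show (j : ℕ) ≤ i from hji.le)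
      exact hβ.trans (Nat.add_le_add_left this _)
  · rw [de_offdiag e _ κ hd]
    exact dvd_zero _

/-- the leading coefficients are constant on the blocks -/
private theorem de_z_eq {A : Finset ((Σ a, Fin (m a)) → ℕ)} {u : (Σ a, Fin (m a)) → ℕ} {δ : ℂ}
    {z : (Σ a, Fin (m a)) → ℂ} (hz : z ∈ Gz A u δ) (a : Fin s) (j : Fin (m a)) (d : ℕ) :
    ∀ h : (j : ℕ) + d < m a, (∀ k : Fin (m a), j < k → (k : ℕ) ≤ j + d → u ⟨a, k⟩ = 0) →
      z ⟨a, ⟨j + d, h⟩⟩ = z ⟨a, j⟩ := by
  induction d with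
  | zero =>
    intro h _
    rfl
  | succ d ih =>
    intro h hk
    have h1 : (j : ℕ) + d < m a := by omega
    have h2 := ih h1 fun k hjk hkd => hk k hjk (by omega)
    have h3 := hz.2.2.1 a ⟨j + d, h1⟩ (by change (j : ℕ) + d + 1 < m a; omega)
      (hk ⟨(j : ℕ) + d + 1, by omega⟩ (by
        rw [Fin.lt_def]
        change (j : ℕ) < (j : ℕ) + d + 1
        omega) (by change (j : ℕ) + d + 1 ≤ (j : ℕ) + (d + 1); omega))
    rw [← h2]
    exact h3

theorem coeff_diag (e : (Σ a, Fin (m a) × Fin (n a)) ≃ Fin N) (hmn : ∀ a, m a ≤ n a)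
    (I : Ideal (MvPolynomial (Fin N) ℂ)) (hI : GLStable e I)
    (A : Finset ((Σ a, Fin (m a)) → ℕ)) (hA : ∀ w ∈ A, dPoly e hmn w ∈ I)
    (hA' : ∀ w, dPoly e hmn w ∈ I → ∃ w' ∈ A, ∀ c, w' c ≤ w c)
    (u : (Σ a, Fin (m a)) → ℕ) (δ : ℂ) (hδ : δ ≠ 0) (τ : ℕ) (hτ : 0 < τ)
    (z : (Σ a, Fin (m a)) → ℂ) (hz : z ∈ Gz A u δ) (v : (Σ a, Fin (m a)) → PowerSeries ℂ)
    (hv : ∀ c, PowerSeries.constantCoeff (v c) = z c) :
    ∀ f ∈ I, PowerSeries.coeff (τ * minF (AW A) u)
      (aeval (pt e (dgD n fun c => PowerSeries.X ^ (τ * mue (part u c.1) c.2) * v c)) f) =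
        PowerSeries.coeff (minF (AW A) u) (aeval (pt e (refU n u δ)) f) := by
  classical
  intro f hf
  set N₀ := minF (AW A) u with hN₀
  set ζ : (Σ a, Fin (m a)) → ℂ := fun c => z c / δ with hζ
  rw [de_refU, de_aeval, de_aeval, map_sum, map_sum]
  refine Finset.sum_congr rfl fun κ hκ => ?_
  rw [PowerSeries.coeff_C_mul, PowerSeries.coeff_C_mul]
  congr 1
  by_cases hd : ∀ a (i : Fin (m a)) (k : Fin (n a)), (i : ℕ) ≠ k → κ (e ⟨a, (i, k)⟩) = 0
  swap
  · rw [de_offdiag e _ κ hd, de_offdiag e _ κ hd, map_zero, map_zero]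
  rw [de_diag e _ κ hd, de_diag e _ κ hd, de_prod_X, de_prod_X, one_mul]
  have key : N₀ < de_pr u (rowwt e κ) ∨
      (N₀ = de_pr u (rowwt e κ) ∧ ∏ c, ζ c ^ rowwt e κ c = 1) := by
    refine raise e hmn I hI
      (fun β => N₀ < de_pr u β ∨ (N₀ = de_pr u β ∧ ∏ c, ζ c ^ β c = 1)) ?_ ?_ f hf κ hκ
    · intro w hw
      obtain ⟨w', hw', hle⟩ := hA' w hw
      have h1 : de_pr u (wtw w) = pair (Wf w) u := pair_wtw w u
      have h2 : N₀ ≤ pair (Wf w') u := de_minF_le A u (de_mem_AW hw')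
      have h3 : ∀ c ∈ (Finset.univ : Finset (Σ a, Fin (m a))),
          w' c * ev (part u c.1) (c.2 + 1) ≤ w c * ev (part u c.1) (c.2 + 1) :=
        fun c _ => Nat.mul_le_mul_right _ (hle c)
      have h4 : pair (Wf w') u ≤ pair (Wf w) u := by
        rw [pair_Wf, pair_Wf]
        exact Finset.sum_le_sum h3
      rcases Nat.lt_or_ge N₀ (de_pr u (wtw w)) with hlt | hge
      · exact Or.inl hlt
      right
      have h5 : pair (Wf w') u = pair (Wf w) u := by omega
      have h6 : N₀ = pair (Wf w') u := by omega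
      refine ⟨by omega, ?_⟩
      have hface : InFace (AW A) u (Wf w') := by
        refine ⟨de_mem_AW hw', fun W' hW' => ?_⟩
        rw [← h6]
        exact de_minF_le A u hW'
      have h7 := h5
      rw [pair_Wf, pair_Wf] at h7
      have h8 := (Finset.sum_eq_sum_iff_of_le h3).1 h7
      rw [de_prod_wtw]
      refine Eq.trans ?_ (hz.2.2.2 w' hw' hface)
      refine Finset.prod_congr rfl fun c _ => ?_
      have h9 := h8 c (Finset.mem_univ c)
      rcases Nat.eq_zero_or_pos (ev (part u c.1) (c.2 + 1)) with h0 | hpos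
      · have h10 : (∏ i : Fin (m c.1), if i ≤ c.2 then ζ ⟨c.1, i⟩ else 1) = 1 := by
          refine Finset.prod_eq_one fun i _ => ?_
          split_ifs with hi
          · have hu : ∀ k : Fin (m c.1), k ≤ i → u ⟨c.1, k⟩ = 0 := by
              intro k hki
              unfold ev at h0
              rw [Finset.sum_eq_zero_iff] at h0
              have hkc : (k : ℕ) ≤ c.2 := Fin.le_def.1 (hki.trans hi)
              have h11 := h0 k (Finset.mem_range.2 (by omega))
              have h12 : part u c.1 k = u ⟨c.1, k⟩ := by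
                unfold part extb
                rw [dif_pos k.2]
              rw [h12] at h11
              rcases Nat.mul_eq_zero.1 h11 with h13 | h13
              · omega
              · exact h13
            change z ⟨c.1, i⟩ / δ = 1
            rw [hz.2.1 c.1 i hu, div_self hδ]
          · rfl
        rw [h10, one_pow, one_pow]
      · have h10 : w c = w' c := (Nat.eq_of_mul_eq_mul_right hpos h9).symm
        rw [h10]
    · intro a j i hji β hβ
      rw [de_pr_single] at hβ ⊢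
      have hmono := de_mue_mono (part u a) (show (j : ℕ) ≤ i from hji.le)
      have hprod : ∀ c : (Σ a, Fin (m a)),
          ∏ x, ζ x ^ ((β + Pi.single c 1 : (Σ a, Fin (m a)) → ℕ) x) =
          (∏ x, ζ x ^ β x) * ζ c := by
        intro c
        simp only [Pi.add_apply, pow_add, Finset.prod_mul_distrib]
        congr 1
        rw [Finset.prod_eq_single c]
        · simp
        · intro b _ hb
          simp [hb]
        · intro h
          exact absurd (Finset.mem_univ c) h
      rcases hβ with hβ | ⟨hβ, hβ'⟩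
      · left
        change N₀ < de_pr u β + mue (part u a) i
        change N₀ < de_pr u β + mue (part u a) j at hβ
        omega
      · change N₀ = de_pr u β + mue (part u a) j at hβ
        rcases Nat.lt_or_ge (mue (part u a) j) (mue (part u a) i) with hlt | hge
        · left
          change N₀ < de_pr u β + mue (part u a) i
          omega
        · right
          have heq : mue (part u a) j = mue (part u a) i := le_antisymm hmono hge
          refine ⟨by change N₀ = de_pr u β + mue (part u a) i; omega, ?_⟩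
          rw [hprod] at hβ' ⊢
          rw [← hβ']
          congr 1
          change z ⟨a, i⟩ / δ = z ⟨a, j⟩ / δ
          congr 1
          have hji' : (j : ℕ) ≤ i := hji.le
          have h0 := de_mue_eq (part u a) hji' heq
          have h1 := de_z_eq hz a j ((i : ℕ) - j) (by omega) (by
            intro k hjk hk
            have h2 := h0 k hjk (by omega)
            unfold part extb at h2
            rw [dif_pos k.2] at h2
            exact h2)
          have h2 : (⟨(j : ℕ) + ((i : ℕ) - j), by omega⟩ : Fin (m a)) = i := Fin.ext (by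
            change (j : ℕ) + ((i : ℕ) - j) = i
            omega)
          rw [h2] at h1
          exact h1
  rw [PowerSeries.coeff_X_pow_mul', PowerSeries.coeff_X_pow_mul']
  rcases key with hlt | ⟨heq, hone⟩
  · rw [if_neg (by
      intro h
      exact absurd (Nat.le_of_mul_le_mul_left h hτ) (by omega)), if_neg (by omega)]
  · rw [← heq, if_pos le_rfl, if_pos le_rfl, Nat.sub_self, Nat.sub_self,
      PowerSeries.coeff_zero_eq_constantCoeff_apply, PowerSeries.coeff_zero_eq_constantCoeff_apply,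
      map_prod, map_prod]
    simp only [map_pow, hv, PowerSeries.constantCoeff_C]
    have h1 : ∏ c, z c ^ rowwt e κ c =
        (∏ c, ζ c ^ rowwt e κ c) * ∏ c : (Σ a, Fin (m a)), δ ^ rowwt e κ c := by
      rw [← Finset.prod_mul_distrib]
      refine Finset.prod_congr rfl fun c _ => ?_
      rw [← mul_pow]
      congr 1
      rw [hζ]
      field_simp
    rw [h1, hone, one_mul]

end MotMono
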