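import Pool.Agent.Lib.MP_4e5fcd_ag.Inv.Base
import Pool.Agent.Lib.MP_4e5fcd_ag.Det.P1

/-! # INV-DiagMinor: minors of diagonal matrices

PROOF. `minor_diag_dvd`: if `S` is not injective the minor is `0` (two equal rows,
`Matrix.det_zero_of_row_eq`). If `S` is injective, every term of the Leibniz formula is `0` or
`± ∏ i, D (S i)`, and `∏ i : Fin r, D i` (the first `r`) divides `∏ i, D (S i)`: the sorted image of `S`
has `i`-th element `≥ i` (`Finset.orderEmbOfFin`, or induction on `r`, removing the largest element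
of the image; compare `m1_le` in `Det/M1.lean`), and `D i ∣ D j` for `i ≤ j`.
`crn_dgD`: determinant of a diagonal matrix (`Matrix.det_diagonal`).
`prod_crn_dgD`: `∏ c, (∏ i ≤ c.2, D ⟨c.1, i⟩) ^ w c = ∏ c, D c ^ wtw w c`, exchange the products
(`Finset.prod_comm`, `Finset.prod_pow_eq_pow_sum`).
`dvd_prodMinor_dgD`: factor by factor from `minor_diag_dvd`. -/

open MvPolynomial

namespace MotMono

variable {s N : ℕ} {m n : Fin s → ℕ}

private theorem prod_first_dvd {R : Type} [CommRing R] {m : ℕ} (D : Fin m → R)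
    (hD : ∀ i j, i ≤ j → D i ∣ D j) {r : ℕ} (hr : r ≤ m) (S : Fin r → Fin m)
    (hS : Function.Injective S) :
    (∏ i : Fin r, D (Fin.castLE hr i)) ∣ ∏ i : Fin r, D (S i) := by
  classical
  set t : Finset (Fin m) := Finset.univ.image S with ht
  have hcard : t.card = r := by
    rw [ht, Finset.card_image_of_injective _ hS, Finset.card_univ, Fintype.card_fin]
  have h1 : ∏ i : Fin r, D (S i) = ∏ x ∈ t, D x := by
    rw [ht, Finset.prod_image fun i _ j _ h => hS h]
  have h2 : ∏ x ∈ t, D x = ∏ i : Fin r, D (t.orderEmbOfFin hcard i) := by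
    conv_lhs => rw [← Finset.image_orderEmbOfFin_univ t hcard]
    rw [Finset.prod_image fun i _ j _ h => (t.orderEmbOfFin hcard).injective h]
  have h3 : ∀ (k : ℕ) (hk : k < r), k ≤ ((t.orderEmbOfFin hcard ⟨k, hk⟩ : Fin m) : ℕ) := by
    intro k
    induction k with
    | zero => intro hk; exact Nat.zero_le _
    | succ k ih =>
      intro hk
      have h4 := ih (by omega)
      have h5 : t.orderEmbOfFin hcard ⟨k, by omega⟩ < t.orderEmbOfFin hcard ⟨k + 1, hk⟩ :=
        (t.orderEmbOfFin hcard).strictMono (by rw [Fin.lt_def]; exact Nat.lt_succ_self k)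
      rw [Fin.lt_def] at h5
      omega
  rw [h1, h2]
  refine Finset.prod_dvd_prod_of_dvd _ _ fun i _ => hD _ _ ?_
  rw [Fin.le_def]
  exact h3 i i.2

theorem minor_diag_dvd {R : Type} [CommRing R] {m n : ℕ} (D : Fin m → R)
    (hD : ∀ i j, i ≤ j → D i ∣ D j) {r : ℕ} (hr : r ≤ m) (S : Fin r → Fin m)
    (T : Fin r → Fin n) :
    (∏ i : Fin r, D (Fin.castLE hr i)) ∣
      ((Matrix.of fun (i : Fin m) (k : Fin n) => if (i : ℕ) = k then D i else 0).submatrix S T).det := by
  classical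
  by_cases hS : Function.Injective S
  · rw [Matrix.det_apply]
    refine Finset.dvd_sum fun σ _ => ?_
    rw [Units.smul_def, zsmul_eq_mul]
    refine Dvd.dvd.mul_left ?_ _
    have h1 : ∀ i : Fin r, D (S (σ i)) ∣
        ((Matrix.of fun (i : Fin m) (k : Fin n) => if (i : ℕ) = k then D i else 0).submatrix S T)
          (σ i) i := by
      intro i
      rw [Matrix.submatrix_apply, Matrix.of_apply]
      split_ifs
      · exact dvd_rfl
      · exact dvd_zero _
    have h2 : ∏ i : Fin r, D (S (σ i)) = ∏ i : Fin r, D (S i) :=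
      Equiv.prod_comp σ fun i => D (S i)
    refine (prod_first_dvd D hD hr S hS).trans ?_
    rw [← h2]
    exact Finset.prod_dvd_prod_of_dvd _ _ fun i _ => h1 i
  · rw [Function.not_injective_iff] at hS
    obtain ⟨i, j, hij, hne⟩ := hS
    rw [Matrix.det_zero_of_row_eq hne]
    · exact dvd_zero _
    · ext k
      rw [Matrix.submatrix_apply, Matrix.submatrix_apply, hij]

private theorem crn_dgD' {R : Type} [CommRing R] (hmn : ∀ a, m a ≤ n a)
    (D : (Σ a, Fin (m a)) → R) (c : Σ a, Fin (m a)) :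
    crn hmn (dgD n D) c = ∏ i : Fin ((c.2 : ℕ) + 1),
      D ⟨c.1, Fin.castLE (by omega : (c.2 : ℕ) + 1 ≤ m c.1) i⟩ := by
  unfold crn
  rw [← Matrix.det_diagonal]
  congr 1
  ext i k
  rw [Matrix.submatrix_apply, Matrix.diagonal_apply]
  unfold dgD
  by_cases h : i = k
  · subst h
    simp
  · rw [if_neg h, if_neg]
    intro h2
    apply h
    rw [Fin.ext_iff]
    simpa using h2

theorem crn_dgD {R : Type} [CommRing R] (hmn : ∀ a, m a ≤ n a) (D : (Σ a, Fin (m a)) → R)
    (c : Σ a, Fin (m a)) :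
    crn hmn (dgD n D) c = ∏ i : Fin (m c.1), if i ≤ c.2 then D ⟨c.1, i⟩ else 1 := by
  rw [crn_dgD']
  refine Fintype.prod_of_injective
    (Fin.castLE (by omega : (c.2 : ℕ) + 1 ≤ m c.1)) (Fin.castLE_injective _) _ _ ?_ ?_
  · intro i hi
    rw [if_neg]
    intro h
    apply hi
    rw [Fin.le_def] at h
    exact ⟨⟨i, by omega⟩, rfl⟩
  · intro i
    rw [if_pos]
    rw [Fin.le_def]
    have := i.2
    simp only [Fin.val_castLE]
    omega

theorem prod_crn_dgD {R : Type} [CommRing R] (hmn : ∀ a, m a ≤ n a) (D : (Σ a, Fin (m a)) → R)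
    (w : (Σ a, Fin (m a)) → ℕ) : ∏ c, crn hmn (dgD n D) c ^ w c = ∏ c, D c ^ wtw w c := by
  simp only [crn_dgD]
  rw [Fintype.prod_sigma, Fintype.prod_sigma]
  refine Finset.prod_congr rfl fun a _ => ?_
  have h1 : ∀ j : Fin (m a), (∏ i : Fin (m a), if i ≤ j then D ⟨a, i⟩ else 1) ^ w ⟨a, j⟩ =
      ∏ i : Fin (m a), D ⟨a, i⟩ ^ (if i ≤ j then w ⟨a, j⟩ else 0) := by
    intro j
    rw [← Finset.prod_pow]
    refine Finset.prod_congr rfl fun i _ => ?_
    split_ifs
    · rfl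
    · rw [one_pow, pow_zero]
  calc ∏ j : Fin (m a), (∏ i : Fin (m a), if i ≤ j then D ⟨a, i⟩ else 1) ^ w ⟨a, j⟩
      = ∏ j : Fin (m a), ∏ i : Fin (m a), D ⟨a, i⟩ ^ (if i ≤ j then w ⟨a, j⟩ else 0) :=
        Finset.prod_congr rfl fun j _ => h1 j
    _ = ∏ i : Fin (m a), ∏ j : Fin (m a), D ⟨a, i⟩ ^ (if i ≤ j then w ⟨a, j⟩ else 0) :=
        Finset.prod_comm
    _ = ∏ i : Fin (m a), D ⟨a, i⟩ ^ wtw w ⟨a, i⟩ := by
        refine Finset.prod_congr rfl fun i _ => ?_
        rw [Finset.prod_pow_eq_pow_sum]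
        rfl

theorem dvd_prodMinor_dgD (hmn : ∀ a, m a ≤ n a) (D : (Σ a, Fin (m a)) → PowerSeries ℂ)
    (hD : ∀ a, ∀ i j : Fin (m a), i ≤ j → D ⟨a, i⟩ ∣ D ⟨a, j⟩)
    {w : (Σ a, Fin (m a)) → ℕ} (C : Choice m n w) :
    (∏ c, D c ^ wtw w c) ∣ prodMinor (dgD n D) C := by
  rw [← prod_crn_dgD hmn D w]
  unfold prodMinor
  refine Finset.prod_dvd_prod_of_dvd _ _ fun c _ => ?_
  have h1 : crn hmn (dgD n D) c ^ w c = ∏ _j : Fin (w c), crn hmn (dgD n D) c := by
    rw [Finset.prod_const, Finset.card_univ, Fintype.card_fin]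
  rw [h1]
  refine Finset.prod_dvd_prod_of_dvd _ _ fun j _ => ?_
  rw [crn_dgD']
  exact minor_diag_dvd (fun i => D ⟨c.1, i⟩) (hD c.1) (by omega) (C c j).1 (C c j).2

end MotMono
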