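import Pool.Agent.Lib.MP_4e5fcd_ag.Inv.Base

/-! # INV-Smith: normal form of matrices of power series

PROOF. Induction on `m`. `m = 0`: trivial. Let `M` have size `(m + 1) × (n + 1)`; let `M i₀ k₀` be an
entry dividing all entries (`PowerSeries ℂ` is a valuation ring). By permutation matrices we may assume
`(i₀, k₀) = (0, 0)`, and then we clear the first row and the first column. -/

open MvPolynomial

namespace MotMono

namespace SmithAux

variable {R : Type} [CommRing R]

private theorem exists_dvd_all (htot : ∀ a b : R, a ∣ b ∨ b ∣ a) {ι : Type} (s : Finset ι)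
    (hs : s.Nonempty) (f : ι → R) : ∃ i ∈ s, ∀ j ∈ s, f i ∣ f j := by
  classical
  induction hs using Finset.Nonempty.cons_induction with
  | singleton a => exact ⟨a, by simp, by simp⟩
  | cons a s ha hs ih =>
    obtain ⟨i, hi, h⟩ := ih
    rcases htot (f a) (f i) with h1 | h1
    · refine ⟨a, by simp, ?_⟩
      intro j hj
      rcases Finset.mem_cons.1 hj with rfl | hj
      · exact dvd_rfl
      · exact h1.trans (h j hj)
    · refine ⟨i, Finset.mem_cons_of_mem hi, ?_⟩
      intro j hj
      rcases Finset.mem_cons.1 hj with rfl | hj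
      · exact h1
      · exact h j hj

private def blk {m n : ℕ} (a : R) (A : Matrix (Fin m) (Fin n) R) :
    Matrix (Fin (m + 1)) (Fin (n + 1)) R :=
  Matrix.of (Fin.cons (Fin.cons a 0) (fun i => Fin.cons 0 (A i)))

private def colM {m : ℕ} (c : Fin m → R) : Matrix (Fin (m + 1)) (Fin (m + 1)) R :=
  Matrix.of (Fin.cons (Fin.cons 1 0) (fun i => Fin.cons (c i) ((1 : Matrix (Fin m) (Fin m) R) i)))

private def rowM {m : ℕ} (d : Fin m → R) : Matrix (Fin (m + 1)) (Fin (m + 1)) R :=
  Matrix.of (Fin.cons (Fin.cons 1 d) (fun i => Fin.cons 0 ((1 : Matrix (Fin m) (Fin m) R) i)))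

private theorem blk_mul {m n l : ℕ} (a b : R) (A : Matrix (Fin m) (Fin n) R)
    (B : Matrix (Fin n) (Fin l) R) : blk a A * blk b B = blk (a * b) (A * B) := by
  ext i k
  rw [Matrix.mul_apply, Fin.sum_univ_succ]
  refine Fin.cases ?_ (fun i => ?_) i <;> refine Fin.cases ?_ (fun k => ?_) k <;>
    simp [blk, Matrix.mul_apply]

private theorem colM_mul {m : ℕ} (c : Fin m → R) : colM (-c) * colM c = 1 := by
  ext i k
  rw [Matrix.mul_apply, Fin.sum_univ_succ]
  refine Fin.cases ?_ (fun i => ?_) i <;> refine Fin.cases ?_ (fun k => ?_) k <;>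
    simp [colM, Matrix.one_apply, Fin.succ_ne_zero, (Fin.succ_ne_zero _).symm]

private theorem rowM_mul {m : ℕ} (c : Fin m → R) : rowM c * rowM (-c) = 1 := by
  ext i k
  rw [Matrix.mul_apply, Fin.sum_univ_succ]
  refine Fin.cases ?_ (fun i => ?_) i <;> refine Fin.cases ?_ (fun k => ?_) k <;>
    simp [rowM, Matrix.one_apply, Fin.succ_ne_zero, (Fin.succ_ne_zero _).symm]

private theorem decomp {m n : ℕ} (M : Matrix (Fin (m + 1)) (Fin (n + 1)) R) (x : R)
    (c : Fin m → R) (d : Fin n → R) (hx : M 0 0 = x) (hc : ∀ i, M (Fin.succ i) 0 = x * c i)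
    (hd : ∀ k, M 0 (Fin.succ k) = x * d k) :
    M = colM c * blk x (Matrix.of fun i k => M (Fin.succ i) (Fin.succ k) - c i * x * d k) *
      rowM d := by
  ext i k
  rw [Matrix.mul_apply, Fin.sum_univ_succ]
  simp only [Matrix.mul_apply, Fin.sum_univ_succ]
  refine Fin.cases ?_ (fun i => ?_) i <;> refine Fin.cases ?_ (fun k => ?_) k
  · simp [colM, blk, rowM, hx]
  · simp [colM, blk, rowM, hd]
  · simp [colM, blk, rowM, hc, mul_comm]
  · simp [colM, blk, rowM, Matrix.one_apply]

private theorem perm_row {m n : ℕ} (M : Matrix (Fin m) (Fin n) R) (σ : Equiv.Perm (Fin m)) :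
    M.submatrix σ id = (1 : Matrix (Fin m) (Fin m) R).submatrix σ id * M := by
  ext i k
  simp [Matrix.mul_apply, Matrix.one_apply]

private theorem perm_col {m n : ℕ} (M : Matrix (Fin m) (Fin n) R) (τ : Equiv.Perm (Fin n)) :
    M.submatrix id τ = M * (1 : Matrix (Fin n) (Fin n) R).submatrix id τ := by
  ext i k
  simp [Matrix.mul_apply, Matrix.one_apply]

private theorem main (htot : ∀ a b : R, a ∣ b ∨ b ∣ a) : ∀ (m n : ℕ) (_ : m ≤ n)
    (M : Matrix (Fin m) (Fin n) R),
    ∃ (D : Fin m → R) (g g' : Matrix (Fin m) (Fin m) R) (h h' : Matrix (Fin n) (Fin n) R),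
      (∀ i j, i ≤ j → D i ∣ D j) ∧
      M = g * (Matrix.of fun (i : Fin m) (k : Fin n) => if (i : ℕ) = k then D i else 0) * h ∧
      (Matrix.of fun (i : Fin m) (k : Fin n) => if (i : ℕ) = k then D i else 0) = g' * M * h' := by
  intro m
  induction m with
  | zero =>
    intro n _ M
    exact ⟨0, 0, 0, 0, 0, fun i => i.elim0, by ext i; exact i.elim0, by ext i; exact i.elim0⟩
  | succ m ih =>
    intro n hmn M
    obtain ⟨n, rfl⟩ : ∃ n', n = n' + 1 := ⟨n - 1, by omega⟩
    have hmn' : m ≤ n := by omega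
    obtain ⟨⟨i₀, k₀⟩, -, hdvd⟩ := exists_dvd_all htot (Finset.univ : Finset (Fin (m + 1) × Fin (n + 1)))
      ⟨(0, 0), Finset.mem_univ _⟩ (fun p => M p.1 p.2)
    set σ : Equiv.Perm (Fin (m + 1)) := Equiv.swap 0 i₀ with hσ
    set τ : Equiv.Perm (Fin (n + 1)) := Equiv.swap 0 k₀ with hτ
    set N : Matrix (Fin (m + 1)) (Fin (n + 1)) R := (M.submatrix σ id).submatrix id τ with hN
    have hMN : M = (N.submatrix σ id).submatrix id τ := by
      ext i k
      simp [hN, hσ, hτ]
    have hN0 : ∀ i k, N 0 0 ∣ N i k := by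
      intro i k
      have h0 : N 0 0 = M i₀ k₀ := by simp [hN, hσ, hτ]
      rw [h0]
      exact hdvd (σ i, τ k) (Finset.mem_univ _)
    choose c hc using fun i : Fin m => hN0 (Fin.succ i) 0
    choose d hd using fun k : Fin n => hN0 0 (Fin.succ k)
    set x := N 0 0 with hx
    set M₁ : Matrix (Fin m) (Fin n) R :=
      Matrix.of fun i k => N (Fin.succ i) (Fin.succ k) - c i * x * d k with hM₁
    have hdec : N = colM c * blk x M₁ * rowM d := decomp N x c d rfl hc hd
    have hdec' : blk x M₁ = colM (-c) * N * rowM (-d) := by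
      rw [hdec]
      calc blk x M₁ = (colM (-c) * colM c) * blk x M₁ * (rowM d * rowM (-d)) := by
            rw [colM_mul, rowM_mul, Matrix.one_mul, Matrix.mul_one]
        _ = _ := by simp only [Matrix.mul_assoc]
    obtain ⟨D, g, g', h, h', hD, h1, h2⟩ := ih n hmn' M₁
    have hxM : ∀ i k, x ∣ M₁ i k := by
      intro i k
      rw [hM₁]
      exact dvd_sub (hN0 _ _) ⟨c i * d k, by ring⟩
    have hxD : ∀ i, x ∣ D i := by
      intro i
      have e := congrFun (congrFun h2 i) (Fin.castLE hmn' i)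
      rw [Matrix.of_apply] at e
      rw [if_pos (by simp)] at e
      rw [e, Matrix.mul_apply]
      refine Finset.dvd_sum fun k _ => Dvd.dvd.mul_right ?_ _
      rw [Matrix.mul_apply]
      exact Finset.dvd_sum fun j _ => Dvd.dvd.mul_left (hxM _ _) _
    have hS : (Matrix.of fun (i : Fin (m + 1)) (k : Fin (n + 1)) =>
        if (i : ℕ) = k then (Fin.cons x D : Fin (m + 1) → R) i else 0) =
        blk x (Matrix.of fun (i : Fin m) (k : Fin n) => if (i : ℕ) = k then D i else 0) := by
      ext i k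
      refine Fin.cases ?_ (fun i => ?_) i <;> refine Fin.cases ?_ (fun k => ?_) k <;> simp [blk]
    refine ⟨Fin.cons x D, (1 : Matrix _ _ R).submatrix σ id * (colM c * blk 1 g),
      (blk 1 g' * colM (-c)) * (1 : Matrix _ _ R).submatrix σ id,
      (blk 1 h * rowM d) * (1 : Matrix _ _ R).submatrix id τ,
      (1 : Matrix _ _ R).submatrix id τ * (rowM (-d) * blk 1 h'), ?_, ?_, ?_⟩
    · intro i j
      refine Fin.cases ?_ (fun i => ?_) i <;> refine Fin.cases ?_ (fun j => ?_) j
      · intro _; exact dvd_rfl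
      · intro _; simpa using hxD j
      · intro hij; exact absurd hij (by simp)
      · intro hij; simpa using hD i j (by simpa using hij)
    · rw [hS]
      have hb : blk x M₁ = blk 1 g * blk x (Matrix.of fun (i : Fin m) (k : Fin n) =>
          if (i : ℕ) = k then D i else 0) * blk 1 h := by
        rw [blk_mul, blk_mul, one_mul, mul_one, ← h1]
      conv_lhs => rw [hMN, perm_col, perm_row, hdec, hb]
      simp only [Matrix.mul_assoc]
    · rw [hS]
      have hb : blk x (Matrix.of fun (i : Fin m) (k : Fin n) => if (i : ℕ) = k then D i else 0) =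
          blk 1 g' * blk x M₁ * blk 1 h' := by
        rw [blk_mul, blk_mul, one_mul, mul_one, ← h2]
      rw [hb, hdec', hN, perm_col, perm_row]
      simp only [Matrix.mul_assoc]

end SmithAux

theorem smith (m n : ℕ) (hmn : m ≤ n) (M : Matrix (Fin m) (Fin n) (PowerSeries ℂ)) :
    ∃ (D : Fin m → PowerSeries ℂ) (g g' : Matrix (Fin m) (Fin m) (PowerSeries ℂ))
      (h h' : Matrix (Fin n) (Fin n) (PowerSeries ℂ)),
      (∀ i j, i ≤ j → D i ∣ D j) ∧
      M = g * (Matrix.of fun (i : Fin m) (k : Fin n) => if (i : ℕ) = k then D i else 0) * h ∧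
      (Matrix.of fun (i : Fin m) (k : Fin n) => if (i : ℕ) = k then D i else 0) = g' * M * h' :=
  SmithAux.main (fun a b => ValuationRing.dvd_total a b) m n hmn M

end MotMono
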