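import Pool.Agent.Lib.MP_4e5fcd_ag.Inv.Raise

/-! # INV-Dickson: the finite set of weights of a stable ideal -/

open MvPolynomial

namespace MotMono

variable {s N : ℕ} {m n : Fin s → ℕ}

/-- Dickson's lemma -/
theorem di_dickson {ι : Type} [Finite ι] (V : Set (ι → ℕ)) :
    ∃ A : Finset (ι → ℕ), (∀ w ∈ A, w ∈ V) ∧ ∀ w ∈ V, ∃ w' ∈ A, w' ≤ w := by
  have hpwo : V.IsPWO := Set.isPWO_of_wellQuasiOrderedLE V
  set B : Set (ι → ℕ) := {w | Minimal (· ∈ V) w} with hB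
  have hBV : B ⊆ V := fun w hw => hw.1
  have hfin : B.Finite := by
    have hanti : IsAntichain (· ≤ ·) B := setOfPred_minimal_antichain _
    exact hanti.finite_of_partiallyWellOrderedOn (hpwo.mono hBV)
  refine ⟨hfin.toFinset, fun w hw => hBV (hfin.mem_toFinset.mp hw), fun w hw => ?_⟩
  obtain ⟨w', h1, h2⟩ := hpwo.exists_le_minimal hw
  exact ⟨w', hfin.mem_toFinset.mpr h2, h1⟩

theorem exists_A (e : (Σ a, Fin (m a) × Fin (n a)) ≃ Fin N) (hmn : ∀ a, m a ≤ n a)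
    (I : Ideal (MvPolynomial (Fin N) ℂ)) (hI : GLStable e I) (h0 : I ≠ ⊥) :
    ∃ A : Finset ((Σ a, Fin (m a)) → ℕ), A.Nonempty ∧ (∀ w ∈ A, dPoly e hmn w ∈ I) ∧
      ∀ w, dPoly e hmn w ∈ I → ∃ w' ∈ A, ∀ c, w' c ≤ w c := by
  obtain ⟨A, hA, hA'⟩ := di_dickson {w | dPoly e hmn w ∈ I}
  refine ⟨A, ?_, fun w hw => hA w hw, fun w hw => hA' w hw⟩
  by_contra hne
  rw [Finset.not_nonempty_iff_eq_empty] at hne
  subst hne
  obtain ⟨f, hf, hf0⟩ := Submodule.exists_mem_ne_zero_of_ne_bot h0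
  obtain ⟨κ, hκ⟩ := Finset.nonempty_iff_ne_empty.mpr (mt MvPolynomial.support_eq_empty.mp hf0)
  exact raise e hmn I hI (fun _ => False)
    (fun w hw => by
      obtain ⟨w', hw', -⟩ := hA' w hw
      simp at hw')
    (fun _ _ _ _ _ h => h) f hf κ hκ

end MotMono
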