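import Pool.Agent.Lib.MP_4e5fcd_ag.Inv.Ord

/-! # INV-OrdLocus: the motivic zeta functions agree -/

open MvPolynomial

namespace MotMono

variable {s N : ℕ} {m n : Fin s → ℕ}

theorem along_eq (e : (Σ a, Fin (m a) × Fin (n a)) ≃ Fin N) {L : ℕ} (γ : Fin N × Fin L → ℂ)
    (f : MvPolynomial (Fin N) ℂ) :
    ((along f γ : Polynomial ℂ) : PowerSeries ℂ) =
      aeval (pt e fun a => mser (jetPart e γ a)) f := by
  rw [← c6Hom_apply]
  have h1 : c6Hom γ = ((aeval (pt e fun a => mser (jetPart e γ a)) :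
      MvPolynomial (Fin N) ℂ →ₐ[ℂ] PowerSeries ℂ) : MvPolynomial (Fin N) ℂ →+* PowerSeries ℂ) := by
    apply MvPolynomial.ringHom_ext
    · intro r
      rw [c6Hom_apply, RingHom.coe_coe, ← algebraMap_eq, AlgHom.commutes]
      unfold along
      rw [AlgHom.commutes]
      rw [Polynomial.algebraMap_eq, Polynomial.coe_C]
      rfl
    · intro x
      rw [c6Hom_apply, RingHom.coe_coe, aeval_X]
      unfold along
      rw [aeval_X]
      ext l
      rw [Polynomial.coeff_coe, c6_coeff_arc]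
      have h3 : e ⟨(e.symm x).1, ((e.symm x).2.1, (e.symm x).2.2)⟩ = x := e.apply_symm_apply x
      have h4 : PowerSeries.coeff l (mser (jetPart e γ (e.symm x).1) (e.symm x).2.1
          (e.symm x).2.2) = if h : l < L then γ (x, ⟨l, h⟩) else 0 := by
        unfold mser jetPart
        rw [PowerSeries.coeff_mk]
        split_ifs
        · exact congrArg (fun y => γ (y, _)) h3
        · rfl
      exact h4.symm
  rw [h1]
  rfl

theorem ol_iff (e : (Σ a, Fin (m a) × Fin (n a)) ≃ Fin N) (J : Ideal (MvPolynomial (Fin N) ℂ))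
    (k : ℕ) (γ : Fin N × Fin (k + 1) → ℂ) :
    γ ∈ ordLocus J k ↔ (∀ i, γ (i, 0) = 0) ∧
      (∀ f ∈ J, (PowerSeries.X : PowerSeries ℂ) ^ k ∣
        aeval (pt e fun a => mser (jetPart e γ a)) f) ∧
      ¬ ∀ f ∈ J, (PowerSeries.X : PowerSeries ℂ) ^ (k + 1) ∣
        aeval (pt e fun a => mser (jetPart e γ a)) f := by
  have hc : ∀ (f : MvPolynomial (Fin N) ℂ) (j : ℕ), (PowerSeries.X : PowerSeries ℂ) ^ j ∣
      aeval (pt e fun a => mser (jetPart e γ a)) f ↔ ∀ l < j, (along f γ).coeff l = 0 := by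
    intro f j
    rw [← along_eq, PowerSeries.X_pow_dvd_iff]
    simp only [Polynomial.coeff_coe]
  simp only [hc]
  unfold ordLocus
  rw [Set.mem_ofPred_eq]
  refine and_congr_right fun _ => and_congr_right fun h2 => ?_
  constructor
  · rintro ⟨f, hf, hne⟩ h
    exact hne (h f hf k (Nat.lt_succ_self k))
  · intro h
    push Not at h
    obtain ⟨f, hf, l, hl, hne⟩ := h
    refine ⟨f, hf, ?_⟩
    intro h3
    rcases Nat.lt_succ_iff_lt_or_eq.mp hl with h4 | h4
    · exact hne (h2 f hf l h4)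
    · exact hne (by rw [h4]; exact h3)

theorem ordLocus_eq (e : (Σ a, Fin (m a) × Fin (n a)) ≃ Fin N) (hmn : ∀ a, m a ≤ n a)
    (I : Ideal (MvPolynomial (Fin N) ℂ)) (hI : GLStable e I)
    (A : Finset ((Σ a, Fin (m a)) → ℕ)) (hA : ∀ w ∈ A, dPoly e hmn w ∈ I)
    (hA' : ∀ w, dPoly e hmn w ∈ I → ∃ w' ∈ A, ∀ c, w' c ≤ w c) (k : ℕ) :
    ordLocus I k = ordLocus (detSum e A) k := by
  ext γ
  rw [ol_iff e, ol_iff e, ord_iff e hmn I hI A hA hA', ord_iff e hmn I hI A hA hA']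

theorem Zmot_eq (e : (Σ a, Fin (m a) × Fin (n a)) ≃ Fin N) (hmn : ∀ a, m a ≤ n a)
    (I : Ideal (MvPolynomial (Fin N) ℂ)) (hI : GLStable e I)
    (A : Finset ((Σ a, Fin (m a)) → ℕ)) (hA : ∀ w ∈ A, dPoly e hmn w ∈ I)
    (hA' : ∀ w, dPoly e hmn w ∈ I → ∃ w' ∈ A, ∀ c, w' c ≤ w c) :
    Zmot I = Zmot (detSum e A) := by
  unfold Zmot
  simp only [ordLocus_eq e hmn I hI A hA hA']

end MotMono
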