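import Pool.Agent.Lib.MP_4e5fcd_ag.Inv.Lead
import Pool.Agent.Lib.MP_4e5fcd_ag.Det.M10

/-! # INV-ContactStr: contact implies structure -/

open MvPolynomial

namespace MotMono

variable {s N : ℕ} {m n : Fin s → ℕ}

theorem prodMinor_id (hmn : ∀ a, m a ≤ n a)
    (M : ∀ a, Matrix (Fin (m a)) (Fin (n a)) (PowerSeries ℂ)) (w : (Σ a, Fin (m a)) → ℕ) :
    prodMinor M (idChoice hmn w) = ∏ c, crn hmn M c ^ w c := by
  unfold prodMinor
  refine Finset.prod_congr rfl fun c _ => ?_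
  have h1 : ∀ j : Fin (w c), ((M c.1).submatrix (idChoice hmn w c j).1
      (idChoice hmn w c j).2).det = crn hmn M c := fun j => rfl
  rw [Finset.prod_congr rfl fun j _ => h1 j, Finset.prod_const, Finset.card_univ,
    Fintype.card_fin]

theorem str_of_contact (hmn : ∀ a, m a ≤ n a) (A : Finset ((Σ a, Fin (m a)) → ℕ))
    (u : (Σ a, Fin (m a)) → ℕ) (hu : Ext (AW A) u) (hN : 0 < minF (AW A) u)
    (hdet : Detected A u) (hp : Prim u) (δ : ℂ) (hδ : δ ≠ 0) (d : ℕ) (hd : 0 < d)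
    (M : ∀ a, Matrix (Fin (m a)) (Fin (n a)) (PowerSeries ℂ))
    (h0 : ∀ a i k, PowerSeries.coeff 0 (M a i k) = PowerSeries.coeff 0 (refU n u δ a i k))
    (hpat : ∀ a r, Vis A u a r → PatR (m a) (n a) (part u a) r (M a))
    (hc : ∀ w ∈ A, (∀ l < d, PowerSeries.coeff l (∏ c, crn hmn M c ^ w c) = 0) ∧
      PowerSeries.coeff d (∏ c, crn hmn M c ^ w c) =
        PowerSeries.coeff (minF (AW A) u) (∏ c, crn hmn (refU n u δ) c ^ w c)) :
    ∃ τ : ℕ, d = τ * minF (AW A) u ∧ ∃ z ∈ Gz A u δ,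
      ∀ a, Str (m a) (n a) (part (τ • u) a) (extz fun i => z ⟨a, i⟩) (M a) := by
  have hc' : ∀ w ∈ A, (∀ l < d, PowerSeries.coeff l (prodMinor M (idChoice hmn w)) = 0) ∧
      PowerSeries.coeff d (prodMinor M (idChoice hmn w)) =
        PowerSeries.coeff (minF (AW A) u) (prodMinor (refU n u δ) (idChoice hmn w)) := by
    intro w hw
    rw [prodMinor_id, prodMinor_id]
    exact hc w hw
  have hex : ∀ a, ∃ (b : ℕ → ℕ) (z : ℕ → ℂ), (∀ i < m a, b i = 0 ↔ part u a i = 0) ∧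
      (∀ i < m a, z i ≠ 0) ∧ BlockConst (m a) b z ∧
      (∀ i < m a, (∀ k ≤ i, part u a k = 0) → z i = δ) ∧ Str (m a) (n a) b z (M a) := by
    intro a
    refine str_of_pat (m a) (n a) (hmn a) (part u a) δ hδ {r | Vis A u a r} ?_ ?_ ?_ (M a)
      (fun i k => h0 a i k) (fun r hr _ => hpat a r hr)
    · intro i hi him hi1
      rw [m10_part_lt u a i (by omega)] at hi
      rw [m10_part_lt u a (i + 1) him] at hi1
      obtain ⟨r, hr1, hr2, hr3, hr4⟩ := hdet a ⟨i, by omega⟩ hi him hi1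
      refine ⟨r, hr1, hr2, hr3, fun k hk1 hk2 => ?_⟩
      rw [m10_part_lt u a k (by omega)]
      exact hr4 ⟨k, by omega⟩ hk1 hk2
    · intro i i' hii' hi'm hi hi' hk
      rw [m10_part_lt u a i (by omega)] at hi
      rw [m10_part_lt u a i' hi'm] at hi'
      obtain ⟨r, hr1, hr2, hr3, hr4⟩ := vis_boundary A u hu hN a ⟨i, by omega⟩ ⟨i', hi'm⟩
        hii' hi hi' (fun k hk1 hk2 => by
          have := hk k hk1 hk2
          rw [m10_part_lt u a k k.2] at this
          exact this)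
      refine ⟨r, hr1, hr2, hr3, fun k hk1 hk2 => ?_⟩
      rw [m10_part_lt u a k (by omega)]
      exact hr4 ⟨k, by omega⟩ hk1 hk2
    · intro hm hlast
      rw [m10_part_lt u a (m a - 1) (by omega)] at hlast
      exact vis_last A u hu hN a ⟨m a - 1, by omega⟩ (by simp only; omega) hlast
  choose b z hbu hz hbc hzδ hstr using hex
  set b' : (Σ a, Fin (m a)) → ℕ := fun c => b c.1 c.2 with hb'
  set z' : (Σ a, Fin (m a)) → ℂ := fun c => z c.1 c.2 with hz'
  have hpb : ∀ a, ∀ i < m a, part b' a i = b a i := fun a i hi => by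
    rw [m10_part_lt b' a i hi]
  have hpz : ∀ a, ∀ i < m a, (extz fun i => z' ⟨a, i⟩) i = z a i := fun a i hi => by
    rw [m10_extz_lt _ i hi]
  have hM' : ∀ a, Str (m a) (n a) (part b' a) (extz fun i => z' ⟨a, i⟩) (M a) := fun a =>
    (str_congr_bz (hpb a) (hpz a) (M a)).mpr (hstr a)
  have hbu' : ∀ c, b' c = 0 ↔ u c = 0 := by
    rintro ⟨a, i⟩
    have := hbu a i i.2
    rw [m10_part_lt u a i i.2] at this
    exact this
  have hz'0 : ∀ c, z' c ≠ 0 := fun c => hz c.1 c.2 c.2.2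
  have hbc' : ∀ a, BlockConst (m a) (part b' a) (extz fun i => z' ⟨a, i⟩) := by
    intro a i hi hb0
    rw [hpb a (i + 1) hi] at hb0
    rw [hpz a (i + 1) hi, hpz a i (by omega)]
    exact hbc a i hi hb0
  have key := fun w C => prodMinor_of_str hmn u δ hδ b' hbu' z' hz'0 hbc' M hM' w C
  have hfac : ∀ w : (Σ a, Fin (m a)) → ℕ,
      (∏ c : (Σ a, Fin (m a)),
        (∏ i : Fin (m c.1), if i ≤ c.2 then z' ⟨c.1, i⟩ / δ else 1) ^ w c) ≠ 0 := by
    intro w
    refine Finset.prod_ne_zero_iff.mpr fun c _ => pow_ne_zero _ ?_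
    refine Finset.prod_ne_zero_iff.mpr fun i _ => ?_
    split_ifs
    · exact div_ne_zero (hz'0 _) hδ
    · exact one_ne_zero
  have hface : ∀ w ∈ A, InFace (AW A) u (Wf w) → pair (Wf w) b' = d := by
    intro w hw hf
    obtain ⟨k1, k2⟩ := key w (idChoice hmn w)
    obtain ⟨c1, c2⟩ := hc' w hw
    have hne := coeff_prodMinor_id hmn u δ hδ w
    rcases lt_trichotomy (pair (Wf w) b') d with hlt | heq | hgt
    · exfalso
      have h1 := c1 _ hlt
      rw [k2] at h1
      exact mul_ne_zero (hfac w) hne h1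
    · exact heq
    · exfalso
      have h1 := k1 _ hgt
      rw [c2, m10_face_eq (AW A) u (Wf w) hf] at h1
      exact hne h1
  obtain ⟨c, hcb⟩ := hu.2 (fun c => (b' c : ℚ))
    (fun c hc0 => by
      have := (hbu' c).mpr hc0
      simp only [this]
      simp)
    (by
      have haux : ∀ W, InFace (AW A) u W → ∑ i, (W i : ℚ) * (b' i : ℚ) = d := by
        intro W hW
        obtain ⟨w, hw, rfl⟩ := Finset.mem_image.mp hW.1
        have := hface w hw hW
        unfold pair at this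
        rw [← this]
        push_cast
        rfl
      intro W W' hW hW'
      rw [haux W hW, haux W' hW'])
  obtain ⟨τ, hτ⟩ := m10_prim u b' hp hu.1 c hcb
  obtain ⟨W₀, hW₀⟩ := m10_exists_face (AW A) u hN
  refine ⟨τ, ?_, z', ⟨hz'0, ?_, ?_, ?_⟩, ?_⟩
  · obtain ⟨w, hw, rfl⟩ := Finset.mem_image.mp hW₀.1
    rw [m10_face_eq (AW A) u _ hW₀, ← hface w hw hW₀, hτ, m10_pair_smul]
  · intro a i hi
    refine hzδ a i i.2 fun k hk => ?_
    have hkm : k < m a := lt_of_le_of_lt hk i.2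
    rw [m10_part_lt u a k hkm]
    exact hi ⟨k, hkm⟩ hk
  · intro a i h hui
    exact hbc a i h ((hbu' ⟨a, ⟨i + 1, h⟩⟩).mpr hui)
  · intro w hw hf
    obtain ⟨k1, k2⟩ := key w (idChoice hmn w)
    obtain ⟨c1, c2⟩ := hc' w hw
    have hne := coeff_prodMinor_id hmn u δ hδ w
    rw [hface w hw hf, c2, m10_face_eq (AW A) u (Wf w) hf] at k2
    exact mul_right_cancel₀ hne (by rw [one_mul]; exact k2.symm)
  · intro a
    rw [← hτ]
    exact hM' a

end MotMono
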