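import Pool.Agent.Lib.MP_4e5fcd_ag.Inv.Base
import Pool.Agent.Lib.MP_4e5fcd_ag.Det.M4

/-! # INV-StrFac: structured matrices are equivalent to diagonal matrices -/

open MvPolynomial

namespace MotMono

/-- the diagonal matrix with the given entries -/
noncomputable def sfDiag (m n : ℕ) (d : Fin m → PowerSeries ℂ) :
    Matrix (Fin m) (Fin n) (PowerSeries ℂ) :=
  Matrix.of fun (i : Fin m) (k : Fin n) => if (i : ℕ) = k then d i else 0

theorem sf_dg_mul {m p n : ℕ} (a a' : PowerSeries ℂ) (A : Matrix (Fin m) (Fin p) (PowerSeries ℂ))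
    (B : Matrix (Fin p) (Fin n) (PowerSeries ℂ)) :
    m4_dg a A * m4_dg a' B = m4_dg (a * a') (A * B) := by
  ext1 i k
  rw [Matrix.mul_apply, Fin.sum_univ_succ]
  refine Fin.cases ?_ (fun i' => ?_) i
  · refine Fin.cases ?_ (fun k' => ?_) k
    · rw [m4_dg_zz, m4_dg_zz, m4_dg_zz, Finset.sum_eq_zero (fun j _ => by
        rw [m4_dg_zs, zero_mul]), add_zero]
    · rw [m4_dg_zs, m4_dg_zs, mul_zero, zero_add]
      exact Finset.sum_eq_zero fun j _ => by rw [m4_dg_zs, zero_mul]
  · refine Fin.cases ?_ (fun k' => ?_) k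
    · rw [m4_dg_sz, m4_dg_sz, zero_mul, zero_add]
      exact Finset.sum_eq_zero fun j _ => by rw [m4_dg_sz, mul_zero]
    · rw [m4_dg_sz, zero_mul, zero_add, m4_dg_ss, Matrix.mul_apply]
      exact Finset.sum_congr rfl fun j _ => by rw [m4_dg_ss, m4_dg_ss]

theorem sf_dg_diag {m n : ℕ} (a : PowerSeries ℂ) (d : Fin m → PowerSeries ℂ) :
    m4_dg a (sfDiag m n d) = sfDiag (m + 1) (n + 1) (Fin.cases a d) := by
  ext1 i k
  refine Fin.cases ?_ (fun i' => ?_) i
  · refine Fin.cases ?_ (fun k' => ?_) k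
    · rw [m4_dg_zz]
      simp [sfDiag]
    · rw [m4_dg_zs]
      simp [sfDiag]
  · refine Fin.cases ?_ (fun k' => ?_) k
    · rw [m4_dg_sz]
      simp [sfDiag]
    · rw [m4_dg_ss]
      simp [sfDiag]

theorem sf_one_mul_one {ι : Type} [Fintype ι] [DecidableEq ι] (P P' : Matrix ι ι (PowerSeries ℂ))
    (hP : ∀ i k, PowerSeries.X ∣ P i k - (1 : Matrix ι ι (PowerSeries ℂ)) i k)
    (hP' : ∀ i k, PowerSeries.X ∣ P' i k - (1 : Matrix ι ι (PowerSeries ℂ)) i k) (i k : ι) :
    PowerSeries.X ∣ (P * P') i k - (1 : Matrix ι ι (PowerSeries ℂ)) i k := by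
  have h1 : (P * P') i k - (1 : Matrix ι ι (PowerSeries ℂ)) i k =
      ((P - 1) * P') i k + (P' i k - (1 : Matrix ι ι (PowerSeries ℂ)) i k) := by
    have h2 : P * P' = (P - 1) * P' + P' := by
      rw [sub_mul, one_mul, sub_add_cancel]
    rw [h2, Matrix.add_apply]
    ring
  rw [h1]
  refine dvd_add ?_ (hP' i k)
  rw [Matrix.mul_apply]
  refine Finset.dvd_sum fun j _ => Dvd.dvd.mul_right ?_ _
  rw [Matrix.sub_apply]
  exact hP i j

theorem sf_dg_one {m : ℕ} (P : Matrix (Fin m) (Fin m) (PowerSeries ℂ))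
    (hP : ∀ i k, PowerSeries.X ∣ P i k - (1 : Matrix _ _ (PowerSeries ℂ)) i k)
    (i k : Fin (m + 1)) : PowerSeries.X ∣ m4_dg 1 P i k - (1 : Matrix _ _ (PowerSeries ℂ)) i k := by
  refine Fin.cases ?_ (fun i' => ?_) i
  · refine Fin.cases ?_ (fun k' => ?_) k
    · rw [m4_dg_zz, Matrix.one_apply_eq, sub_self]
      exact dvd_zero _
    · rw [m4_dg_zs, Matrix.one_apply_ne (Fin.succ_ne_zero k').symm, sub_self]
      exact dvd_zero _
  · refine Fin.cases ?_ (fun k' => ?_) k
    · rw [m4_dg_sz, Matrix.one_apply_ne (Fin.succ_ne_zero i'), sub_self]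
      exact dvd_zero _
    · have h := hP i' k'
      rw [m4_dg_ss]
      rw [Matrix.one_apply] at h ⊢
      simp only [Fin.succ_inj]
      exact h

theorem str_factor (m n : ℕ) (hmn : m ≤ n) (b : ℕ → ℕ) (z : ℕ → ℂ) (hz : ∀ i < m, z i ≠ 0)
    (M : Matrix (Fin m) (Fin n) (PowerSeries ℂ)) (h : Str m n b z M) :
    ∃ (P : Matrix (Fin m) (Fin m) (PowerSeries ℂ)) (Q : Matrix (Fin n) (Fin n) (PowerSeries ℂ))
      (v : Fin m → PowerSeries ℂ),
      (∀ i k, PowerSeries.X ∣ P i k - (1 : Matrix _ _ (PowerSeries ℂ)) i k) ∧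
      (∀ i k, PowerSeries.X ∣ Q i k - (1 : Matrix _ _ (PowerSeries ℂ)) i k) ∧
      (∀ i, PowerSeries.constantCoeff (v i) = z i) ∧
      M = P * (Matrix.of fun (i : Fin m) (k : Fin n) =>
        if (i : ℕ) = k then PowerSeries.X ^ mue b i * v i else 0) * Q := by
  induction m generalizing n b z with
  | zero =>
    refine ⟨1, 1, fun i => i.elim0, fun i => i.elim0, fun i k => by simp, fun i => i.elim0, ?_⟩
    ext1 i
    exact i.elim0
  | succ m ih =>
    obtain ⟨n, rfl⟩ : ∃ n', n = n' + 1 := ⟨n - 1, by omega⟩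
    obtain ⟨h1, h2⟩ := h
    set b' : ℕ → ℕ := fun i => b (i + 1) with hb'
    set z' : ℕ → ℂ := fun i => z (i + 1) with hz'
    set E := divX (b 0) M with hE
    set G' := refM m n b' z' with hG'
    have hz0 : z 0 ≠ 0 := hz 0 (by omega)
    have hcoef : ∀ i k, ∀ l ≤ b 0, PowerSeries.coeff l (M i k) =
        PowerSeries.coeff l (PowerSeries.X ^ b 0 * m4_dg (PowerSeries.C (z 0)) G' i k) := by
      intro i k l hl
      rw [h1 i k l hl, m4_ref]
    have hq : ∀ i k, ∀ l < b 0, PowerSeries.coeff l (M i k) = 0 := by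
      intro i k l hl
      rw [hcoef i k l hl.le, PowerSeries.coeff_X_pow_mul', if_neg (not_le.2 hl)]
    have hE0 : ∀ i k, PowerSeries.X ∣ E i k - m4_dg (PowerSeries.C (z 0)) G' i k := by
      intro i k
      rw [PowerSeries.X_dvd_iff, ← PowerSeries.coeff_zero_eq_constantCoeff_apply, map_sub,
        sub_eq_zero, hE, divX, PowerSeries.coeff_mk, zero_add, hcoef i k (b 0) le_rfl,
        PowerSeries.coeff_X_pow_mul', if_pos le_rfl, Nat.sub_self]
    have hE00 : PowerSeries.constantCoeff (E 0 0) = z 0 := by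
      have h3 := hE0 0 0
      rw [m4_dg_zz, PowerSeries.X_dvd_iff, map_sub, sub_eq_zero, PowerSeries.constantCoeff_C]
        at h3
      exact h3
    obtain ⟨P, Q, hP, hQ, hfac⟩ := m4_factor E (by rw [hE00]; exact hz0)
      (fun i => by
        have h3 := hE0 i.succ 0
        rwa [m4_dg_sz, sub_zero] at h3)
      (fun k => by
        have h3 := hE0 0 k.succ
        rwa [m4_dg_zs, sub_zero] at h3)
    obtain ⟨P₁, Q₁, v₁, hP₁, hQ₁, hv₁, hfac₁⟩ := ih n (by omega) b' z'
      (fun i hi => hz (i + 1) (by omega)) (elim1 E) h2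
    refine ⟨P * m4_dg 1 P₁, m4_dg 1 Q₁ * Q, Fin.cases (E 0 0) v₁,
      sf_one_mul_one P _ hP (sf_dg_one P₁ hP₁), sf_one_mul_one _ Q (sf_dg_one Q₁ hQ₁) hQ, ?_, ?_⟩
    · intro i
      refine Fin.cases ?_ (fun i' => ?_) i
      · exact hE00
      · exact hv₁ i'
    · have e1 : (Matrix.of fun (i : Fin m) (k : Fin n) =>
          if (i : ℕ) = k then PowerSeries.X ^ mue b' i * v₁ i else 0) =
          sfDiag m n (fun i => PowerSeries.X ^ mue b' i * v₁ i) := rfl
      have e2 : (Matrix.of fun (i : Fin (m + 1)) (k : Fin (n + 1)) =>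
          if (i : ℕ) = k then PowerSeries.X ^ mue b i *
            (Fin.cases (E 0 0) v₁ i : PowerSeries ℂ) else 0) =
          (PowerSeries.X ^ b 0 : PowerSeries ℂ) •
            m4_dg (E 0 0) (sfDiag m n (fun i => PowerSeries.X ^ mue b' i * v₁ i)) := by
        rw [sf_dg_diag]
        ext1 i k
        rw [Matrix.smul_apply, smul_eq_mul, sfDiag, Matrix.of_apply, Matrix.of_apply, mul_ite,
          mul_zero]
        split_ifs with hik
        · refine Fin.cases ?_ (fun i' => ?_) i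
          · have : mue b ((0 : Fin (m + 1)) : ℕ) = b 0 := by
              simp [mue]
            rw [this]
            rfl
          · show PowerSeries.X ^ mue b ((i'.succ : Fin (m + 1)) : ℕ) * v₁ i' =
              PowerSeries.X ^ b 0 * (PowerSeries.X ^ mue b' i' * v₁ i')
            rw [Fin.val_succ, m4_mue, pow_add, mul_assoc]
        · rfl
      have e3 : M = (PowerSeries.X ^ b 0 : PowerSeries ℂ) • E := by
        ext1 i k
        rw [Matrix.smul_apply, smul_eq_mul]
        exact m4_divX (b 0) M hq i k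
      rw [e1] at hfac₁
      have e4 : m4_dg (E 0 0) (elim1 E) = m4_dg 1 P₁ *
          m4_dg (E 0 0) (sfDiag m n (fun i => PowerSeries.X ^ mue b' i * v₁ i)) *
          m4_dg 1 Q₁ := by
        rw [sf_dg_mul, sf_dg_mul, one_mul, mul_one, ← hfac₁]
      rw [e2, e3]
      conv_lhs => rw [hfac, e4]
      rw [Matrix.mul_smul, Matrix.smul_mul]
      simp only [Matrix.mul_assoc]

end MotMono
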