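import Pool.Agent.Lib.MP_4e5fcd_ag.Inv.DiagEval
import Pool.Agent.Lib.MP_4e5fcd_ag.Inv.StrFac
import Pool.Agent.Lib.MP_4e5fcd_ag.Det.M11

/-! # INV-StrContact: structure implies contact, for all elements of a stable ideal -/

open MvPolynomial

namespace MotMono

variable {s N : ℕ} {m n : Fin s → ℕ}

theorem contact_of_str (e : (Σ a, Fin (m a) × Fin (n a)) ≃ Fin N) (hmn : ∀ a, m a ≤ n a)
    (I : Ideal (MvPolynomial (Fin N) ℂ)) (hI : GLStable e I)
    (A : Finset ((Σ a, Fin (m a)) → ℕ)) (hA : ∀ w ∈ A, dPoly e hmn w ∈ I)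
    (hA' : ∀ w, dPoly e hmn w ∈ I → ∃ w' ∈ A, ∀ c, w' c ≤ w c)
    (u : (Σ a, Fin (m a)) → ℕ) (δ : ℂ) (hδ : δ ≠ 0) (d : ℕ) (hd : 0 < d) (τ : ℕ)
    (hτ : d = τ * minF (AW A) u) (z : (Σ a, Fin (m a)) → ℂ) (hz : z ∈ Gz A u δ)
    (M : ∀ a, Matrix (Fin (m a)) (Fin (n a)) (PowerSeries ℂ))
    (hM : ∀ a, Str (m a) (n a) (part (τ • u) a) (extz fun i => z ⟨a, i⟩) (M a)) :
    (∀ a i k, PowerSeries.coeff 0 (M a i k) = PowerSeries.coeff 0 (refU n u δ a i k)) ∧
      ∀ f ∈ I, (∀ l < d, PowerSeries.coeff l (aeval (pt e M) f) = 0) ∧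
        PowerSeries.coeff d (aeval (pt e M) f) =
          PowerSeries.coeff (minF (AW A) u) (aeval (pt e (refU n u δ)) f) := by
  have hz0 : ∀ c, z c ≠ 0 := hz.1
  have hzδ := hz.2.1
  have hτ0 : 0 < τ := by
    rcases Nat.eq_zero_or_pos τ with h | h
    · rw [h, zero_mul] at hτ
      omega
    · exact h
  have hbu : ∀ c, (τ • u) c = 0 ↔ u c = 0 := by
    intro c
    simp only [Pi.smul_apply, smul_eq_mul, mul_eq_zero]
    constructor
    · rintro (h | h)
      · omega
      · exact h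
    · exact fun h => Or.inr h
  refine ⟨?_, ?_⟩
  · intro a i k
    refine m10_const (m a) (n a) (hmn a) (part (τ • u) a) (part u a) _ δ ?_ ?_ (M a) (hM a) i k
    · intro j hj
      rw [m10_part_lt _ a j hj, m10_part_lt _ a j hj]
      exact hbu _
    · intro j hj hk
      rw [m10_extz_lt _ j hj]
      refine hzδ a ⟨j, hj⟩ fun k hkj => ?_
      have := hk k hkj
      rw [m10_part_lt u a k k.2] at this
      exact this
  · have hex : ∀ a, ∃ (P : Matrix (Fin (m a)) (Fin (m a)) (PowerSeries ℂ))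
        (Q : Matrix (Fin (n a)) (Fin (n a)) (PowerSeries ℂ)) (v : Fin (m a) → PowerSeries ℂ),
        (∀ i k, PowerSeries.X ∣ P i k - (1 : Matrix _ _ (PowerSeries ℂ)) i k) ∧
        (∀ i k, PowerSeries.X ∣ Q i k - (1 : Matrix _ _ (PowerSeries ℂ)) i k) ∧
        (∀ i, PowerSeries.constantCoeff (v i) = (extz fun i => z ⟨a, i⟩) i) ∧
        M a = P * (Matrix.of fun (i : Fin (m a)) (k : Fin (n a)) =>
          if (i : ℕ) = k then PowerSeries.X ^ mue (part (τ • u) a) i * v i else 0) * Q := by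
      intro a
      refine str_factor (m a) (n a) (hmn a) _ _ ?_ (M a) (hM a)
      intro i hi
      rw [m10_extz_lt _ i hi]
      exact hz0 _
    choose P Q v hP hQ hv hfac using hex
    have hv' : ∀ c : (Σ a, Fin (m a)), PowerSeries.constantCoeff (v c.1 c.2) = z c := by
      rintro ⟨a, i⟩
      rw [hv a i, m10_extz_lt _ (i : ℕ) i.2]
    set D := dgD n fun c : (Σ a, Fin (m a)) =>
      PowerSeries.X ^ (τ * mue (part u c.1) c.2) * v c.1 c.2 with hD
    have hMD : M = fun a => P a * D a * Q a := by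
      funext a
      rw [hfac a]
      congr 2
      ext1 i k
      rw [Matrix.of_apply, m11_mue_smul]
      rfl
    intro f hf
    have h1 := dvd_diag e hmn I hI A hA hA' u τ (fun c => v c.1 c.2) f hf
    have h2 := congr_act e I hI D (τ * minF (AW A) u)
      (dvd_diag e hmn I hI A hA hA' u τ (fun c => v c.1 c.2)) P Q hP hQ f hf
    have h3 := coeff_diag e hmn I hI A hA hA' u δ hδ τ hτ0 z hz (fun c => v c.1 c.2) hv' f hf
    rw [← hτ] at h1 h2 h3
    have h4 : ∀ l ≤ d, PowerSeries.coeff l (aeval (pt e M) f) =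
        PowerSeries.coeff l (aeval (pt e D) f) := by
      intro l hl
      rw [PowerSeries.X_pow_dvd_iff] at h2
      have h5 := h2 l (by omega)
      rw [map_sub, sub_eq_zero] at h5
      rw [hMD]
      exact h5
    refine ⟨fun l hl => ?_, ?_⟩
    · rw [h4 l hl.le]
      rw [PowerSeries.X_pow_dvd_iff] at h1
      exact h1 l hl
    · rw [h4 d le_rfl]
      exact h3

end MotMono
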