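import Pool.Agent.Lib.MP_4e5fcd_ag.Det.Main
import Pool.Agent.Lib.MP_4e5fcd_ag.Inv.OrdLocus
import Pool.Agent.Lib.MP_4e5fcd_ag.Inv.Dickson
import Pool.Agent.Lib.MP_4e5fcd_ag.Inv.ContactStr
import Pool.Agent.Lib.MP_4e5fcd_ag.Inv.StrContact

/-! # INV-Main: assembly -/

open MvPolynomial

namespace MotMono

variable {s N : ℕ} {m n : Fin s → ℕ}

/-- values of the substitution -/
theorem im_aeval_glSub {R : Type} [CommRing R] [Algebra ℂ R]
    (e : (Σ a, Fin (m a) × Fin (n a)) ≃ Fin N)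
    (g : ∀ a, Matrix (Fin (m a)) (Fin (m a)) ℂ) (h : ∀ a, Matrix (Fin (n a)) (Fin (n a)) ℂ)
    (Y : ∀ a, Matrix (Fin (m a)) (Fin (n a)) R) (F : MvPolynomial (Fin N) ℂ) :
    aeval (pt e Y) (glSub e g h F) =
      aeval (pt e fun a => (g a).map (algebraMap ℂ R) * Y a * (h a).map (algebraMap ℂ R)) F := by
  have key : ∀ (a : Fin s) (i₀ : Fin (m a)) (k₀ : Fin (n a)),
      aeval (pt e Y) (∑ i, ∑ k, C (g a i₀ i * h a k k₀) *
        (X (e ⟨a, (i, k)⟩) : MvPolynomial (Fin N) ℂ)) =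
      ((g a).map (algebraMap ℂ R) * Y a * (h a).map (algebraMap ℂ R)) i₀ k₀ := by
    intro a i₀ k₀
    have hY : ∀ i k, pt e Y (e ⟨a, (i, k)⟩) = Y a i k := by
      intro i k
      unfold pt
      rw [Equiv.symm_apply_apply]
    rw [Matrix.mul_apply]
    simp only [Matrix.mul_apply, Matrix.map_apply, map_sum, map_mul, aeval_C, aeval_X, hY,
      Finset.sum_mul]
    rw [Finset.sum_comm]
    refine Finset.sum_congr rfl fun k _ => Finset.sum_congr rfl fun i _ => ?_
    ring
  have h1 : (aeval (pt e Y)).comp (glSub e g h) =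
      aeval (pt e fun a => (g a).map (algebraMap ℂ R) * Y a * (h a).map (algebraMap ℂ R)) := by
    apply MvPolynomial.algHom_ext
    intro x
    rw [AlgHom.comp_apply]
    unfold glSub
    rw [aeval_X, aeval_X]
    exact key _ _ _
  rw [← h1]
  rfl

theorem im_aeval_dPoly {R : Type} [CommRing R] [Algebra ℂ R]
    (e : (Σ a, Fin (m a) × Fin (n a)) ≃ Fin N) (hmn : ∀ a, m a ≤ n a)
    (Y : ∀ a, Matrix (Fin (m a)) (Fin (n a)) R) (w : (Σ a, Fin (m a)) → ℕ) :
    aeval (pt e Y) (dPoly e hmn w) = ∏ c, crn hmn Y c ^ w c := by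
  unfold dPoly
  rw [map_prod]
  refine Finset.prod_congr rfl fun c _ => ?_
  rw [map_pow, aeval_crn]

theorem im_curve (e : (Σ a, Fin (m a) × Fin (n a)) ≃ Fin N) (u : (Σ a, Fin (m a)) → ℕ) (δ : ℂ)
    (f : MvPolynomial (Fin N) ℂ) :
    ((aeval (curveU e u δ) f : Polynomial ℂ) : PowerSeries ℂ) =
      aeval (pt e (refU n u δ)) f := by
  have h1 : ((Polynomial.coeToPowerSeries.algHom ℂ).comp (aeval (curveU e u δ)) :
      MvPolynomial (Fin N) ℂ →ₐ[ℂ] PowerSeries ℂ) = aeval (pt e (refU n u δ)) := by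
    apply MvPolynomial.algHom_ext
    intro x
    rw [AlgHom.comp_apply, aeval_X, aeval_X, Polynomial.coeToPowerSeries.algHom_apply]
    have h2 := m8b_curveU_coe (n := n) e u δ (e.symm x).1 (e.symm x).2.1 (e.symm x).2.2
    have h3 : e ⟨(e.symm x).1, ((e.symm x).2.1, (e.symm x).2.2)⟩ = x := e.apply_symm_apply x
    rw [h3] at h2
    have h4 : (PowerSeries.map (algebraMap ℂ ℂ)) ((curveU e u δ x : Polynomial ℂ) :
        PowerSeries ℂ) = ((curveU e u δ x : Polynomial ℂ) : PowerSeries ℂ) := by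
      rw [Algebra.algebraMap_self, PowerSeries.map_id]
      rfl
    rw [h4, h2]
    rfl
  rw [← h1, AlgHom.comp_apply, Polynomial.coeToPowerSeries.algHom_apply]
  rw [Algebra.algebraMap_self, PowerSeries.map_id]
  rfl

theorem im_Zmot_bot : Zmot (⊥ : Ideal (MvPolynomial (Fin N) ℂ)) = 0 := by
  unfold Zmot
  ext k
  rw [PowerSeries.coeff_mk, map_zero]
  have h1 : ordLocus (⊥ : Ideal (MvPolynomial (Fin N) ℂ)) k = ∅ := by
    rw [Set.eq_empty_iff_forall_notMem]
    rintro γ ⟨-, -, f, hf, hne⟩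
    rw [Ideal.mem_bot] at hf
    subst hf
    apply hne
    unfold along
    rw [map_zero, Polynomial.coeff_zero]
  rw [h1, cls_empty, map_zero, zero_mul]

theorem inv_main (e : (Σ a, Fin (m a) × Fin (n a)) ≃ Fin N) (hm : ∀ a, 0 < m a)
    (hmn : ∀ a, m a ≤ n a) (I : Ideal (MvPolynomial (Fin N) ℂ)) (hI : GLStable e I) (s₀ : ℚ)
    (hpole : IsPole (Zmot I) s₀) (ε : ℝ) (hε : 0 < ε) :
    ∃ p : Fin N → ℂ, ‖p‖ < ε ∧ (∀ f ∈ I, eval p f = 0) ∧
      ∃ y : ConePoint I p, y.Nonzero ∧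
        ∀ χ : K0 →+* ℤ, IsEulerChar χ →
          ∃ Z, IsZeta (fun d => χ (cls (contactArcs I p y d))) Z ∧
            ZeroOrPole Z (Complex.exp (2 * Real.pi * Complex.I * s₀)) := by
  classical
  by_cases hbot : I = ⊥
  · exfalso
    rw [hbot, im_Zmot_bot] at hpole
    exact hpole (Subring.zero_mem _)
  obtain ⟨A, hAne, hA, hA'⟩ := exists_A e hmn I hI hbot
  rw [Zmot_eq e hmn I hI A hA hA'] at hpole
  obtain ⟨u₀, hu₀, hN₀, hs₀⟩ := exists_ray_of_pole e hm hmn A hAne s₀ hpole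
  obtain ⟨u, hu, hdet, hp, hN, z, hz⟩ := exists_detected n hmn A u₀ hu₀ hN₀
  set δ : ℂ := ((ε / 2 : ℝ) : ℂ) with hδdef
  have hδ : δ ≠ 0 := by
    rw [hδdef]; exact_mod_cast (by positivity : (ε / 2 : ℝ) ≠ 0)
  have hlt : ∀ f ∈ I, ∀ l < minF (AW A) u, (aeval (curveU e u δ) f).coeff l = 0 := by
    intro f hf l hl
    have h1 := (ord_iff e hmn I hI A hA hA' (refU n u δ) (minF (AW A) u)).mpr (by
      intro g hg
      rw [PowerSeries.X_pow_dvd_iff]
      intro l hl
      rw [← im_curve, Polynomial.coeff_coe]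
      exact curveU_coeff_lt e A u δ g hg l hl) f hf
    rw [PowerSeries.X_pow_dvd_iff] at h1
    have h2 := h1 l hl
    rwa [← im_curve, Polynomial.coeff_coe] at h2
  obtain ⟨y, hy⟩ := exists_conePoint_curve I (curveU e u δ) (minF (AW A) u) hlt
  obtain ⟨y', hy'⟩ := exists_conePoint_curve (detSum e A) (curveU e u δ) (minF (AW A) u)
    (fun f hf l hl => curveU_coeff_lt e A u δ f hf l hl)
  have hp0 : ∀ f ∈ I, eval (fun i => (curveU e u δ i).eval 0) f = 0 := by
    intro f hf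
    have h0 := hlt f hf 0 hN
    rwa [eval_curve_zero] at h0
  -- the contact jets are the same
  have hcontact : ∀ d, 0 < d → contactArcs I (fun i => (curveU e u δ i).eval 0) y d =
      contactArcs (detSum e A) (fun i => (curveU e u δ i).eval 0) y' d := by
    intro d hd
    ext γ
    rw [mem_contact_iff e A u δ hN y' hy' d hd γ,
      contact_iff hmn A u hu hN hdet hp δ hδ d hd (fun a => mser (jetPart e γ a))]
    have hcoef : ∀ (f : MvPolynomial (Fin N) ℂ) (l : ℕ), (along f γ).coeff l =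
        PowerSeries.coeff l (aeval (pt e fun a => mser (jetPart e γ a)) f) := by
      intro f l
      rw [← along_eq, Polynomial.coeff_coe]
    have href : ∀ f ∈ I, y.φ 1 f =
        PowerSeries.coeff (minF (AW A) u) (aeval (pt e (refU n u δ)) f) := by
      intro f hf
      rw [hy f hf, ← im_curve, Polynomial.coeff_coe]
    constructor
    · rintro ⟨h1, h2⟩
      have h0 := (m8b_base e u δ d γ).mp h1
      have hc : ∀ x : GX m n → ℂ, ∀ w ∈ A,
          (∀ l < d, PowerSeries.coeff l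
            (∏ c, crn hmn (trM x fun a => mser (jetPart e γ a)) c ^ w c) = 0) ∧
          PowerSeries.coeff d (∏ c, crn hmn (trM x fun a => mser (jetPart e γ a)) c ^ w c) =
            PowerSeries.coeff (minF (AW A) u) (∏ c, crn hmn (trM x (refU n u δ)) c ^ w c) := by
        intro x w hw
        set g : ∀ a, Matrix (Fin (m a)) (Fin (m a)) ℂ := fun a =>
          Matrix.of fun i j => x (Sum.inl ⟨a, (i, j)⟩) with hg
        set h : ∀ a, Matrix (Fin (n a)) (Fin (n a)) ℂ := fun a =>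
          Matrix.of fun i j => x (Sum.inr ⟨a, (i, j)⟩) with hh
        have hmem : glSub e g h (dPoly e hmn w) ∈ I := glSub_mem_all e I hI _ (hA w hw) g h
        have htr : ∀ M : ∀ a, Matrix (Fin (m a)) (Fin (n a)) (PowerSeries ℂ),
            aeval (pt e M) (glSub e g h (dPoly e hmn w)) = ∏ c, crn hmn (trM x M) c ^ w c := by
          intro M
          rw [im_aeval_glSub, im_aeval_dPoly]
          rfl
        obtain ⟨h3, h4⟩ := h2 _ hmem
        rw [← htr, ← htr]
        refine ⟨fun l hl => ?_, ?_⟩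
        · rw [← hcoef]
          exact h3 l hl
        · rw [← hcoef, h4, href _ hmem]
      refine str_of_contact hmn A u hu hN hdet hp δ hδ d hd _ h0
        (pat_of_crn hmn A u δ hδ d _ hc) ?_
      intro w hw
      have h5 := hc (ghPt (fun _ => 1) fun _ => 1) w hw
      rwa [trM_one, trM_one] at h5
    · rintro ⟨τ, hτ, z, hz, hM⟩
      obtain ⟨h1, h2⟩ := contact_of_str e hmn I hI A hA hA' u δ hδ d hd τ hτ z hz _ hM
      refine ⟨(m8b_base e u δ d γ).mpr h1, fun f hf => ?_⟩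
      obtain ⟨h3, h4⟩ := h2 f hf
      refine ⟨fun l hl => ?_, ?_⟩
      · rw [hcoef]
        exact h3 l hl
      · rw [hcoef, h4, href f hf]
  refine ⟨fun i => (curveU e u δ i).eval 0, ?_, hp0, y, ?_, ?_⟩
  · have hle : ∀ i, ‖(curveU e u δ i).eval 0‖ ≤ ε / 2 := by
      intro i
      have h2 : ‖δ‖ = ε / 2 := by
        rw [hδdef, Complex.norm_real, Real.norm_eq_abs, abs_of_pos (by positivity)]
      unfold curveU
      split_ifs with h
      · rw [Polynomial.eval_mul, Polynomial.eval_C, Polynomial.eval_pow, Polynomial.eval_X,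
          norm_mul, h2, norm_pow, norm_zero]
        have : (0 : ℝ) ^ mue (part u (e.symm i).1) ((e.symm i).2.1 : ℕ) ≤ 1 := by
          rcases Nat.eq_zero_or_pos (mue (part u (e.symm i).1) ((e.symm i).2.1 : ℕ)) with h0 | h0
          · rw [h0, pow_zero]
          · rw [zero_pow h0.ne']; exact zero_le_one
        nlinarith
      · rw [Polynomial.eval_zero, norm_zero]; positivity
    exact lt_of_le_of_lt ((pi_norm_le_iff_of_nonneg (by positivity)).mpr hle) (by linarith)
  · obtain ⟨w₀, hw₀⟩ := hAne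
    have hne : {k | ∃ W ∈ AW A, pair W u = k}.Nonempty :=
      ⟨_, Wf w₀, Finset.mem_image_of_mem _ hw₀, rfl⟩
    obtain ⟨W, hW, hWk⟩ := Nat.sInf_mem hne
    obtain ⟨w, hw, rfl⟩ := Finset.mem_image.mp hW
    refine ⟨dPoly e hmn w, hA w hw, ?_⟩
    have h3 : minF (AW A) u = pair (Wf w) u := hWk.symm
    rw [hy _ (hA w hw), ← Polynomial.coeff_coe, im_curve, im_aeval_dPoly, ← prodMinor_id, h3]
    exact coeff_prodMinor_id hmn u δ hδ w
  · intro χ hχ
    obtain ⟨hG0, c, hc⟩ := card_Gz A u hu hN hp δ hδ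
    have hc0 : (c : ℤ) ≠ 0 := by
      rintro h
      have : c = 0 := by exact_mod_cast h
      rw [this, mul_zero] at hc
      omega
    refine exists_zeta (minF (AW A) u) hN (c : ℤ) hc0 _ ?_ _ ?_
    · rw [hs₀, ← Complex.exp_nat_mul, Complex.exp_eq_one_iff]
      refine ⟨-z, ?_⟩
      have h1 : ((pair (nuf n) u₀ : ℤ) : ℂ) * ((minF (AW A) u : ℤ) : ℂ) =
          (z : ℂ) * ((minF (AW A) u₀ : ℤ) : ℂ) := by exact_mod_cast hz
      have h2 : ((minF (AW A) u₀ : ℕ) : ℂ) ≠ 0 := by exact_mod_cast hN₀.ne'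
      have h3 : ((minF (AW A) u : ℕ) : ℂ) * (((pair (nuf n) u₀ : ℕ) : ℂ) /
          ((minF (AW A) u₀ : ℕ) : ℂ)) = z := by
        rw [← mul_div_assoc, div_eq_iff h2]
        push_cast at h1
        rw [← h1]; ring
      push_cast
      rw [← h3]
      ring
    · intro d hd
      rw [hcontact d hd,
        chi_contactArcs χ hχ e hmn A u hu hN hdet hp δ hδ y' hy' d hd, hc]
      split_ifs
      · push_cast; rfl
      · rfl

end MotMono
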