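import Pool.Agent.Lib.MP_4e5fcd_ag.Inv.Defs
import Pool.Agent.Lib.MP_4e5fcd_ag.Det.Base

/-!
# Ideals stable under products of general linear groups: auxiliary definitions
-/

open MvPolynomial

namespace MotMono

variable {s N : ℕ} {m n : Fin s → ℕ}

/-- the point with the given matrices as coordinates -/
def pt {R : Type} (e : (Σ a, Fin (m a) × Fin (n a)) ≃ Fin N)
    (Y : ∀ a, Matrix (Fin (m a)) (Fin (n a)) R) : Fin N → R :=
  fun x => Y (e.symm x).1 (e.symm x).2.1 (e.symm x).2.2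

/-- the leading principal minor of size `c.2 + 1` of the `c.1`-th matrix -/
def crn {R : Type} [CommRing R] (hmn : ∀ a, m a ≤ n a)
    (Y : ∀ a, Matrix (Fin (m a)) (Fin (n a)) R) (c : Σ a, Fin (m a)) : R :=
  ((Y c.1).submatrix (Fin.castLE (by omega) : Fin ((c.2 : ℕ) + 1) → Fin (m c.1))
    (Fin.castLE (by have := hmn c.1; omega) : Fin ((c.2 : ℕ) + 1) → Fin (n c.1))).det

/-- the matrices of variables -/
noncomputable def XM (e : (Σ a, Fin (m a) × Fin (n a)) ≃ Fin N) (a : Fin s) :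
    Matrix (Fin (m a)) (Fin (n a)) (MvPolynomial (Fin N) ℂ) := fun i k => X (e ⟨a, (i, k)⟩)

/-- the product of the powers of the leading principal minors with exponents `w` -/
noncomputable def dPoly (e : (Σ a, Fin (m a) × Fin (n a)) ≃ Fin N) (hmn : ∀ a, m a ≤ n a)
    (w : (Σ a, Fin (m a)) → ℕ) : MvPolynomial (Fin N) ℂ :=
  ∏ c, crn hmn (XM e) c ^ w c

/-- the degrees of a monomial in the rows -/
def rowwt (e : (Σ a, Fin (m a) × Fin (n a)) ≃ Fin N) (κ : Fin N →₀ ℕ) : (Σ a, Fin (m a)) → ℕ :=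
  fun c => ∑ k : Fin (n c.1), κ (e ⟨c.1, (c.2, k)⟩)

/-- the degrees of a monomial in the columns -/
def colwt (e : (Σ a, Fin (m a) × Fin (n a)) ≃ Fin N) (κ : Fin N →₀ ℕ) : (Σ a, Fin (n a)) → ℕ :=
  fun c => ∑ i : Fin (m c.1), κ (e ⟨c.1, (i, c.2)⟩)

/-- the degrees of `dPoly e hmn w` in the rows -/
def wtw (w : (Σ a, Fin (m a)) → ℕ) : (Σ a, Fin (m a)) → ℕ :=
  fun c => ∑ i : Fin (m c.1), if c.2 ≤ i then w ⟨c.1, i⟩ else 0

/-- the diagonal matrices with the given entries -/
def dgD {R : Type} [Zero R] (n : Fin s → ℕ) (D : (Σ a, Fin (m a)) → R) (a : Fin s) :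
    Matrix (Fin (m a)) (Fin (n a)) R :=
  fun i k => if (i : ℕ) = k then D ⟨a, i⟩ else 0

/-- the polynomial is invariant under the elementary row operations which add multiples of a row to
a later row -/
def RowInv (e : (Σ a, Fin (m a) × Fin (n a)) ≃ Fin N) (f : MvPolynomial (Fin N) ℂ) : Prop :=
  ∀ (a : Fin s) (j i : Fin (m a)), j < i → ∀ (c : ℂ) (M : ∀ a, Matrix (Fin (m a)) (Fin (n a)) ℂ),
    eval (pt e (Function.update M a (Matrix.transvection i j c * M a))) f = eval (pt e M) f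

/-- the polynomial is invariant under the elementary column operations which add multiples of a
column to a later column -/
def ColInv (e : (Σ a, Fin (m a) × Fin (n a)) ≃ Fin N) (f : MvPolynomial (Fin N) ℂ) : Prop :=
  ∀ (a : Fin s) (j l : Fin (n a)), j < l → ∀ (c : ℂ) (M : ∀ a, Matrix (Fin (m a)) (Fin (n a)) ℂ),
    eval (pt e (Function.update M a (M a * Matrix.transvection j l c))) f = eval (pt e M) f

/-- the coordinates of two families of square matrices -/
abbrev GX (m n : Fin s → ℕ) : Type :=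
  (Σ a, Fin (m a) × Fin (m a)) ⊕ (Σ a, Fin (n a) × Fin (n a))

/-- the point given by two families of square matrices -/
def ghPt {R : Type} (g : ∀ a, Matrix (Fin (m a)) (Fin (m a)) R)
    (h : ∀ a, Matrix (Fin (n a)) (Fin (n a)) R) : GX m n → R :=
  Sum.elim (fun c => g c.1 c.2.1 c.2.2) (fun c => h c.1 c.2.1 c.2.2)

/-- the matrices `g_a M_a h_a`, `x = (g, h)` -/
noncomputable def trM (x : GX m n → ℂ) (M : ∀ a, Matrix (Fin (m a)) (Fin (n a)) (PowerSeries ℂ))
    (a : Fin s) : Matrix (Fin (m a)) (Fin (n a)) (PowerSeries ℂ) :=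
  (Matrix.of fun i j => PowerSeries.C (x (Sum.inl ⟨a, (i, j)⟩))) * M a *
    (Matrix.of fun i j => PowerSeries.C (x (Sum.inr ⟨a, (i, j)⟩)))

/-! ### Polynomial functions -/

/-- polynomial functions -/
def PolyFun {σ : Type} (F : (σ → ℂ) → ℂ) : Prop := ∃ p : MvPolynomial σ ℂ, ∀ x, eval x p = F x

open Classical in
/-- the coordinates in `T` are replaced by those of `x'` -/
noncomputable def mix {σ : Type} (T : Set σ) (x x' : σ → ℂ) : σ → ℂ :=
  fun v => if v ∈ T then x' v else x v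

/-- the quotient `P / Q` does not depend on the coordinates in `T` -/
def Inv1 {σ : Type} (P Q : (σ → ℂ) → ℂ) (T : Set σ) : Prop :=
  ∀ x x', P x * Q (mix T x x') = P (mix T x x') * Q x

end MotMono
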