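import Pool.Agent.Lib.MP_4e5fcd_ag.Inv.LDU

/-! # INV-ClassA: the values of a polynomial invariant under unipotent matrices

PROOF. (1) Let `M` be a point with all leading minors `crn hmn M c ≠ 0`. Apply `ldu` to the matrices
`M a`, one after the other (induction over a finset `T` of indices `a`: there is a family `D` with
`eval (pt e M) f = eval (pt e M_T) f`, where `M_T a = dgD n D a` for `a ∈ T` and `M_T a = M a`
otherwise, and `∏ i ≤ r, D ⟨a, i⟩ = crn hmn M ⟨a, r⟩`; for the step use
`F Y = eval (pt e (Function.update M_T a Y)) f`, invariant by `hr`, `hc`). Result: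
`eval (pt e M) f = eval (pt e (dgD n D)) f`.
(2) `eval (pt e (dgD n D)) f = (∏ c, D c ^ β c) * eval (pt e (dgD n 1)) f`: write `f` as the sum of
its terms; each monomial `κ` has `∏ p, (pt e (dgD n D) p) ^ κ p = (∏ c, D c ^ rowwt e κ c) * ∏ p, (pt e (dgD n 1) p) ^ κ p`
(split the product over `p = e ⟨a, (i, k)⟩` by rows: `Equiv.prod_comp`, `Fintype.prod_sigma`,
`Fintype.prod_prod_type`; both sides are `0` if `κ` involves a variable off the diagonal).
(3) The statement follows at points with nonvanishing leading minors: the factors of index `c` with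
`c.2 = i > 0`: `crn ⟨a, i⟩ = D ⟨a, i⟩ * crn ⟨a, i - 1⟩`, so
`∏ c, D c ^ β c * ∏ (c with c.2 > 0), crn (c - 1) ^ β c = ∏ c, crn c ^ β c`.
(4) In general: both sides are polynomials; multiplied by `∏ c, crn hmn (XM e) c` they agree at all
points, and this product is not zero (value at `dgD n 1`), so they are equal (`MvPolynomial.funext`,
`mul_right_cancel₀`). Relation: `eval (pt e M) (crn hmn (XM e) c) = crn hmn M c` (`RingHom.map_det`). -/

open MvPolynomial

namespace MotMono

variable {s N : ℕ} {m n : Fin s → ℕ}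

private theorem ClassA_pt {R : Type} (e : (Σ a, Fin (m a) × Fin (n a)) ≃ Fin N)
    (M : ∀ a, Matrix (Fin (m a)) (Fin (n a)) R) (y : Σ a, Fin (m a) × Fin (n a)) :
    pt e M (e y) = M y.1 y.2.1 y.2.2 := by
  unfold pt
  rw [Equiv.symm_apply_apply]

/-- values of the leading minors -/
theorem aeval_crn {R : Type} [CommRing R] [Algebra ℂ R]
    (e : (Σ a, Fin (m a) × Fin (n a)) ≃ Fin N) (hmn : ∀ a, m a ≤ n a)
    (Y : ∀ a, Matrix (Fin (m a)) (Fin (n a)) R) (c : Σ a, Fin (m a)) :
    aeval (pt e Y) (crn hmn (XM e) c) = crn hmn Y c := by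
  unfold crn
  rw [AlgHom.map_det]
  congr 1
  ext i k
  simp only [AlgHom.mapMatrix_apply, Matrix.map_apply, Matrix.submatrix_apply, XM, aeval_X]
  rw [ClassA_pt]

/-- the leading minor of size `c.2`, with the value `1` for `c.2 = 0` -/
noncomputable def crnPred {R : Type} [CommRing R] (hmn : ∀ a, m a ≤ n a)
    (Y : ∀ a, Matrix (Fin (m a)) (Fin (n a)) R) (c : Σ a, Fin (m a)) : R :=
  if h : (c.2 : ℕ) = 0 then 1 else crn hmn Y ⟨c.1, ⟨(c.2 : ℕ) - 1, by omega⟩⟩

private theorem ClassA_aeval_pred {R : Type} [CommRing R] [Algebra ℂ R]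
    (e : (Σ a, Fin (m a) × Fin (n a)) ≃ Fin N) (hmn : ∀ a, m a ≤ n a)
    (Y : ∀ a, Matrix (Fin (m a)) (Fin (n a)) R) (c : Σ a, Fin (m a)) :
    aeval (pt e Y) (crnPred hmn (XM e) c) = crnPred hmn Y c := by
  unfold crnPred
  split_ifs with h
  · exact map_one _
  · exact aeval_crn e hmn Y _

private theorem ClassA_det_congr {R : Type} [CommRing R] {p q : ℕ} (Y : Matrix (Fin p) (Fin q) R)
    {r r' : ℕ} (h : r = r') (h1 : r ≤ p) (h2 : r ≤ q) (h1' : r' ≤ p) (h2' : r' ≤ q) :
    (Y.submatrix (Fin.castLE h1) (Fin.castLE h2)).det =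
      (Y.submatrix (Fin.castLE h1') (Fin.castLE h2')).det := by
  subst h
  rfl

private theorem ClassA_pred_eq {R : Type} [CommRing R] (hmn : ∀ a, m a ≤ n a)
    (Y : ∀ a, Matrix (Fin (m a)) (Fin (n a)) R) (c : Σ a, Fin (m a)) :
    crnPred hmn Y c = ((Y c.1).submatrix (Fin.castLE c.2.2.le)
      (Fin.castLE (c.2.2.le.trans (hmn c.1)))).det := by
  unfold crnPred
  split_ifs with h
  · rw [ClassA_det_congr (Y c.1) h _ _ (Nat.zero_le _) (Nat.zero_le _)]
    simp
  · unfold crn
    exact ClassA_det_congr (Y c.1) (by dsimp only; omega) _ _ _ _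

private theorem ClassA_elim (e : (Σ a, Fin (m a) × Fin (n a)) ≃ Fin N) (hmn : ∀ a, m a ≤ n a)
    (f : MvPolynomial (Fin N) ℂ) (hr : RowInv e f) (hc : ColInv e f)
    (M : ∀ a, Matrix (Fin (m a)) (Fin (n a)) ℂ) (hM : ∀ c, crn hmn M c ≠ 0)
    (T : Finset (Fin s)) :
    ∃ D : (Σ a, Fin (m a)) → ℂ,
      eval (pt e M) f = eval (pt e (fun a => if a ∈ T then dgD n D a else M a)) f ∧
      ∀ a ∈ T, ∀ (r : ℕ) (hr : r ≤ m a), ∏ i : Fin r, D ⟨a, Fin.castLE hr i⟩ =
        ((M a).submatrix (Fin.castLE hr) (Fin.castLE (hr.trans (hmn a)))).det := by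
  classical
  induction T using Finset.induction_on with
  | empty => exact ⟨fun _ => 0, by simp, by simp⟩
  | insert a T ha ih =>
    obtain ⟨D, hD1, hD2⟩ := ih
    set M' : ∀ a, Matrix (Fin (m a)) (Fin (n a)) ℂ :=
      fun a => if a ∈ T then dgD n D a else M a with hM'
    have hrow : ∀ (Y : Matrix (Fin (m a)) (Fin (n a)) ℂ) (j i : Fin (m a)), j < i → ∀ c : ℂ,
        (fun Y => eval (pt e (Function.update M' a Y)) f) (Matrix.transvection i j c * Y) =
        (fun Y => eval (pt e (Function.update M' a Y)) f) Y := by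
      intro Y j i hji c
      have h1 := hr a j i hji c (Function.update M' a Y)
      rw [Function.update_self, Function.update_idem] at h1
      exact h1
    have hcol : ∀ (Y : Matrix (Fin (m a)) (Fin (n a)) ℂ) (j l : Fin (n a)), j < l → ∀ c : ℂ,
        (fun Y => eval (pt e (Function.update M' a Y)) f) (Y * Matrix.transvection j l c) =
        (fun Y => eval (pt e (Function.update M' a Y)) f) Y := by
      intro Y j l hjl c
      have h1 := hc a j l hjl c (Function.update M' a Y)
      rw [Function.update_self, Function.update_idem] at h1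
      exact h1
    have hmin : ∀ (r : ℕ) (hr : r ≤ m a),
        ((M a).submatrix (Fin.castLE hr) (Fin.castLE (hr.trans (hmn a)))).det ≠ 0 := by
      intro r hr
      rcases Nat.eq_zero_or_pos r with h0 | h0
      · rw [ClassA_det_congr (M a) h0 _ _ (Nat.zero_le _) (Nat.zero_le _)]
        simp
      · have h1 := hM ⟨a, ⟨r - 1, by omega⟩⟩
        unfold crn at h1
        rw [ClassA_det_congr (M a) (r := r) (r' := r - 1 + 1) (by omega) _ _ (by omega)
          (by have := hmn a; omega)]
        exact h1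
    obtain ⟨Da, h1, h2⟩ := ldu (m a) (n a) (hmn a)
      (fun Y => eval (pt e (Function.update M' a Y)) f) hrow hcol (M a) hmin
    set D' : (Σ a, Fin (m a)) → ℂ :=
      fun c => Function.update (fun a' (i : Fin (m a')) => D ⟨a', i⟩) a Da c.1 c.2 with hD'
    have hD'a : ∀ i : Fin (m a), D' ⟨a, i⟩ = Da i := by
      intro i
      simp [hD']
    have hD'ne : ∀ (a' : Fin s) (i : Fin (m a')), a' ≠ a → D' ⟨a', i⟩ = D ⟨a', i⟩ := by
      intro a' i h
      simp [hD', Function.update_of_ne h]
    have hdg : (fun i k => if (i : ℕ) = k then Da i else 0 :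
        Matrix (Fin (m a)) (Fin (n a)) ℂ) = dgD n D' a := by
      funext i k
      simp only [dgD, hD'a]
    have h1' : eval (pt e (Function.update M' a (M a))) f =
        eval (pt e (Function.update M' a (dgD n D' a))) f :=
      h1.trans (congrArg (fun Z => eval (pt e (Function.update M' a Z)) f) hdg)
    refine ⟨D', ?_, ?_⟩
    · rw [hD1]
      have h3 : M' = Function.update M' a (M a) := by
        have : M a = M' a := by simp [hM', ha]
        rw [this, Function.update_eq_self]
      rw [h3]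
      refine h1'.trans ?_
      congr 2
      congr 1
      funext a'
      by_cases h4 : a' = a
      · subst h4
        rw [Function.update_self]
        simp only [Finset.mem_insert_self, if_true]
      · rw [Function.update_of_ne h4]
        simp only [hM', Finset.mem_insert, h4, false_or]
        by_cases h5 : a' ∈ T
        · simp only [h5, if_true]
          funext i k
          simp only [dgD, hD'ne a' i h4]
        · simp only [h5, if_false]
    · intro a' ha' r hr'
      by_cases h4 : a' = a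
      · subst h4
        simp only [hD'a]
        exact h2 r hr'
      · have h5 : a' ∈ T := by
          rcases Finset.mem_insert.1 ha' with h | h
          · exact absurd h h4
          · exact h
        simp only [hD'ne a' _ h4]
        exact hD2 a' h5 r hr'

private theorem ClassA_diag (e : (Σ a, Fin (m a) × Fin (n a)) ≃ Fin N)
    (f : MvPolynomial (Fin N) ℂ) (β : (Σ a, Fin (m a)) → ℕ)
    (hβ : ∀ κ ∈ f.support, rowwt e κ = β) (D : (Σ a, Fin (m a)) → ℂ) :
    eval (pt e (dgD n D)) f = (∏ c, D c ^ β c) * eval (pt e (dgD n 1)) f := by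
  rw [MvPolynomial.eval_eq', MvPolynomial.eval_eq', Finset.mul_sum]
  refine Finset.sum_congr rfl fun κ hκ => ?_
  have h1 : ∏ p, (pt e (dgD n D) p) ^ κ p =
      (∏ c, D c ^ β c) * ∏ p, (pt e (dgD n 1) p) ^ κ p := by
    rw [← hβ κ hκ, ← Equiv.prod_comp e, ← Equiv.prod_comp e]
    simp only [ClassA_pt]
    have h2 : ∀ y : Σ a, Fin (m a) × Fin (n a),
        (dgD n D y.1 y.2.1 y.2.2) ^ κ (e y) =
        D ⟨y.1, y.2.1⟩ ^ κ (e y) * (dgD n (1 : (Σ a, Fin (m a)) → ℂ) y.1 y.2.1 y.2.2) ^ κ (e y) := by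
      intro y
      rw [← mul_pow]
      congr 1
      simp only [dgD, Pi.one_apply, mul_ite, mul_one, mul_zero]
    simp only [h2, Finset.prod_mul_distrib]
    congr 1
    rw [Fintype.prod_sigma, Fintype.prod_sigma]
    refine Finset.prod_congr rfl fun a _ => ?_
    rw [Fintype.prod_prod_type]
    refine Finset.prod_congr rfl fun i _ => ?_
    dsimp only
    rw [Finset.prod_pow_eq_pow_sum]
    rfl
  rw [h1]
  ring

theorem inv_identity (e : (Σ a, Fin (m a) × Fin (n a)) ≃ Fin N) (hmn : ∀ a, m a ≤ n a)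
    (f : MvPolynomial (Fin N) ℂ) (β : (Σ a, Fin (m a)) → ℕ)
    (hβ : ∀ κ ∈ f.support, rowwt e κ = β) (hr : RowInv e f) (hc : ColInv e f) :
    f * ∏ c, crnPred hmn (XM e) c ^ β c =
      C (eval (pt e (dgD n 1)) f) * ∏ c, crn hmn (XM e) c ^ β c := by
  have hev : ∀ (M : ∀ a, Matrix (Fin (m a)) (Fin (n a)) ℂ) (c : Σ a, Fin (m a)),
      eval (pt e M) (crn hmn (XM e) c) = crn hmn M c := fun M c => aeval_crn e hmn M c
  have hevp : ∀ (M : ∀ a, Matrix (Fin (m a)) (Fin (n a)) ℂ) (c : Σ a, Fin (m a)),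
      eval (pt e M) (crnPred hmn (XM e) c) = crnPred hmn M c :=
    fun M c => ClassA_aeval_pred e hmn M c
  have hQ : (∏ c, crn hmn (XM e) c : MvPolynomial (Fin N) ℂ) ≠ 0 := by
    intro h0
    have h1 := congrArg (eval (pt e (dgD n 1))) h0
    rw [map_prod, map_zero] at h1
    have h2 : ∀ c : Σ a, Fin (m a), crn hmn (dgD n (1 : (Σ a, Fin (m a)) → ℂ)) c = 1 := by
      intro c
      unfold crn
      have h3 : ((dgD n (1 : (Σ a, Fin (m a)) → ℂ) c.1).submatrix
          (Fin.castLE (by omega) : Fin ((c.2 : ℕ) + 1) → Fin (m c.1))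
          (Fin.castLE (by have := hmn c.1; omega) : Fin ((c.2 : ℕ) + 1) → Fin (n c.1))) = 1 := by
        ext i k
        simp only [Matrix.submatrix_apply, dgD, Matrix.one_apply, Fin.val_castLE, Pi.one_apply,
          Fin.ext_iff]
      rw [h3, Matrix.det_one]
    simp only [hev, h2, Finset.prod_const_one] at h1
    exact one_ne_zero h1
  apply mul_right_cancel₀ hQ
  apply MvPolynomial.funext
  intro x
  set M : ∀ a, Matrix (Fin (m a)) (Fin (n a)) ℂ := fun a i k => x (e ⟨a, (i, k)⟩) with hM
  have hx : x = pt e M := by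
    funext p
    obtain ⟨y, rfl⟩ := e.surjective p
    rw [ClassA_pt]
  rw [hx]
  simp only [map_mul, map_prod, map_pow, hev, hevp, eval_C]
  by_cases h0 : ∀ c, crn hmn M c ≠ 0
  · congr 1
    obtain ⟨D, h1, h2⟩ := ClassA_elim e hmn f hr hc M h0 Finset.univ
    have h3 : (fun a => if a ∈ (Finset.univ : Finset (Fin s)) then dgD n D a else M a) =
        dgD n D := by
      funext a
      simp
    rw [h3] at h1
    rw [h1, ClassA_diag e f β hβ D]
    have h4 : ∀ c, D c * crnPred hmn M c = crn hmn M c := by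
      intro c
      rw [ClassA_pred_eq]
      unfold crn
      rw [← h2 c.1 (Finset.mem_univ _) (c.2 : ℕ) c.2.2.le,
        ← h2 c.1 (Finset.mem_univ _) ((c.2 : ℕ) + 1) c.2.2, Fin.prod_univ_castSucc, mul_comm]
      rfl
    calc (∏ c, D c ^ β c) * eval (pt e (dgD n 1)) f * ∏ c, crnPred hmn M c ^ β c
        = eval (pt e (dgD n 1)) f * ∏ c, (D c * crnPred hmn M c) ^ β c := by
          simp only [mul_pow, Finset.prod_mul_distrib]
          ring
      _ = _ := by simp only [h4]
  · push Not at h0
    obtain ⟨c, hc0⟩ := h0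
    rw [Finset.prod_eq_zero (Finset.mem_univ c) hc0]
    simp

end MotMono
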