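import Pool.Agent.Lib.MP_4e5fcd_ag.Inv.ClassA

/-! # INV-ClassB: classification of the invariant weight vectors -/

open MvPolynomial

namespace MotMono

variable {s N : ℕ} {m n : Fin s → ℕ}

namespace ClassBAux

/-- entries of the test matrix -/
private noncomputable def zent (i p q : ℕ) : Polynomial ℂ :=
  if p = i then (if q = i then Polynomial.X else if q = i + 1 then 1 else 0)
  else if p = i + 1 then (if q = i then 1 else 0) else if p = q then 1 else 0

private theorem det_lt (i r : ℕ) (h : r < i) :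
    (Matrix.of fun p q : Fin (r + 1) => zent i p q).det = 1 := by
  have : (Matrix.of fun p q : Fin (r + 1) => zent i p q) = 1 := by
    ext1 p q
    have hp := p.2
    have hq := q.2
    simp only [Matrix.of_apply, zent, Matrix.one_apply, Fin.ext_iff]
    rw [if_neg (by omega), if_neg (by omega)]
  rw [this, Matrix.det_one]

private theorem det_eq (i : ℕ) :
    (Matrix.of fun p q : Fin (i + 1) => zent i p q).det = Polynomial.X := by
  have : (Matrix.of fun p q : Fin (i + 1) => zent i p q) =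
      Matrix.diagonal (fun p : Fin (i + 1) => if (p : ℕ) = i then (Polynomial.X : Polynomial ℂ) else 1) := by
    ext1 p q
    have hp := p.2
    have hq := q.2
    simp only [Matrix.of_apply, zent, Matrix.diagonal_apply, Fin.ext_iff]
    by_cases h1 : (p : ℕ) = i
    · rw [if_pos h1]
      by_cases h2 : (q : ℕ) = i
      · rw [if_pos h2, if_pos (by omega), if_pos h1]
      · rw [if_neg h2, if_neg (by omega), if_neg (by omega)]
    · rw [if_neg h1, if_neg (by omega)]
      by_cases h2 : (p : ℕ) = q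
      · rw [if_pos h2, if_pos h2, if_neg h1]
      · rw [if_neg h2, if_neg h2]
  rw [this, Matrix.det_diagonal, Fin.prod_univ_castSucc]
  simp only [Fin.val_last, if_true, Fin.val_castSucc]
  rw [Finset.prod_eq_one, one_mul]
  intro x _
  rw [if_neg (by have := x.2; omega)]

private theorem det_gt (i r : ℕ) (h : i < r) :
    (Matrix.of fun p q : Fin (r + 1) => zent i p q).det = -1 := by
  have hi : i < r + 1 := by omega
  have hi1 : i + 1 < r + 1 := by omega
  set a : Fin (r + 1) := ⟨i, hi⟩ with ha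
  set b : Fin (r + 1) := ⟨i + 1, hi1⟩ with hb
  have hab : a ≠ b := by simp [ha, hb, Fin.ext_iff]
  have h1 : (Matrix.of fun p q : Fin (r + 1) => zent i p q) =
      (Matrix.transvection b a (Polynomial.X : Polynomial ℂ)).submatrix (Equiv.swap a b) id := by
    ext1 p q
    simp only [Matrix.of_apply, Matrix.submatrix_apply, id, Matrix.transvection, Matrix.add_apply,
      Matrix.one_apply, Matrix.single_apply, zent]
    rcases eq_or_ne p a with hpa | hpa
    · subst hpa
      rw [Equiv.swap_apply_left]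
      rw [if_pos (by simp [ha])]
      rcases eq_or_ne q a with hqa | hqa
      · subst hqa
        simp [ha, hb]
      · rcases eq_or_ne q b with hqb | hqb
        · subst hqb
          simp [ha, hb]
        · have e1 : (q : ℕ) ≠ i := fun h => hqa (Fin.ext (by simpa [ha] using h))
          have e2 : (q : ℕ) ≠ i + 1 := fun h => hqb (Fin.ext (by simpa [hb] using h))
          rw [if_neg e1, if_neg e2, if_neg (Ne.symm hqb), if_neg (by rintro ⟨-, h⟩; exact hqa h.symm)]
          simp
    · have p1 : (p : ℕ) ≠ i := fun h => hpa (Fin.ext (by simpa [ha] using h))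
      rw [if_neg p1]
      rcases eq_or_ne p b with hpb | hpb
      · subst hpb
        rw [Equiv.swap_apply_right, if_pos (by simp [hb])]
        rcases eq_or_ne q a with hqa | hqa
        · subst hqa
          simp [ha, hb]
        · have e1 : (q : ℕ) ≠ i := fun h => hqa (Fin.ext (by simpa [ha] using h))
          rw [if_neg e1, if_neg (Ne.symm hqa), if_neg (by rintro ⟨h, -⟩; exact hab h.symm)]
          simp
      · have p2 : (p : ℕ) ≠ i + 1 := fun h => hpb (Fin.ext (by simpa [hb] using h))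
        have hne : ¬ (b = p ∧ a = q) := fun h => hpb h.1.symm
        rw [if_neg p2, Equiv.swap_apply_of_ne_of_ne hpa hpb, if_neg hne, add_zero]
        by_cases hpq : p = q
        · rw [if_pos hpq, if_pos (by rw [hpq])]
        · rw [if_neg hpq, if_neg (fun h => hpq (Fin.ext h))]
  rw [h1, Matrix.det_permute, Equiv.Perm.sign_swap hab, Matrix.det_transvection_of_ne _ _ hab.symm]
  simp

private theorem tele (b : ℕ → ℕ) (hb : ∀ i, b (i + 1) ≤ b i) (r M : ℕ) (hr : r ≤ M) :
    ∑ i ∈ Finset.Ico r M, (b i - b (i + 1)) = b r - b M := by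
  have hanti : Antitone b := antitone_nat_of_succ_le hb
  induction M, hr using Nat.le_induction with
  | base => simp
  | succ k hk ih =>
    rw [Finset.sum_Ico_succ_top hk, ih]
    have h1 := hanti hk
    have h2 := hb k
    omega

private theorem prod_shift {R : Type} [CommRing R] (g : ℕ → R) (b : ℕ → ℕ) (M : ℕ) (hM : b M = 0) :
    ∏ i ∈ Finset.range M, (if i = 0 then 1 else g (i - 1)) ^ b i =
      ∏ i ∈ Finset.range M, g i ^ b (i + 1) := by
  cases M with
  | zero => simp
  | succ k =>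
    rw [Finset.prod_range_succ', Finset.prod_range_succ, hM, pow_zero, mul_one]
    simp

private theorem split_prod {ι : Type} [Fintype ι] [DecidableEq ι] (x : ι → Polynomial ℂ) (β : ι → ℕ)
    (c0 : ι) (h0 : x c0 = Polynomial.X) (h : ∀ c, c ≠ c0 → IsUnit (x c)) :
    ∃ u : Polynomial ℂ, IsUnit u ∧ ∏ c, x c ^ β c = u * Polynomial.X ^ β c0 := by
  refine ⟨∏ c ∈ Finset.univ.erase c0, x c ^ β c, ?_, ?_⟩
  · apply Finset.prod_induction _ IsUnit (fun a b ha hb => ha.mul hb) isUnit_one
    intro c hc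
    exact (h c (Finset.ne_of_mem_erase hc)).pow _
  · rw [← h0, Finset.prod_erase_mul _ _ (Finset.mem_univ c0)]

end ClassBAux

open ClassBAux

private theorem crn_one {R : Type} [CommRing R] (hmn : ∀ a, m a ≤ n a) (c : Σ a, Fin (m a)) :
    crn hmn (dgD (R := R) n (1 : (Σ a, Fin (m a)) → R)) c = 1 := by
  unfold crn
  have : ((dgD (R := R) n (1 : (Σ a, Fin (m a)) → R) c.1).submatrix
      (Fin.castLE (by omega) : Fin ((c.2 : ℕ) + 1) → Fin (m c.1))
      (Fin.castLE (by have := hmn c.1; omega) : Fin ((c.2 : ℕ) + 1) → Fin (n c.1))) = 1 := by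
    ext1 p q
    simp only [Matrix.submatrix_apply, dgD, Fin.val_castLE, Matrix.one_apply, Pi.one_apply,
      Fin.ext_iff]
  rw [this, Matrix.det_one]

private theorem crn_ne (e : (Σ a, Fin (m a) × Fin (n a)) ≃ Fin N) (hmn : ∀ a, m a ≤ n a)
    (c : Σ a, Fin (m a)) : crn hmn (XM e) c ≠ 0 := by
  intro h
  have h1 := aeval_crn e hmn (dgD (R := ℂ) n 1) c
  rw [h, map_zero, crn_one] at h1
  exact zero_ne_one h1

private theorem crnPred_ne (e : (Σ a, Fin (m a) × Fin (n a)) ≃ Fin N) (hmn : ∀ a, m a ≤ n a)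
    (c : Σ a, Fin (m a)) : crnPred hmn (XM e) c ≠ 0 := by
  unfold crnPred
  split_ifs with h
  · exact one_ne_zero
  · exact crn_ne e hmn _

private theorem aeval_crnPred {R : Type} [CommRing R] [Algebra ℂ R]
    (e : (Σ a, Fin (m a) × Fin (n a)) ≃ Fin N) (hmn : ∀ a, m a ≤ n a)
    (Y : ∀ a, Matrix (Fin (m a)) (Fin (n a)) R) (c : Σ a, Fin (m a)) :
    aeval (pt e Y) (crnPred hmn (XM e) c) = crnPred hmn Y c := by
  unfold crnPred
  split_ifs with h
  · rw [map_one]
  · exact aeval_crn e hmn Y _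

/-- the test point -/
private noncomputable def Yt (n : Fin s → ℕ) (a : Fin s) (i : ℕ) (a' : Fin s) :
    Matrix (Fin (m a')) (Fin (n a')) (Polynomial ℂ) :=
  if a' = a then Matrix.of fun p q => zent i p q else dgD n 1 a'

private theorem crn_Yt_ne (hmn : ∀ a, m a ≤ n a) (a : Fin s) (i : ℕ) (c : Σ a, Fin (m a))
    (h : c.1 ≠ a) : crn hmn (Yt n a i) c = 1 := by
  rw [← crn_one (R := Polynomial ℂ) hmn c]
  unfold crn Yt
  rw [if_neg h]

private theorem crn_Yt_eq (hmn : ∀ a, m a ≤ n a) (a : Fin s) (i : ℕ) (r : Fin (m a)) :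
    crn hmn (Yt n a i) ⟨a, r⟩ = (Matrix.of fun p q : Fin ((r : ℕ) + 1) => zent i p q).det := by
  unfold crn Yt
  rw [if_pos rfl]
  rfl

private theorem crn_Yt_unit (hmn : ∀ a, m a ≤ n a) (a : Fin s) (i : ℕ) (c : Σ a, Fin (m a))
    (h : ¬ (c.1 = a ∧ (c.2 : ℕ) = i)) : IsUnit (crn hmn (Yt n a i) c) := by
  rcases c with ⟨a', r⟩
  by_cases ha : a' = a
  · subst ha
    rw [crn_Yt_eq]
    have hr : (r : ℕ) ≠ i := fun h' => h ⟨rfl, h'⟩
    rcases lt_or_gt_of_ne hr with h1 | h1
    · rw [det_lt _ _ h1]; exact isUnit_one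
    · rw [det_gt _ _ h1]; exact isUnit_one.neg
  · rw [crn_Yt_ne hmn a i _ ha]; exact isUnit_one

private theorem beta_anti (e : (Σ a, Fin (m a) × Fin (n a)) ≃ Fin N) (hmn : ∀ a, m a ≤ n a)
    (f : MvPolynomial (Fin N) ℂ) (β : (Σ a, Fin (m a)) → ℕ) (c₀ : ℂ) (hc₀ : c₀ ≠ 0)
    (hid : f * ∏ c, crnPred hmn (XM e) c ^ β c = C c₀ * ∏ c, crn hmn (XM e) c ^ β c)
    (a : Fin s) (i : ℕ) (hi : i + 1 < m a) :
    β ⟨a, ⟨i + 1, hi⟩⟩ ≤ β ⟨a, ⟨i, by omega⟩⟩ := by
  have h1 := congrArg (aeval (pt e (Yt n a i))) hid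
  rw [map_mul, map_mul, map_prod, map_prod] at h1
  simp only [map_pow, aeval_crnPred, aeval_crn, MvPolynomial.algHom_C] at h1
  obtain ⟨u, hu, hu'⟩ := split_prod (fun c => crnPred hmn (Yt n a i) c) β ⟨a, ⟨i + 1, hi⟩⟩
    (by
      unfold crnPred
      rw [dif_neg (by simp)]
      rw [crn_Yt_eq]
      simpa using det_eq i)
    (by
      intro c hc
      unfold crnPred
      split_ifs with h0
      · exact isUnit_one
      · apply crn_Yt_unit
        rintro ⟨h2, h3⟩
        apply hc
        rcases c with ⟨a', r⟩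
        simp only at h2
        subst h2
        simp only at h3 h0
        congr 1
        apply Fin.ext
        simp only
        omega)
  obtain ⟨v, hv, hv'⟩ := split_prod (fun c => crn hmn (Yt n a i) c) β ⟨a, ⟨i, by omega⟩⟩
    (by rw [crn_Yt_eq]; simpa using det_eq i)
    (by
      intro c hc
      apply crn_Yt_unit
      rintro ⟨h2, h3⟩
      apply hc
      rcases c with ⟨a', r⟩
      simp only at h2
      subst h2
      congr 1
      exact Fin.ext h3)
  rw [hu', hv'] at h1
  have hd : (Polynomial.X : Polynomial ℂ) ^ β ⟨a, ⟨i + 1, hi⟩⟩ ∣ Polynomial.X ^ β ⟨a, ⟨i, by omega⟩⟩ := by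
    have hcu : IsUnit ((algebraMap ℂ (Polynomial ℂ)) c₀ * v) := by
      refine IsUnit.mul ?_ hv
      exact (Polynomial.isUnit_C.2 (isUnit_iff_ne_zero.2 hc₀))
    have h2 : (Polynomial.X : Polynomial ℂ) ^ β ⟨a, ⟨i + 1, hi⟩⟩ ∣
        ((algebraMap ℂ (Polynomial ℂ)) c₀ * v) * Polynomial.X ^ β ⟨a, ⟨i, by omega⟩⟩ := by
      rw [mul_assoc, ← h1, ← mul_assoc]
      exact dvd_mul_left _ _
    exact (hcu.dvd_mul_left).1 h2
  exact (pow_dvd_pow_iff Polynomial.X_ne_zero Polynomial.not_isUnit_X).1 hd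

theorem classify (e : (Σ a, Fin (m a) × Fin (n a)) ≃ Fin N) (hmn : ∀ a, m a ≤ n a)
    (f : MvPolynomial (Fin N) ℂ) (hf : f ≠ 0) (β : (Σ a, Fin (m a)) → ℕ)
    (hβ : ∀ κ ∈ f.support, rowwt e κ = β) (hr : RowInv e f) (hc : ColInv e f) :
    ∃ (w : (Σ a, Fin (m a)) → ℕ) (c : ℂ), c ≠ 0 ∧ f = C c * dPoly e hmn w ∧ β = wtw w := by
  have hid := inv_identity e hmn f β hβ hr hc
  set c₀ := eval (pt e (dgD n 1)) f with hc₀
  have hP : ∏ c, crnPred hmn (XM e) c ^ β c ≠ 0 :=
    Finset.prod_ne_zero_iff.2 fun c _ => pow_ne_zero _ (crnPred_ne e hmn c)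
  have hc0 : c₀ ≠ 0 := by
    intro h0
    rw [h0, C_0, zero_mul] at hid
    exact mul_ne_zero hf hP hid
  have hanti := beta_anti e hmn f β c₀ hc0 hid
  -- the function b
  set b : Fin s → ℕ → ℕ := fun a i => if h : i < m a then β ⟨a, ⟨i, h⟩⟩ else 0 with hb
  have hbβ : ∀ a (i : Fin (m a)), b a i = β ⟨a, i⟩ := fun a i => by simp [hb]
  have hbM : ∀ a, b a (m a) = 0 := fun a => by simp [hb]
  have hbanti : ∀ a i, b a (i + 1) ≤ b a i := by
    intro a i
    by_cases h : i + 1 < m a
    · have := hanti a i h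
      simp only [hb]
      rw [dif_pos h, dif_pos (by omega)]
      exact this
    · simp only [hb]
      rw [dif_neg h]
      exact Nat.zero_le _
  refine ⟨fun c => b c.1 c.2 - b c.1 (c.2 + 1), c₀, hc0, ?_, ?_⟩
  · have key : ∏ c, crn hmn (XM e) c ^ β c =
        dPoly e hmn (fun c => b c.1 c.2 - b c.1 (c.2 + 1)) * ∏ c, crnPred hmn (XM e) c ^ β c := by
      have h2 : ∏ c, crnPred hmn (XM e) c ^ β c = ∏ c, crn hmn (XM e) c ^ b c.1 (c.2 + 1) := by
        rw [Fintype.prod_sigma, Fintype.prod_sigma]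
        refine Finset.prod_congr rfl fun a _ => ?_
        set g : ℕ → MvPolynomial (Fin N) ℂ := fun i => if h : i < m a then crn hmn (XM e) ⟨a, ⟨i, h⟩⟩ else 1
          with hg
        have h3 := prod_shift g (b a) (m a) (hbM a)
        rw [Finset.prod_range, Finset.prod_range] at h3
        have h4 : ∀ i : Fin (m a), crnPred hmn (XM e) ⟨a, i⟩ ^ β ⟨a, i⟩ =
            (if (i : ℕ) = 0 then 1 else g (i - 1)) ^ b a i := by
          intro i
          rw [hbβ]
          congr 1
          unfold crnPred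
          split_ifs with h5
          · rfl
          · simp only [hg]
            rw [dif_pos (by have := i.2; omega)]
        have h5 : ∀ i : Fin (m a), crn hmn (XM e) ⟨a, i⟩ ^ b a ((i : ℕ) + 1) = g i ^ b a (i + 1) := by
          intro i
          simp only [hg]
          rw [dif_pos i.2]
        simp only [h4, h5]
        exact h3
      rw [h2, dPoly, ← Finset.prod_mul_distrib]
      refine Finset.prod_congr rfl fun c _ => ?_
      rw [← pow_add, Nat.sub_add_cancel (hbanti _ _), hbβ]
    rw [key, ← mul_assoc] at hid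
    exact mul_right_cancel₀ hP hid
  · funext c
    rcases c with ⟨a, r⟩
    simp only [wtw]
    have h1 := tele (b a) (hbanti a) r (m a) r.2.le
    rw [hbM, Nat.sub_zero, hbβ] at h1
    rw [← h1]
    have h6 : ∑ i : Fin (m a), (if r ≤ i then b a i - b a ((i : ℕ) + 1) else 0) =
        ∑ i ∈ Finset.range (m a), (if (r : ℕ) ≤ i then b a i - b a (i + 1) else 0) := by
      rw [Finset.sum_range]
      refine Finset.sum_congr rfl fun i _ => ?_
      simp only [Fin.le_def]
    rw [h6, ← Finset.sum_filter]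
    congr 1
    ext i
    simp only [Finset.mem_Ico, Finset.mem_filter, Finset.mem_range]
    omega

end MotMono
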