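import Pool.Agent.Lib.MP_4e5fcd_ag.Inv.Coeff

/-! # INV-Comp: weight components

PROOF. Induction over a finite set `T` of indices `j` (`Finset.induction_on`): there is `f' ∈ I` with
`κ ∈ f'.support`, `∀ κ' ∈ f'.support, ∀ j ∈ T, ∑ p, κ' p * ω j p = ∑ p, κ p * ω j p`. Step: let
`f'` be given for `T`; put `P = ∑ κ' ∈ f'.support, monomial κ' (f'.coeff κ') * T ^ (∑ p, κ' p * ω j p)`
in `Polynomial (MvPolynomial (Fin N) ℂ)`. For `c ≠ 0` its value at `c` is
`aeval (fun p => C (c ^ ω j p) * X p) f' ∈ I`. So by `coeff_mem_of_eval_one` the coefficient `f''` of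
`T ^ (∑ p, κ p * ω j p)` lies in `I`; it is the sum of the terms of `f'` with this weight
(its coefficient at `κ'` is `f'.coeff κ'` if the weight of `κ'` is right and `0` otherwise), so it
has the property for `insert j T`. -/

open MvPolynomial

namespace MotMono

variable {N : ℕ}

private lemma aeval_scale (w : Fin N → ℕ) (f : MvPolynomial (Fin N) ℂ) (c : ℂ) :
    (aeval (fun p => C (c ^ w p) * X p) f : MvPolynomial (Fin N) ℂ) =
      ∑ κ' ∈ f.support, monomial κ' (f.coeff κ') * C (c ^ (∑ p, κ' p * w p)) := by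
  conv_lhs => rw [f.as_sum]
  rw [map_sum]
  refine Finset.sum_congr rfl fun κ' _ => ?_
  rw [aeval_monomial, MvPolynomial.algebraMap_eq, Finsupp.prod_fintype _ _ (fun i => pow_zero _)]
  rw [monomial_eq, Finsupp.prod_fintype _ _ (fun i => pow_zero _)]
  simp only [mul_pow, Finset.prod_mul_distrib]
  rw [← Finset.prod_pow_eq_pow_sum, map_prod, mul_assoc]
  congr 1
  rw [mul_comm]
  congr 1
  refine Finset.prod_congr rfl fun p _ => ?_
  rw [← map_pow, ← pow_mul, mul_comm]

theorem exists_weight_component {ι : Type} [Fintype ι] (ω : ι → Fin N → ℕ)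
    (I : Ideal (MvPolynomial (Fin N) ℂ))
    (hI : ∀ j, ∀ c : ℂ, c ≠ 0 → ∀ f ∈ I,
      (aeval (fun p => C (c ^ ω j p) * X p) f : MvPolynomial (Fin N) ℂ) ∈ I)
    (f : MvPolynomial (Fin N) ℂ) (hf : f ∈ I) (κ : Fin N →₀ ℕ) (hκ : κ ∈ f.support) :
    ∃ f' ∈ I, κ ∈ f'.support ∧ ∀ κ' ∈ f'.support, ∀ j,
      ∑ p, κ' p * ω j p = ∑ p, κ p * ω j p := by
  classical
  have main : ∀ T : Finset ι, ∃ f' ∈ I, κ ∈ f'.support ∧ ∀ κ' ∈ f'.support, ∀ j ∈ T,
      ∑ p, κ' p * ω j p = ∑ p, κ p * ω j p := by
    intro T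
    induction T using Finset.induction_on with
    | empty =>
      exact ⟨f, hf, hκ, fun κ' _ j hj => absurd hj (Finset.notMem_empty j)⟩
    | insert j₀ T _ ih =>
      obtain ⟨f', hf', hκ', hT⟩ := ih
      set P : Polynomial (MvPolynomial (Fin N) ℂ) :=
        ∑ κ' ∈ f'.support, Polynomial.monomial (∑ p, κ' p * ω j₀ p)
          (monomial κ' (f'.coeff κ')) with hP
      have hPI : ∀ k, P.coeff k ∈ I := by
        apply coeff_mem_of_eval_one
        intro c hc
        have h1 := hI j₀ c hc f' hf'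
        rw [aeval_scale] at h1
        rw [hP, Polynomial.eval_finsetSum]
        have e : ∀ κ' ∈ f'.support,
            Polynomial.eval (algebraMap ℂ (MvPolynomial (Fin N) ℂ) c)
              (Polynomial.monomial (∑ p, κ' p * ω j₀ p) (monomial κ' (f'.coeff κ'))) =
            monomial κ' (f'.coeff κ') * C (c ^ (∑ p, κ' p * ω j₀ p)) := by
          intro κ' _
          rw [Polynomial.eval_monomial, MvPolynomial.algebraMap_eq, ← map_pow]
        rw [Finset.sum_congr rfl e]
        exact h1
      set K := ∑ p, κ p * ω j₀ p with hK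
      have hcoef : P.coeff K = ∑ κ' ∈ f'.support.filter (fun κ' => ∑ p, κ' p * ω j₀ p = K),
          monomial κ' (f'.coeff κ') := by
        rw [hP, Polynomial.finsetSum_coeff, Finset.sum_filter]
        refine Finset.sum_congr rfl fun κ' _ => ?_
        rw [Polynomial.coeff_monomial]
      have hcc : ∀ κ', (P.coeff K).coeff κ' =
          if κ' ∈ f'.support ∧ ∑ p, κ' p * ω j₀ p = K then f'.coeff κ' else 0 := by
        intro κ'
        rw [hcoef, coeff_sum]
        simp only [coeff_monomial]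
        rw [Finset.sum_ite_eq']
        simp only [Finset.mem_filter]
      refine ⟨P.coeff K, hPI K, ?_, ?_⟩
      · rw [mem_support_iff, hcc, if_pos ⟨hκ', rfl⟩]
        exact mem_support_iff.mp hκ'
      · intro κ' hk j hj
        rw [mem_support_iff, hcc] at hk
        have hk' : κ' ∈ f'.support ∧ ∑ p, κ' p * ω j₀ p = K := by
          by_contra hcon
          rw [if_neg hcon] at hk
          exact hk rfl
        rcases Finset.mem_insert.mp hj with rfl | hj
        · exact hk'.2
        · exact hT κ' hk'.1 j hj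
  obtain ⟨f', h1, h2, h3⟩ := main Finset.univ
  exact ⟨f', h1, h2, fun κ' hk j => h3 κ' hk j (Finset.mem_univ j)⟩

end MotMono
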