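import Pool.Agent.Lib.MP_4e5fcd_ag.Inv.PolyF

/-! # INV-CornerA: the leading minors of `g M h` as functions of `g` and `h`

PROOFS. The corner of size `c.2 + 1` of `trM x M c.1` has the entries
`∑ j, ∑ k, C (x (inl ⟨c.1, (i, j)⟩)) * M c.1 j k * C (x (inr ⟨c.1, (k, l)⟩))`, `i, l ≤ c.2`: it involves only
the coordinates `inl ⟨c.1, (i, j)⟩`, `i ≤ c.2`, and `inr ⟨c.1, (k, l)⟩`, `l ≤ c.2`.
`polyFun_crn`: coefficients of sums and products of power series whose coefficients are polynomial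
functions of `x` are polynomial functions (prove this closure for power series depending on `x`:
`∀ l, PolyFun fun x => coeff l (F x)` is preserved by `+`, `*`, `∑`, `∏` (`PowerSeries.coeff_mul`)), and the
Leibniz formula `Matrix.det_apply`.
`crn_mix_of_ne`: the coordinates in `rowSet c` resp. `colSet c` do not occur.
`crn_mix_all`: only the coordinates in `allSet c` occur.
`crn_swap_row`: reindexing exchanges the rows `k` and `c.2` of the corner (both `≤ c.2`), so the
determinant changes its sign (`Matrix.det_permute'`, `Matrix.det_permute`, `Equiv.Perm.sign_swap`).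
`exists_select`: take `x (inl ⟨a, (i, j)⟩) = 1` if `a = c.1`, `i ≤ c.2` and `j = S i`, else `0`; similarly `T`. -/

open MvPolynomial

namespace MotMono

variable {s N : ℕ} {m n : Fin s → ℕ}

/-- the coordinates of the row `c.2` of `g` -/
def rowSet (n : Fin s → ℕ) (c : Σ a, Fin (m a)) : Set (GX m n) :=
  {v | ∃ j, v = Sum.inl ⟨c.1, (c.2, j)⟩}

/-- the coordinates of the column `c.2` of `h` -/
def colSet (n : Fin s → ℕ) (c : Σ a, Fin (m a)) : Set (GX m n) :=
  {v | ∃ j k : Fin (n c.1), (k : ℕ) = c.2 ∧ v = Sum.inr ⟨c.1, (j, k)⟩}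

/-- the coordinates on which the leading minor `c` depends -/
def allSet (n : Fin s → ℕ) (c : Σ a, Fin (m a)) : Set (GX m n) :=
  {v | (∃ i j, i ≤ c.2 ∧ v = Sum.inl ⟨c.1, (i, j)⟩) ∨
    ∃ j k : Fin (n c.1), (k : ℕ) ≤ c.2 ∧ v = Sum.inr ⟨c.1, (j, k)⟩}

/-! ### Power series whose coefficients are polynomial functions -/

private def PSF {σ : Type} (F : (σ → ℂ) → PowerSeries ℂ) : Prop :=
  ∀ l, PolyFun fun x => PowerSeries.coeff l (F x)

private theorem PSF.const {σ : Type} (p : PowerSeries ℂ) : PSF fun _ : σ → ℂ => p :=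
  fun l => PolyFun.const _

private theorem PSF.C_coord {σ : Type} (v : σ) :
    PSF fun x : σ → ℂ => (PowerSeries.C (x v) : PowerSeries ℂ) := by
  intro l
  simp only [PowerSeries.coeff_C]
  by_cases h : l = 0
  · simp only [h, if_true]
    exact PolyFun.coord v
  · simp only [h, if_false]
    exact PolyFun.const 0

private theorem PSF.mul {σ : Type} {F G : (σ → ℂ) → PowerSeries ℂ} (hF : PSF F) (hG : PSF G) :
    PSF fun x => F x * G x := by
  intro l
  simp only [PowerSeries.coeff_mul]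
  exact PolyFun.sum _ fun p _ => (hF p.1).mul (hG p.2)

private theorem PSF.sum {σ ι : Type} (T : Finset ι) {F : ι → (σ → ℂ) → PowerSeries ℂ}
    (hF : ∀ i ∈ T, PSF (F i)) : PSF fun x => ∑ i ∈ T, F i x := by
  intro l
  simp only [map_sum]
  exact PolyFun.sum _ fun i hi => hF i hi l

private theorem PSF.prod {σ ι : Type} (T : Finset ι) {F : ι → (σ → ℂ) → PowerSeries ℂ}
    (hF : ∀ i ∈ T, PSF (F i)) : PSF fun x => ∏ i ∈ T, F i x := by
  classical
  induction T using Finset.induction_on with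
  | empty =>
    simp only [Finset.prod_empty]
    exact PSF.const 1
  | insert a T ha ih =>
    simp only [Finset.prod_insert ha]
    exact (hF a (Finset.mem_insert_self _ _)).mul
      (ih fun i hi => hF i (Finset.mem_insert_of_mem hi))

private theorem CornerA_entry (M : ∀ a, Matrix (Fin (m a)) (Fin (n a)) (PowerSeries ℂ))
    (x : GX m n → ℂ) (a : Fin s) (i : Fin (m a)) (l : Fin (n a)) :
    trM x M a i l = ∑ k, (∑ j, PowerSeries.C (x (Sum.inl ⟨a, (i, j)⟩)) * M a j k) *
      PowerSeries.C (x (Sum.inr ⟨a, (k, l)⟩)) := by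
  unfold trM
  rw [Matrix.mul_apply]
  simp only [Matrix.mul_apply, Matrix.of_apply]

theorem polyFun_crn (hmn : ∀ a, m a ≤ n a)
    (M : ∀ a, Matrix (Fin (m a)) (Fin (n a)) (PowerSeries ℂ)) (c : Σ a, Fin (m a)) (l : ℕ) :
    PolyFun fun x : GX m n → ℂ => PowerSeries.coeff l (crn hmn (trM x M) c) := by
  have h : PSF fun x : GX m n → ℂ => crn hmn (trM x M) c := by
    unfold crn
    simp only [Matrix.det_apply', Matrix.submatrix_apply, CornerA_entry]
    refine PSF.sum _ fun τ _ => (PSF.const _).mul (PSF.prod _ fun i _ => ?_)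
    exact PSF.sum _ fun k _ => (PSF.sum _ fun j _ => (PSF.C_coord _).mul (PSF.const _)).mul
      (PSF.C_coord _)
  exact h l

private theorem CornerA_congr (hmn : ∀ a, m a ≤ n a)
    (M : ∀ a, Matrix (Fin (m a)) (Fin (n a)) (PowerSeries ℂ)) (c : Σ a, Fin (m a))
    (x x' : GX m n → ℂ)
    (h1 : ∀ i j : Fin (m c.1), (i : ℕ) ≤ c.2 →
      x (Sum.inl ⟨c.1, (i, j)⟩) = x' (Sum.inl ⟨c.1, (i, j)⟩))
    (h2 : ∀ j k : Fin (n c.1), (k : ℕ) ≤ c.2 →
      x (Sum.inr ⟨c.1, (j, k)⟩) = x' (Sum.inr ⟨c.1, (j, k)⟩)) :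
    crn hmn (trM x M) c = crn hmn (trM x' M) c := by
  unfold crn
  have h : ((trM x M c.1).submatrix
      (Fin.castLE (by omega) : Fin ((c.2 : ℕ) + 1) → Fin (m c.1))
      (Fin.castLE (by have := hmn c.1; omega) : Fin ((c.2 : ℕ) + 1) → Fin (n c.1))) =
      ((trM x' M c.1).submatrix
      (Fin.castLE (by omega) : Fin ((c.2 : ℕ) + 1) → Fin (m c.1))
      (Fin.castLE (by have := hmn c.1; omega) : Fin ((c.2 : ℕ) + 1) → Fin (n c.1))) := by
    ext1 i l
    have hi : ((Fin.castLE (by omega) i : Fin (m c.1)) : ℕ) ≤ c.2 := by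
      rw [Fin.val_castLE]; omega
    have hl : ((Fin.castLE (by have := hmn c.1; omega) l : Fin (n c.1)) : ℕ) ≤ c.2 := by
      rw [Fin.val_castLE]; omega
    rw [Matrix.submatrix_apply, Matrix.submatrix_apply, CornerA_entry, CornerA_entry]
    refine Finset.sum_congr rfl fun k _ => ?_
    rw [h2 k _ hl]
    refine congrArg (fun z => z * _) ?_
    refine Finset.sum_congr rfl fun j _ => ?_
    rw [h1 _ j hi]
  rw [h]

theorem crn_mix_of_ne (hmn : ∀ a, m a ≤ n a)
    (M : ∀ a, Matrix (Fin (m a)) (Fin (n a)) (PowerSeries ℂ)) (c c' : Σ a, Fin (m a))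
    (hne : c' ≠ c) (hle : (c'.2 : ℕ) ≤ c.2) (x x' : GX m n → ℂ) :
    crn hmn (trM (mix (rowSet n c) x x') M) c' = crn hmn (trM x M) c' ∧
      crn hmn (trM (mix (colSet n c) x x') M) c' = crn hmn (trM x M) c' := by
  have key : ∀ (h1 : c'.1 = c.1), (c'.2 : ℕ) ≠ c.2 := by
    intro h1 h2
    apply hne
    obtain ⟨a, i⟩ := c
    obtain ⟨a', i'⟩ := c'
    dsimp only at h1
    subst h1
    dsimp only at h2
    rw [Fin.ext h2]
  constructor
  · apply CornerA_congr
    · intro i j hi
      unfold mix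
      rw [if_neg]
      rintro ⟨j', hj'⟩
      have h3 := Sum.inl_injective hj'
      obtain ⟨h4, h5⟩ := Sigma.mk.inj_iff.1 h3
      refine key h4 ?_
      have h6 : (i : ℕ) = c.2 := by
        obtain ⟨a, i0⟩ := c
        obtain ⟨a', i'⟩ := c'
        dsimp only at h4 h5 ⊢
        subst h4
        have := eq_of_heq h5
        rw [Prod.mk.injEq] at this
        rw [this.1]
      omega
    · intro j k hk
      unfold mix
      rw [if_neg]
      rintro ⟨j', hj'⟩
      simp at hj'
  · apply CornerA_congr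
    · intro i j hi
      unfold mix
      rw [if_neg]
      rintro ⟨j', k', hk', hj'⟩
      simp at hj'
    · intro j k hk
      unfold mix
      rw [if_neg]
      rintro ⟨j', k', hk', hj'⟩
      have h3 := Sum.inr_injective hj'
      obtain ⟨h4, h5⟩ := Sigma.mk.inj_iff.1 h3
      refine key h4 ?_
      have h6 : (k : ℕ) = c.2 := by
        obtain ⟨a, i0⟩ := c
        obtain ⟨a', i'⟩ := c'
        dsimp only at h4 h5 ⊢
        subst h4
        have := eq_of_heq h5
        rw [Prod.mk.injEq] at this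
        rw [this.2]
        exact hk'
      omega

theorem crn_mix_all (hmn : ∀ a, m a ≤ n a)
    (M : ∀ a, Matrix (Fin (m a)) (Fin (n a)) (PowerSeries ℂ)) (c : Σ a, Fin (m a))
    (x x' : GX m n → ℂ) :
    crn hmn (trM (mix (allSet n c) x x') M) c = crn hmn (trM x' M) c := by
  apply CornerA_congr
  · intro i j hi
    unfold mix
    rw [if_pos]
    exact Or.inl ⟨i, j, hi, rfl⟩
  · intro j k hk
    unfold mix
    rw [if_pos]
    exact Or.inr ⟨j, k, hk, rfl⟩

theorem exists_select (hmn : ∀ a, m a ≤ n a) (c : Σ a, Fin (m a))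
    (S : Fin ((c.2 : ℕ) + 1) → Fin (m c.1)) (T : Fin ((c.2 : ℕ) + 1) → Fin (n c.1)) :
    ∃ x : GX m n → ℂ, ∀ M : ∀ a, Matrix (Fin (m a)) (Fin (n a)) (PowerSeries ℂ),
      crn hmn (trM x M) c = ((M c.1).submatrix S T).det := by
  classical
  obtain ⟨G, hG⟩ : ∃ G : Matrix (Fin (m c.1)) (Fin (m c.1)) ℂ, ∀ i j, G i j =
    if h : (i : ℕ) < (c.2 : ℕ) + 1 then (if j = S ⟨i, h⟩ then 1 else 0) else 0 :=
    ⟨_, fun _ _ => rfl⟩
  obtain ⟨H, hH⟩ : ∃ H : Matrix (Fin (n c.1)) (Fin (n c.1)) ℂ, ∀ k l, H k l =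
    if h : (l : ℕ) < (c.2 : ℕ) + 1 then (if k = T ⟨l, h⟩ then 1 else 0) else 0 :=
    ⟨_, fun _ _ => rfl⟩
  refine ⟨ghPt (Function.update (fun _ => 0) c.1 G) (Function.update (fun _ => 0) c.1 H), ?_⟩
  intro M
  unfold crn
  congr 1
  ext1 i l
  rw [Matrix.submatrix_apply, Matrix.submatrix_apply, CornerA_entry]
  have h1 : ∀ j, ghPt (Function.update (fun _ => 0) c.1 G) (Function.update (fun _ => 0) c.1 H)
      (Sum.inl ⟨c.1, (Fin.castLE (by omega) i, j)⟩) = if j = S i then 1 else 0 := by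
    intro j
    simp only [ghPt, Sum.elim_inl, Function.update_self, hG, Fin.val_castLE]
    rw [dif_pos i.2]
  have h2 : ∀ k, ghPt (Function.update (fun _ => 0) c.1 G) (Function.update (fun _ => 0) c.1 H)
      (Sum.inr ⟨c.1, (k, Fin.castLE (by have := hmn c.1; omega) l)⟩) =
      if k = T l then 1 else 0 := by
    intro j
    simp only [ghPt, Sum.elim_inr, Function.update_self, hH, Fin.val_castLE]
    rw [dif_pos l.2]
  simp only [h1, h2]
  rw [Finset.sum_eq_single (T l)]
  · rw [Finset.sum_eq_single (S i)]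
    · simp
    · intro b _ hb
      simp [hb]
    · simp
  · intro b _ hb
    simp [hb]
  · simp

/-- the identity matrices -/
theorem trM_one (M : ∀ a, Matrix (Fin (m a)) (Fin (n a)) (PowerSeries ℂ)) :
    trM (ghPt (fun _ => 1) fun _ => 1) M = M := by
  funext a
  ext1 i l
  rw [CornerA_entry]
  simp only [ghPt, Sum.elim_inl, Sum.elim_inr]
  rw [Finset.sum_eq_single l]
  · rw [Finset.sum_eq_single i]
    · simp
    · intro b _ hb
      simp [Matrix.one_apply_ne (Ne.symm hb)]
    · simp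
  · intro b _ hb
    simp [Matrix.one_apply_ne hb]
  · simp

end MotMono
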