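import Pool.Agent.Lib.MP_4e5fcd_ag.Inv.PolyF

/-! # INV-InvQ: quotients of polynomial functions which do not depend on some of the coordinates

PROOFS.
`inv1_of_pow`: on pairs `(x, x')` (functions on `σ ⊕ σ`, use `PolyFun.comp` with the coordinate maps,
each coordinate of `mix T x x'` is a coordinate of `(x, x')`) put `a = P x * Q (mix T x x')`,
`b = P (mix T x x') * Q x`. From `h` at `x` and at `mix T x x'` and the invariance of `R`, `R'`:
`a ^ w * (R x * R' x) = b ^ w * (R x * R' x)`: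
`P x ^ w * R x = Q x ^ w * R' x`, `P (mix) ^ w * R x = Q (mix) ^ w * R' x`, multiply crosswise. As `R`, `R'` are
not identically zero, `a ^ w = b ^ w` for all `(x, x')` (`PolyFun.mul_eq_zero`). By
`∏ ζ ∈ nthRoots w 1, (a - ζ * b) = a ^ w - b ^ w` (over `ℂ`, e.g. `X_pow_sub_one_eq_prod` /
`IsPrimitiveRoot.pow_sub_pow_eq_prod_sub_mul`; `Complex.isPrimitiveRoot_exp`) one factor vanishes
identically (`PolyFun.mul_eq_zero`, `PolyFun.exists_prod_ne_zero`): `a = ζ b` for all `(x, x')`, some `ζ`. At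
`x' = x`: `mix T x x = x`, `P x * Q x = ζ * (P x * Q x)`, and `P * Q` is not identically zero, so `ζ = 1`.
`inv1_union`: with `y = mix T x x'`, `mix (T ∪ T') x x' = mix T' y x'`:
`P x * Q (mix (T ∪ T') x x') * P y = P x * (P (mix T' y x') * Q y) = (P y * Q x) * P (mix T' y x')`
so the claim holds after multiplication by `P y`, and `P y` (as a function of `(x, x')`) is not
identically zero; cancel by `PolyFun.mul_eq_zero`.
`inv1_perm`: `mix` commutes with permutations of the coordinates: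
`mix (π ⁻¹' T) (y ∘ π) (y' ∘ π) = (mix T y y') ∘ π`; apply the hypothesis to `y = x ∘ π.symm`,
`y' = x' ∘ π.symm` (the signs cancel).
`exists_const`: `P x * Q x' = P x' * Q x` for all `x`, `x'` since `P (mix T x x') = P x'`; take `x'` with
`Q x' ≠ 0`. -/

open MvPolynomial

namespace MotMono

variable {σ : Type}

private lemma mix_self (T : Set σ) (x : σ → ℂ) : mix T x x = x := by
  funext v
  unfold mix
  split_ifs <;> rfl

private lemma polyFun_inl {P : (σ → ℂ) → ℂ} (hP : PolyFun P) :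
    PolyFun fun z : σ ⊕ σ → ℂ => P (fun v => z (Sum.inl v)) :=
  hP.comp (g := fun (z : σ ⊕ σ → ℂ) v => z (Sum.inl v)) (fun v => PolyFun.coord (Sum.inl v))

private lemma polyFun_mix {P : (σ → ℂ) → ℂ} (hP : PolyFun P) (T : Set σ) :
    PolyFun fun z : σ ⊕ σ → ℂ => P (mix T (fun v => z (Sum.inl v)) (fun v => z (Sum.inr v))) := by
  refine hP.comp (g := fun (z : σ ⊕ σ → ℂ) =>
    mix T (fun v => z (Sum.inl v)) (fun v => z (Sum.inr v))) (fun v => ?_)
  unfold mix
  by_cases hv : v ∈ T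
  · simp only [hv, if_true]
    exact PolyFun.coord (Sum.inr v)
  · simp only [hv, if_false]
    exact PolyFun.coord (Sum.inl v)

theorem inv1_of_pow {P Q R R' : (σ → ℂ) → ℂ} (hP : PolyFun P) (hQ : PolyFun Q) (hR : PolyFun R)
    (hR' : PolyFun R') (hP0 : ∃ x, P x ≠ 0) (hQ0 : ∃ x, Q x ≠ 0) (hR0 : ∃ x, R x ≠ 0)
    (hR0' : ∃ x, R' x ≠ 0) (T : Set σ) (hRT : ∀ x x', R (mix T x x') = R x)
    (hRT' : ∀ x x', R' (mix T x x') = R' x) (w : ℕ) (hw : 0 < w)
    (h : ∀ x, P x ^ w * R x = Q x ^ w * R' x) : Inv1 P Q T := by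
  classical
  set a : (σ ⊕ σ → ℂ) → ℂ := fun z =>
    P (fun v => z (Sum.inl v)) * Q (mix T (fun v => z (Sum.inl v)) (fun v => z (Sum.inr v)))
    with ha
  set b : (σ ⊕ σ → ℂ) → ℂ := fun z =>
    P (mix T (fun v => z (Sum.inl v)) (fun v => z (Sum.inr v))) * Q (fun v => z (Sum.inl v))
    with hb
  have hpa : PolyFun a := (polyFun_inl hP).mul (polyFun_mix hQ T)
  have hpb : PolyFun b := (polyFun_mix hP T).mul (polyFun_inl hQ)
  have hpR : PolyFun fun z : σ ⊕ σ → ℂ => R (fun v => z (Sum.inl v)) := polyFun_inl hR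
  have hpR' : PolyFun fun z : σ ⊕ σ → ℂ => R' (fun v => z (Sum.inl v)) := polyFun_inl hR'
  have key : ∀ z, (a z ^ w - b z ^ w) *
      (R (fun v => z (Sum.inl v)) * R' (fun v => z (Sum.inl v))) = 0 := by
    intro z
    have h1 := h (fun v => z (Sum.inl v))
    have h2 := h (mix T (fun v => z (Sum.inl v)) (fun v => z (Sum.inr v)))
    rw [hRT, hRT'] at h2
    simp only [ha, hb, mul_pow]
    linear_combination
      (Q (mix T (fun v => z (Sum.inl v)) (fun v => z (Sum.inr v))) ^ w *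
        R' (fun v => z (Sum.inl v))) * h1 -
      (Q (fun v => z (Sum.inl v)) ^ w * R' (fun v => z (Sum.inl v))) * h2
  have hab : ∀ z, a z ^ w - b z ^ w = 0 := by
    rcases PolyFun.mul_eq_zero ((hpa.pow w).sub (hpb.pow w)) (hpR.mul hpR') key with h1 | h1
    · exact h1
    · exfalso
      rcases PolyFun.mul_eq_zero hpR hpR' h1 with h2 | h2
      · obtain ⟨x, hx⟩ := hR0
        exact hx (h2 (Sum.elim x x))
      · obtain ⟨x, hx⟩ := hR0'
        exact hx (h2 (Sum.elim x x))
  have hprim := Complex.isPrimitiveRoot_exp w hw.ne'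
  have hζ : ∃ ζ : ℂ, ∀ z, a z - ζ * b z = 0 := by
    by_contra hcon
    push Not at hcon
    obtain ⟨z, hz⟩ := PolyFun.exists_prod_ne_zero (Polynomial.nthRootsFinset w (1 : ℂ))
      (F := fun ζ z => a z - ζ * b z)
      (fun ζ _ => hpa.sub ((PolyFun.const ζ).mul hpb)) (fun ζ _ => hcon ζ)
    apply hz
    rw [← hprim.pow_sub_pow_eq_prod_sub_mul (a z) (b z) hw]
    exact hab z
  obtain ⟨ζ, hζ⟩ := hζ
  have hζ1 : ζ = 1 := by
    by_contra hne
    have h1 : ∀ x, P x * Q x = 0 := by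
      intro x
      have := hζ (Sum.elim x x)
      simp only [ha, hb, Sum.elim_inl, Sum.elim_inr] at this
      rw [show mix T (fun v => x v) (fun v => x v) = x from mix_self T x] at this
      have h3 : (1 - ζ) * (P x * Q x) = 0 := by
        linear_combination this
      rcases mul_eq_zero.mp h3 with h4 | h4
      · exact absurd (sub_eq_zero.mp h4).symm hne
      · exact h4
    rcases PolyFun.mul_eq_zero hP hQ h1 with h2 | h2
    · obtain ⟨x, hx⟩ := hP0
      exact hx (h2 x)
    · obtain ⟨x, hx⟩ := hQ0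
      exact hx (h2 x)
  intro x x'
  have := hζ (Sum.elim x x')
  simp only [ha, hb, Sum.elim_inl, Sum.elim_inr] at this
  rw [hζ1, one_mul] at this
  exact sub_eq_zero.mp this

theorem inv1_union {P Q : (σ → ℂ) → ℂ} (hP : PolyFun P) (hQ : PolyFun Q) (hP0 : ∃ x, P x ≠ 0)
    (T T' : Set σ) (h : Inv1 P Q T) (h' : Inv1 P Q T') : Inv1 P Q (T ∪ T') := by
  classical
  have hmix : ∀ x x' : σ → ℂ, mix (T ∪ T') x x' = mix T' (mix T x x') x' := by
    intro x x'
    funext v
    unfold mix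
    by_cases h1 : v ∈ T <;> by_cases h2 : v ∈ T' <;> simp [h1, h2]
  have key : ∀ z : σ ⊕ σ → ℂ,
      (P (fun v => z (Sum.inl v)) *
        Q (mix (T ∪ T') (fun v => z (Sum.inl v)) (fun v => z (Sum.inr v))) -
        P (mix (T ∪ T') (fun v => z (Sum.inl v)) (fun v => z (Sum.inr v))) *
        Q (fun v => z (Sum.inl v))) *
        P (mix T (fun v => z (Sum.inl v)) (fun v => z (Sum.inr v))) = 0 := by
    intro z
    rw [hmix]
    have h1 := h (fun v => z (Sum.inl v)) (fun v => z (Sum.inr v))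
    have h2 := h' (mix T (fun v => z (Sum.inl v)) (fun v => z (Sum.inr v)))
      (fun v => z (Sum.inr v))
    linear_combination (P (fun v => z (Sum.inl v))) * h2 +
      P (mix T' (mix T (fun v => z (Sum.inl v)) (fun v => z (Sum.inr v)))
        (fun v => z (Sum.inr v))) * h1
  have hF := ((polyFun_inl hP).mul (polyFun_mix hQ (T ∪ T'))).sub
    ((polyFun_mix hP (T ∪ T')).mul (polyFun_inl hQ))
  rcases PolyFun.mul_eq_zero hF (polyFun_mix hP T) key with h1 | h1
  · intro x x'
    have := h1 (Sum.elim x x')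
    simp only [Sum.elim_inl, Sum.elim_inr] at this
    exact sub_eq_zero.mp this
  · exfalso
    obtain ⟨x, hx⟩ := hP0
    have := h1 (Sum.elim x x)
    simp only [Sum.elim_inl, Sum.elim_inr] at this
    rw [show mix T (fun v => x v) (fun v => x v) = x from mix_self T x] at this
    exact hx this

theorem inv1_perm {P Q : (σ → ℂ) → ℂ} (π : Equiv.Perm σ) (hP : ∀ x, P (x ∘ π) = -P x)
    (hQ : ∀ x, Q (x ∘ π) = -Q x) (T : Set σ) (h : Inv1 P Q T) : Inv1 P Q (π ⁻¹' T) := by
  classical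
  intro x x'
  have hx : x = (x ∘ π.symm) ∘ π := by
    funext v
    simp
  have hx' : x' = (x' ∘ π.symm) ∘ π := by
    funext v
    simp
  have hmix : mix (π ⁻¹' T) x x' = (mix T (x ∘ π.symm) (x' ∘ π.symm)) ∘ π := by
    funext v
    unfold mix
    simp only [Set.mem_preimage, Function.comp_apply, Equiv.symm_apply_apply]
  have h1 := h (x ∘ π.symm) (x' ∘ π.symm)
  have e1 : P x = -P (x ∘ π.symm) := by
    conv_lhs => rw [hx]
    exact hP _
  have e2 : Q x = -Q (x ∘ π.symm) := by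
    conv_lhs => rw [hx]
    exact hQ _
  rw [hmix, hP, hQ, e1, e2]
  linear_combination h1

theorem exists_const {P Q : (σ → ℂ) → ℂ} (hQ0 : ∃ x, Q x ≠ 0) (T : Set σ) (h : Inv1 P Q T)
    (hP : ∀ x x', P (mix T x x') = P x') (hQ : ∀ x x', Q (mix T x x') = Q x') :
    ∃ κ : ℂ, ∀ x, P x = κ * Q x := by
  obtain ⟨x', hx'⟩ := hQ0
  refine ⟨P x' / Q x', fun x => ?_⟩
  have h1 := h x x'
  rw [hP, hQ] at h1
  field_simp
  linear_combination h1

end MotMono
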