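import Pool.Agent.Lib.MP_4e5fcd_ag.Inv.CornerA
import Pool.Agent.Lib.MP_4e5fcd_ag.Inv.InvQ

/-! # INV-CornerB: a quotient of two leading minors which does not depend on the last row and column

PROOF. Let `P x = coeff l (crn hmn (trM x M) c)`, `Q x = coeff l' (crn hmn (trM x M') c)`.
(1) For `k < c.2` let `π` be the permutation of `GX m n` exchanging `inl ⟨c.1, (k, j)⟩` and
`inl ⟨c.1, (c.2, j)⟩` for all `j`. Then `crn hmn (trM (x ∘ π) M) c = - crn hmn (trM x M) c` (two rows of
the corner are exchanged: `Matrix.det_permute`/`Equiv.Perm.sign_swap`), so `Inv1 P Q (rowSet n c)` implies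
`Inv1 P Q (π ⁻¹' rowSet n c)` (`inv1_perm`), and `π ⁻¹' rowSet n c = rowSet n ⟨c.1, k⟩`. Similarly for columns.
(2) By `inv1_union` (finite unions, induction on a finset of row indices) `Inv1 P Q (allSet n c)`.
(3) `exists_const` with `T = allSet n c` (`crn_mix_all`). -/

open MvPolynomial

namespace MotMono

variable {s N : ℕ} {m n : Fin s → ℕ}

/-- permutation of the rows of the first matrices -/
private def cbRP (ρ : ∀ a, Equiv.Perm (Fin (m a))) : Equiv.Perm (GX m n) :=
  Equiv.sumCongr (Equiv.sigmaCongrRight fun a => Equiv.prodCongr (ρ a) (Equiv.refl _))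
    (Equiv.refl _)

/-- permutation of the columns of the second matrices -/
private def cbCP (ρ : ∀ a, Equiv.Perm (Fin (n a))) : Equiv.Perm (GX m n) :=
  Equiv.sumCongr (Equiv.refl _)
    (Equiv.sigmaCongrRight fun a => Equiv.prodCongr (Equiv.refl _) (ρ a))

private theorem cb_trM_row (ρ : ∀ a, Equiv.Perm (Fin (m a))) (x : GX m n → ℂ)
    (M : ∀ a, Matrix (Fin (m a)) (Fin (n a)) (PowerSeries ℂ)) (a : Fin s) :
    trM (x ∘ cbRP ρ) M a = (trM x M a).submatrix (ρ a) id := by
  unfold trM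
  ext1 i j
  simp only [Matrix.submatrix_apply, Matrix.mul_apply, Matrix.of_apply, id_eq]
  rfl

private theorem cb_trM_col (ρ : ∀ a, Equiv.Perm (Fin (n a))) (x : GX m n → ℂ)
    (M : ∀ a, Matrix (Fin (m a)) (Fin (n a)) (PowerSeries ℂ)) (a : Fin s) :
    trM (x ∘ cbCP ρ) M a = (trM x M a).submatrix id (ρ a) := by
  unfold trM
  ext1 i j
  simp only [Matrix.submatrix_apply, Matrix.mul_apply, Matrix.of_apply, id_eq]
  rfl

private theorem cb_crn_row (hmn : ∀ a, m a ≤ n a) (c : Σ a, Fin (m a)) (k : Fin (m c.1))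
    (hk : k < c.2) (x : GX m n → ℂ)
    (M : ∀ a, Matrix (Fin (m a)) (Fin (n a)) (PowerSeries ℂ)) :
    crn hmn (trM (x ∘ cbRP (Function.update (fun _ => 1) c.1 (Equiv.swap k c.2))) M) c =
      - crn hmn (trM x M) c := by
  unfold crn
  rw [cb_trM_row, Function.update_self, Matrix.submatrix_submatrix]
  have hle : (c.2 : ℕ) + 1 ≤ m c.1 := c.2.2
  have hinj : Function.Injective (Fin.castLE hle) := Fin.castLE_injective hle
  have hk' : (k : ℕ) < (c.2 : ℕ) + 1 := by
    have : (k : ℕ) < c.2 := hk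
    omega
  have e1 : (Equiv.swap k c.2 : Fin (m c.1) → Fin (m c.1)) ∘ (Fin.castLE hle) =
      Fin.castLE hle ∘ (Equiv.swap (⟨k, hk'⟩ : Fin ((c.2 : ℕ) + 1)) (Fin.last _)) := by
    funext i
    have h1 : Fin.castLE hle (⟨k, hk'⟩ : Fin ((c.2 : ℕ) + 1)) = k := by
      apply Fin.ext; rfl
    have h2 : Fin.castLE hle (Fin.last (c.2 : ℕ)) = c.2 := by
      apply Fin.ext; rfl
    have h3 := hinj.swap_apply (⟨k, hk'⟩ : Fin ((c.2 : ℕ) + 1)) (Fin.last _) i
    rw [h1, h2] at h3
    exact h3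
  rw [e1]
  have hne : (⟨k, hk'⟩ : Fin ((c.2 : ℕ) + 1)) ≠ Fin.last _ := by
    intro h
    have := congrArg Fin.val h
    simp only [Fin.val_last] at this
    have h2 : (k : ℕ) < c.2 := hk
    omega
  have e2 := Matrix.det_permute (Equiv.swap (⟨k, hk'⟩ : Fin ((c.2 : ℕ) + 1)) (Fin.last _))
    ((trM x M c.1).submatrix (Fin.castLE hle)
      (Fin.castLE (by have := hmn c.1; omega) : Fin ((c.2 : ℕ) + 1) → Fin (n c.1)))
  rw [Equiv.Perm.sign_swap hne, Matrix.submatrix_submatrix] at e2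
  simpa using e2

private theorem cb_crn_col (hmn : ∀ a, m a ≤ n a) (c : Σ a, Fin (m a)) (k kc : Fin (n c.1))
    (hkc : (kc : ℕ) = c.2) (hk : (k : ℕ) < c.2) (x : GX m n → ℂ)
    (M : ∀ a, Matrix (Fin (m a)) (Fin (n a)) (PowerSeries ℂ)) :
    crn hmn (trM (x ∘ cbCP (Function.update (fun _ => 1) c.1 (Equiv.swap k kc))) M) c =
      - crn hmn (trM x M) c := by
  unfold crn
  rw [cb_trM_col, Function.update_self, Matrix.submatrix_submatrix]
  have hle : (c.2 : ℕ) + 1 ≤ n c.1 := by
    have h1 := c.2.2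
    have h2 := hmn c.1
    omega
  have hinj : Function.Injective (Fin.castLE hle) := Fin.castLE_injective hle
  have hk' : (k : ℕ) < (c.2 : ℕ) + 1 := by omega
  have e1 : (Equiv.swap k kc : Fin (n c.1) → Fin (n c.1)) ∘ (Fin.castLE hle) =
      Fin.castLE hle ∘ (Equiv.swap (⟨k, hk'⟩ : Fin ((c.2 : ℕ) + 1)) (Fin.last _)) := by
    funext i
    have h1 : Fin.castLE hle (⟨k, hk'⟩ : Fin ((c.2 : ℕ) + 1)) = k := by
      apply Fin.ext; rfl
    have h2 : Fin.castLE hle (Fin.last (c.2 : ℕ)) = kc := by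
      apply Fin.ext
      simp [hkc]
    have h3 := hinj.swap_apply (⟨k, hk'⟩ : Fin ((c.2 : ℕ) + 1)) (Fin.last _) i
    rw [h1, h2] at h3
    exact h3
  rw [e1]
  have hne : (⟨k, hk'⟩ : Fin ((c.2 : ℕ) + 1)) ≠ Fin.last _ := by
    intro h
    have := congrArg Fin.val h
    simp only [Fin.val_last] at this
    omega
  have e2 := Matrix.det_permute' (Equiv.swap (⟨k, hk'⟩ : Fin ((c.2 : ℕ) + 1)) (Fin.last _))
    ((trM x M c.1).submatrix (Fin.castLE (by omega) : Fin ((c.2 : ℕ) + 1) → Fin (m c.1))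
      (Fin.castLE hle))
  rw [Equiv.Perm.sign_swap hne, Matrix.submatrix_submatrix] at e2
  simpa using e2

private theorem cb_inv1_empty {σ : Type} (P Q : (σ → ℂ) → ℂ) : Inv1 P Q ∅ := by
  intro x x'
  have : mix (∅ : Set σ) x x' = x := by
    funext v
    unfold mix
    simp
  rw [this]

private theorem cb_inv1_biUnion {σ ι : Type} {P Q : (σ → ℂ) → ℂ} (hP : PolyFun P)
    (hQ : PolyFun Q) (hP0 : ∃ x, P x ≠ 0) (A : Finset ι) (T : ι → Set σ)
    (h : ∀ i ∈ A, Inv1 P Q (T i)) : Inv1 P Q (⋃ i ∈ A, T i) := by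
  classical
  induction A using Finset.induction_on with
  | empty =>
    have : (⋃ i ∈ (∅ : Finset ι), T i) = ∅ := by simp
    rw [this]
    exact cb_inv1_empty P Q
  | insert a A ha ih =>
    rw [Finset.set_biUnion_insert]
    exact inv1_union hP hQ hP0 _ _ (h a (Finset.mem_insert_self a A))
      (ih fun i hi => h i (Finset.mem_insert_of_mem hi))

theorem exists_const_crn (hmn : ∀ a, m a ≤ n a)
    (M M' : ∀ a, Matrix (Fin (m a)) (Fin (n a)) (PowerSeries ℂ)) (c : Σ a, Fin (m a)) (l l' : ℕ)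
    (hP0 : ∃ x : GX m n → ℂ, PowerSeries.coeff l (crn hmn (trM x M) c) ≠ 0)
    (hQ0 : ∃ x : GX m n → ℂ, PowerSeries.coeff l' (crn hmn (trM x M') c) ≠ 0)
    (h1 : Inv1 (fun x : GX m n → ℂ => PowerSeries.coeff l (crn hmn (trM x M) c))
      (fun x => PowerSeries.coeff l' (crn hmn (trM x M') c)) (rowSet n c))
    (h2 : Inv1 (fun x : GX m n → ℂ => PowerSeries.coeff l (crn hmn (trM x M) c))
      (fun x => PowerSeries.coeff l' (crn hmn (trM x M') c)) (colSet n c)) :
    ∃ κ : ℂ, ∀ x : GX m n → ℂ, PowerSeries.coeff l (crn hmn (trM x M) c) =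
      κ * PowerSeries.coeff l' (crn hmn (trM x M') c) := by
  classical
  have hP := polyFun_crn hmn M c l
  have hQ := polyFun_crn hmn M' c l'
  -- rows
  have hrow : ∀ k ∈ (Finset.univ.filter fun k : Fin (m c.1) => k ≤ c.2),
      Inv1 (fun x : GX m n → ℂ => PowerSeries.coeff l (crn hmn (trM x M) c))
        (fun x => PowerSeries.coeff l' (crn hmn (trM x M') c))
        {v : GX m n | ∃ j, v = Sum.inl ⟨c.1, (k, j)⟩} := by
    intro k hk
    rw [Finset.mem_filter] at hk
    rcases eq_or_lt_of_le hk.2 with rfl | hlt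
    · exact h1
    · have h3 := inv1_perm (cbRP (m := m) (n := n)
        (Function.update (fun _ => 1) c.1 (Equiv.swap k c.2)))
        (fun x => by rw [cb_crn_row hmn c k hlt x M, map_neg])
        (fun x => by rw [cb_crn_row hmn c k hlt x M', map_neg]) (rowSet n c) h1
      have e : (cbRP (m := m) (n := n)
          (Function.update (fun _ => 1) c.1 (Equiv.swap k c.2))) ⁻¹' rowSet n c =
          {v : GX m n | ∃ j, v = Sum.inl ⟨c.1, (k, j)⟩} := by
        ext v
        rw [Set.mem_preimage]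
        constructor
        · rintro ⟨j, hj⟩
          refine ⟨j, ?_⟩
          rw [← (cbRP (m := m) (n := n)
            (Function.update (fun _ => 1) c.1 (Equiv.swap k c.2))).injective.eq_iff, hj]
          show _ = (Sum.inl ⟨c.1, ((Function.update (fun _ => 1) c.1 (Equiv.swap k c.2) :
            ∀ a, Equiv.Perm (Fin (m a))) c.1 k, j)⟩ : GX m n)
          rw [Function.update_self, Equiv.swap_apply_left]
        · rintro ⟨j, rfl⟩
          refine ⟨j, ?_⟩
          show (Sum.inl ⟨c.1, ((Function.update (fun _ => 1) c.1 (Equiv.swap k c.2) :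
            ∀ a, Equiv.Perm (Fin (m a))) c.1 k, j)⟩ : GX m n) = _
          rw [Function.update_self, Equiv.swap_apply_left]
      rw [e] at h3
      exact h3
  -- columns
  have hle : (c.2 : ℕ) + 1 ≤ n c.1 := by
    have h1 := c.2.2
    have h2 := hmn c.1
    omega
  have hcol : ∀ k ∈ (Finset.univ.filter fun k : Fin (n c.1) => (k : ℕ) ≤ c.2),
      Inv1 (fun x : GX m n → ℂ => PowerSeries.coeff l (crn hmn (trM x M) c))
        (fun x => PowerSeries.coeff l' (crn hmn (trM x M') c))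
        {v : GX m n | ∃ j, v = Sum.inr ⟨c.1, (j, k)⟩} := by
    intro k hk
    rw [Finset.mem_filter] at hk
    set kc : Fin (n c.1) := ⟨c.2, hle⟩ with hkc
    have ecol : colSet n c = {v : GX m n | ∃ j, v = Sum.inr ⟨c.1, (j, kc)⟩} := by
      ext v
      constructor
      · rintro ⟨j, k', hk', rfl⟩
        refine ⟨j, ?_⟩
        have : k' = kc := Fin.ext hk'
        rw [this]
      · rintro ⟨j, rfl⟩
        exact ⟨j, kc, rfl, rfl⟩
    rcases eq_or_lt_of_le hk.2 with heq | hlt
    · have : k = kc := Fin.ext heq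
      rw [this, ← ecol]
      exact h2
    · have h3 := inv1_perm (cbCP (m := m) (n := n)
        (Function.update (fun _ => 1) c.1 (Equiv.swap k kc)))
        (fun x => by rw [cb_crn_col hmn c k kc rfl hlt x M, map_neg])
        (fun x => by rw [cb_crn_col hmn c k kc rfl hlt x M', map_neg]) (colSet n c) h2
      have e : (cbCP (m := m) (n := n)
          (Function.update (fun _ => 1) c.1 (Equiv.swap k kc))) ⁻¹' colSet n c =
          {v : GX m n | ∃ j, v = Sum.inr ⟨c.1, (j, k)⟩} := by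
        rw [ecol]
        ext v
        rw [Set.mem_preimage]
        constructor
        · rintro ⟨j, hj⟩
          refine ⟨j, ?_⟩
          rw [← (cbCP (m := m) (n := n)
            (Function.update (fun _ => 1) c.1 (Equiv.swap k kc))).injective.eq_iff, hj]
          show _ = (Sum.inr ⟨c.1, (j, (Function.update (fun _ => 1) c.1 (Equiv.swap k kc) :
            ∀ a, Equiv.Perm (Fin (n a))) c.1 k)⟩ : GX m n)
          rw [Function.update_self, Equiv.swap_apply_left]
        · rintro ⟨j, rfl⟩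
          refine ⟨j, ?_⟩
          show (Sum.inr ⟨c.1, (j, (Function.update (fun _ => 1) c.1 (Equiv.swap k kc) :
            ∀ a, Equiv.Perm (Fin (n a))) c.1 k)⟩ : GX m n) = _
          rw [Function.update_self, Equiv.swap_apply_left]
      rw [e] at h3
      exact h3
  have h5 := inv1_union hP hQ hP0 _ _
    (cb_inv1_biUnion hP hQ hP0 _ (fun k => {v : GX m n | ∃ j, v = Sum.inl ⟨c.1, (k, j)⟩}) hrow)
    (cb_inv1_biUnion hP hQ hP0 _ (fun k => {v : GX m n | ∃ j, v = Sum.inr ⟨c.1, (j, k)⟩}) hcol)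
  have e : (⋃ k ∈ (Finset.univ.filter fun k : Fin (m c.1) => k ≤ c.2),
        {v : GX m n | ∃ j, v = Sum.inl ⟨c.1, (k, j)⟩}) ∪
      (⋃ k ∈ (Finset.univ.filter fun k : Fin (n c.1) => (k : ℕ) ≤ c.2),
        {v : GX m n | ∃ j, v = Sum.inr ⟨c.1, (j, k)⟩}) = allSet n c := by
    ext v
    unfold allSet
    simp only [Set.mem_union, Set.mem_iUnion, Finset.mem_filter, Finset.mem_univ, true_and,
      Set.mem_ofPred_eq, exists_prop]
    constructor
    · rintro (⟨k, hk, j, rfl⟩ | ⟨k, hk, j, rfl⟩)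
      · exact Or.inl ⟨k, j, hk, rfl⟩
      · exact Or.inr ⟨j, k, hk, rfl⟩
    · rintro (⟨k, j, hk, rfl⟩ | ⟨j, k, hk, rfl⟩)
      · exact Or.inl ⟨k, hk, j, rfl⟩
      · exact Or.inr ⟨k, hk, j, rfl⟩
  rw [e] at h5
  exact exists_const hQ0 (allSet n c) h5
    (fun x x' => by rw [crn_mix_all hmn M c x x'])
    (fun x x' => by rw [crn_mix_all hmn M' c x x'])

end MotMono
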