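import Pool.Agent.Lib.MP_4e5fcd_ag.Det.Defs

/-!
# Ideals stable under products of general linear groups: definitions

The affine space is a product of matrix spaces `∏ a, Mat (m a × n a)`, its coordinates are
numbered by an equivalence `e`.
-/

open MvPolynomial

namespace MotMono

variable {s N : ℕ} {m n : Fin s → ℕ}

/-- The substitution `x_a ↦ g_a x_a h_a` (`a = 1, …, s`) in the polynomial ring. -/
noncomputable def glSub (e : (Σ a, Fin (m a) × Fin (n a)) ≃ Fin N)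
    (g : ∀ a, Matrix (Fin (m a)) (Fin (m a)) ℂ) (h : ∀ a, Matrix (Fin (n a)) (Fin (n a)) ℂ) :
    MvPolynomial (Fin N) ℂ →ₐ[ℂ] MvPolynomial (Fin N) ℂ :=
  aeval fun x : Fin N => ∑ i, ∑ k,
    C (g (e.symm x).1 (e.symm x).2.1 i * h (e.symm x).1 k (e.symm x).2.2) *
      X (e ⟨(e.symm x).1, (i, k)⟩)

/-- The ideal is stable under all substitutions `x_a ↦ g_a x_a h_a` with invertible matrices
`g_a`, `h_a`. -/
def GLStable (e : (Σ a, Fin (m a) × Fin (n a)) ≃ Fin N)
    (I : Ideal (MvPolynomial (Fin N) ℂ)) : Prop :=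
  ∀ (g : ∀ a, Matrix (Fin (m a)) (Fin (m a)) ℂ) (h : ∀ a, Matrix (Fin (n a)) (Fin (n a)) ℂ),
    (∀ a, (g a).det ≠ 0) → (∀ a, (h a).det ≠ 0) → ∀ f ∈ I, glSub e g h f ∈ I

end MotMono
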