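import Pool.Agent.Lib.MP_4e5fcd_ag.Inv.Base

/-! # INV-LDU: elimination without pivoting -/

open MvPolynomial

namespace MotMono

namespace LDUaux

theorem transv_mul_apply {m n : ℕ} (i j : Fin m) (c : ℂ) (M : Matrix (Fin m) (Fin n) ℂ)
    (a : Fin m) (b : Fin n) :
    (Matrix.transvection i j c * M) a b = M a b + (if a = i then c * M j b else 0) := by
  rw [Matrix.transvection, Matrix.add_mul, Matrix.one_mul, Matrix.add_apply, Matrix.mul_apply]
  congr 1
  by_cases h : a = i
  · subst h
    rw [if_pos rfl, Finset.sum_eq_single j]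
    · simp
    · intro x _ hx
      rw [Matrix.single_apply, if_neg (fun h => hx h.2.symm), zero_mul]
    · simp
  · rw [if_neg h]
    apply Finset.sum_eq_zero
    intro x _
    rw [Matrix.single_apply, if_neg (fun h' => h h'.1.symm), zero_mul]

theorem mul_transv_apply {m n : ℕ} (j l : Fin n) (c : ℂ) (M : Matrix (Fin m) (Fin n) ℂ)
    (a : Fin m) (b : Fin n) :
    (M * Matrix.transvection j l c) a b = M a b + (if b = l then M a j * c else 0) := by
  rw [Matrix.transvection, Matrix.mul_add, Matrix.mul_one, Matrix.add_apply, Matrix.mul_apply]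
  congr 1
  by_cases h : b = l
  · subst h
    rw [if_pos rfl, Finset.sum_eq_single j]
    · simp
    · intro x _ hx
      rw [Matrix.single_apply, if_neg (fun h => hx h.1.symm), mul_zero]
    · simp
  · rw [if_neg h]
    apply Finset.sum_eq_zero
    intro x _
    rw [Matrix.single_apply, if_neg (fun h' => h h'.2.symm), mul_zero]

theorem minor_row {m n : ℕ} (hmn : m ≤ n) (M : Matrix (Fin m) (Fin n) ℂ) (i j : Fin m)
    (hji : j < i) (c : ℂ) (r : ℕ) (hr : r ≤ m) :
    ((Matrix.transvection i j c * M).submatrix (Fin.castLE hr) (Fin.castLE (hr.trans hmn))).det =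
      (M.submatrix (Fin.castLE hr) (Fin.castLE (hr.trans hmn))).det := by
  by_cases hi : (i : ℕ) < r
  · have hj : (j : ℕ) < r := lt_trans hji hi
    have h1 : (Matrix.transvection i j c * M).submatrix (Fin.castLE hr) (Fin.castLE (hr.trans hmn))
        = Matrix.transvection (⟨i, hi⟩ : Fin r) ⟨j, hj⟩ c *
          M.submatrix (Fin.castLE hr) (Fin.castLE (hr.trans hmn)) := by
      ext a b
      rw [transv_mul_apply, Matrix.submatrix_apply, transv_mul_apply, Matrix.submatrix_apply,
        Matrix.submatrix_apply]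
      congr 1
      have h2 : (Fin.castLE hr a = i) ↔ (a = ⟨i, hi⟩) := by
        rw [Fin.ext_iff, Fin.ext_iff]
        exact Iff.rfl
      simp only [h2]
      rfl
    rw [h1, Matrix.det_mul, Matrix.det_transvection_of_ne, one_mul]
    intro h
    exact absurd (Fin.ext_iff.mp h) (ne_of_gt hji)
  · congr 1
    ext a b
    rw [Matrix.submatrix_apply, transv_mul_apply, Matrix.submatrix_apply, if_neg, add_zero]
    intro h
    have h2 : (a : ℕ) = i := Fin.ext_iff.mp h
    have := a.2
    omega

theorem minor_col {m n : ℕ} (hmn : m ≤ n) (M : Matrix (Fin m) (Fin n) ℂ) (j l : Fin n)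
    (hjl : j < l) (c : ℂ) (r : ℕ) (hr : r ≤ m) :
    ((M * Matrix.transvection j l c).submatrix (Fin.castLE hr) (Fin.castLE (hr.trans hmn))).det =
      (M.submatrix (Fin.castLE hr) (Fin.castLE (hr.trans hmn))).det := by
  by_cases hi : (l : ℕ) < r
  · have hj : (j : ℕ) < r := lt_trans hjl hi
    have h1 : (M * Matrix.transvection j l c).submatrix (Fin.castLE hr) (Fin.castLE (hr.trans hmn))
        = M.submatrix (Fin.castLE hr) (Fin.castLE (hr.trans hmn)) *
          Matrix.transvection (⟨j, hj⟩ : Fin r) ⟨l, hi⟩ c := by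
      ext a b
      rw [mul_transv_apply, Matrix.submatrix_apply, mul_transv_apply, Matrix.submatrix_apply,
        Matrix.submatrix_apply]
      congr 1
      have h2 : (Fin.castLE (hr.trans hmn) b = l) ↔ (b = ⟨l, hi⟩) := by
        rw [Fin.ext_iff, Fin.ext_iff]
        exact Iff.rfl
      simp only [h2]
      rfl
    rw [h1, Matrix.det_mul, Matrix.det_transvection_of_ne, mul_one]
    intro h
    exact absurd (Fin.ext_iff.mp h) (ne_of_lt hjl)
  · congr 1
    ext a b
    rw [Matrix.submatrix_apply, mul_transv_apply, Matrix.submatrix_apply, if_neg, add_zero]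
    intro h
    have h2 : (b : ℕ) = l := Fin.ext_iff.mp h
    have := b.2
    omega

theorem rows_inv {m n : ℕ} {β : Type} (G : Matrix (Fin m) (Fin n) ℂ → β)
    (hrow : ∀ (M : Matrix (Fin m) (Fin n) ℂ) (j i : Fin m), j < i → ∀ c : ℂ,
      G (Matrix.transvection i j c * M) = G M)
    (M : Matrix (Fin m) (Fin n) ℂ) (s : Fin m) (v : Fin m → ℂ) (S : Finset (Fin m))
    (hS : ∀ i ∈ S, s < i) :
    G (fun i k => M i k + (if i ∈ S then v i * M s k else 0)) = G M := by
  classical
  induction S using Finset.induction_on with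
  | empty => simp
  | insert a S ha ih =>
    have h1 := ih (fun i hi => hS i (Finset.mem_insert_of_mem hi))
    have hsa : s < a := hS a (Finset.mem_insert_self _ _)
    rw [← h1, ← hrow (fun i k => M i k + (if i ∈ S then v i * M s k else 0)) s a hsa (v a)]
    apply congrArg G
    funext i k
    refine Eq.trans ?_ (transv_mul_apply a s (v a) _ i k).symm
    have hs : s ∉ S := fun h => lt_irrefl _ (hS s (Finset.mem_insert_of_mem h))
    show M i k + (if i ∈ insert a S then v i * M s k else 0) =
      (M i k + (if i ∈ S then v i * M s k else 0)) +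
        (if i = a then v a * (M s k + (if s ∈ S then v s * M s k else 0)) else 0)
    simp only [hs, if_false, add_zero]
    by_cases hi : i = a
    · subst hi
      simp [ha]
    · simp [hi]

theorem cols_inv {m n : ℕ} {β : Type} (G : Matrix (Fin m) (Fin n) ℂ → β)
    (hcol : ∀ (M : Matrix (Fin m) (Fin n) ℂ) (j l : Fin n), j < l → ∀ c : ℂ,
      G (M * Matrix.transvection j l c) = G M)
    (M : Matrix (Fin m) (Fin n) ℂ) (s : Fin n) (v : Fin n → ℂ) (S : Finset (Fin n))
    (hS : ∀ i ∈ S, s < i) :
    G (fun i k => M i k + (if k ∈ S then M i s * v k else 0)) = G M := by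
  classical
  induction S using Finset.induction_on with
  | empty => simp
  | insert a S ha ih =>
    have h1 := ih (fun i hi => hS i (Finset.mem_insert_of_mem hi))
    have hsa : s < a := hS a (Finset.mem_insert_self _ _)
    rw [← h1, ← hcol (fun i k => M i k + (if k ∈ S then M i s * v k else 0)) s a hsa (v a)]
    apply congrArg G
    funext i k
    refine Eq.trans ?_ (mul_transv_apply s a (v a) _ i k).symm
    have hs : s ∉ S := fun h => lt_irrefl _ (hS s (Finset.mem_insert_of_mem h))
    show M i k + (if k ∈ insert a S then M i s * v k else 0) =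
      (M i k + (if k ∈ S then M i s * v k else 0)) +
        (if k = a then (M i s + (if s ∈ S then M i s * v s else 0)) * v a else 0)
    simp only [hs, if_false, add_zero]
    by_cases hi : k = a
    · subst hi
      simp [ha]
    · simp [hi]

/-- the matrix is diagonal in its first `s` rows and columns -/
def DiagUpTo {m n : ℕ} (s : ℕ) (M : Matrix (Fin m) (Fin n) ℂ) : Prop :=
  ∀ (i : Fin m) (k : Fin n), ((i : ℕ) < s ∨ (k : ℕ) < s) → (i : ℕ) ≠ k → M i k = 0

theorem minor_of_diag {m n : ℕ} (hmn : m ≤ n) {s : ℕ} {M : Matrix (Fin m) (Fin n) ℂ}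
    (h : DiagUpTo s M) (r : ℕ) (hr : r ≤ m) (hrs : r ≤ s + 1) :
    (M.submatrix (Fin.castLE hr) (Fin.castLE (hr.trans hmn))).det =
      ∏ i : Fin r, M (Fin.castLE hr i) (Fin.castLE (hr.trans hmn) i) := by
  rw [← Matrix.det_diagonal]
  congr 1
  ext a b
  rw [Matrix.submatrix_apply, Matrix.diagonal_apply]
  by_cases hab : a = b
  · subst hab
    rw [if_pos rfl]
  · rw [if_neg hab]
    apply h
    · show (a : ℕ) < s ∨ (b : ℕ) < s
      have h1 := a.2
      have h2 := b.2
      have h3 : (a : ℕ) ≠ b := fun h => hab (Fin.ext h)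
      omega
    · show (a : ℕ) ≠ b
      exact fun h => hab (Fin.ext h)

theorem elim {m n : ℕ} (hmn : m ≤ n) {β : Type} (G : Matrix (Fin m) (Fin n) ℂ → β)
    (hrow : ∀ (M : Matrix (Fin m) (Fin n) ℂ) (j i : Fin m), j < i → ∀ c : ℂ,
      G (Matrix.transvection i j c * M) = G M)
    (hcol : ∀ (M : Matrix (Fin m) (Fin n) ℂ) (j l : Fin n), j < l → ∀ c : ℂ,
      G (M * Matrix.transvection j l c) = G M)
    (M : Matrix (Fin m) (Fin n) ℂ)
    (hpiv : ∀ (M' : Matrix (Fin m) (Fin n) ℂ), G M' = G M → ∀ s : ℕ, DiagUpTo s M' →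
      ∀ h : s < m, M' ⟨s, h⟩ ⟨s, lt_of_lt_of_le h hmn⟩ ≠ 0) :
    ∀ s ≤ m, ∃ M' : Matrix (Fin m) (Fin n) ℂ, G M' = G M ∧ DiagUpTo s M' := by
  classical
  intro s
  induction s with
  | zero => exact fun _ => ⟨M, rfl, fun i k h => absurd h (by omega)⟩
  | succ s ih =>
    intro hs
    obtain ⟨N, hGN, hN⟩ := ih (by omega)
    have hsm : s < m := hs
    have hp := hpiv N hGN s hN hsm
    set a : Fin m := ⟨s, hsm⟩ with ha
    set b : Fin n := ⟨s, lt_of_lt_of_le hsm hmn⟩ with hb
    set p := N a b with hpdef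
    -- rows
    have h1 := rows_inv G hrow N a (fun i => -(N i b / p)) (Finset.univ.filter (fun i => a < i))
      (fun i hi => (Finset.mem_filter.mp hi).2)
    set N1 : Matrix (Fin m) (Fin n) ℂ := fun i k => N i k +
      (if i ∈ Finset.univ.filter (fun i => a < i) then -(N i b / p) * N a k else 0) with hN1
    have h2 := cols_inv G hcol N1 b (fun k => -(N a k / p)) (Finset.univ.filter (fun k => b < k))
      (fun i hi => (Finset.mem_filter.mp hi).2)
    refine ⟨_, h2.trans (h1.trans hGN), ?_⟩
    intro i k hik hne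
    have e1 : ∀ i k, N1 i k = N i k + (if a < i then -(N i b / p) * N a k else 0) := by
      intro i k
      rw [hN1]
      simp
    show N1 i k + (if k ∈ Finset.univ.filter (fun k => b < k) then N1 i b * -(N a k / p) else 0) = 0
    simp only [Finset.mem_filter, Finset.mem_univ, true_and]
    have hN1b : a < i → N1 i b = 0 := by
      intro h
      rw [e1, if_pos h, ← hpdef]
      field_simp
      ring
    have hai : a < i ↔ s < (i : ℕ) := Iff.rfl
    have hbk : b < k ↔ s < (k : ℕ) := Iff.rfl
    -- cases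
    rcases lt_trichotomy (i : ℕ) s with hi | hi | hi
    · -- i < s : row unchanged and zero off the diagonal
      have hi' : ¬ a < i := by rw [hai]; omega
      have hib : N i b = 0 := hN i b (Or.inl hi) (by show (i : ℕ) ≠ s; omega)
      have hik0 : N i k = 0 := hN i k (Or.inl hi) hne
      rw [e1, if_neg hi', e1, if_neg hi', hib, hik0]
      simp
    · -- i = s
      have hia : i = a := Fin.ext hi
      subst hia
      have hi' : ¬ a < a := lt_irrefl _
      rw [e1, if_neg hi', e1, if_neg hi']
      by_cases hk : b < k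
      · rw [if_pos hk, ← hpdef]
        field_simp
        ring
      · rw [if_neg hk]
        have hks : (k : ℕ) < s := by
          rw [hbk] at hk
          have : (k : ℕ) ≠ s := fun h => hne (by rw [h])
          omega
        rw [hN a k (Or.inr hks) hne]
        simp
    · -- i > s
      have hi' : a < i := hai.mpr hi
      rw [hN1b hi', zero_mul, ite_self, add_zero]
      have hks : (k : ℕ) < s + 1 := by
        rcases hik with h | h
        · omega
        · exact h
      rcases Nat.lt_succ_iff_lt_or_eq.mp hks with hk | hk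
      · rw [e1, if_pos hi', hN i k (Or.inr hk) hne, hN a k (Or.inr hk) (by show s ≠ (k : ℕ); omega)]
        simp
      · have hkb : k = b := Fin.ext hk
        rw [hkb]
        exact hN1b hi'

end LDUaux

open LDUaux

theorem ldu (m n : ℕ) (hmn : m ≤ n) {α : Type} (F : Matrix (Fin m) (Fin n) ℂ → α)
    (hrow : ∀ (M : Matrix (Fin m) (Fin n) ℂ) (j i : Fin m), j < i → ∀ c : ℂ,
      F (Matrix.transvection i j c * M) = F M)
    (hcol : ∀ (M : Matrix (Fin m) (Fin n) ℂ) (j l : Fin n), j < l → ∀ c : ℂ,
      F (M * Matrix.transvection j l c) = F M)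
    (M : Matrix (Fin m) (Fin n) ℂ)
    (hM : ∀ (r : ℕ) (hr : r ≤ m),
      (M.submatrix (Fin.castLE hr) (Fin.castLE (hr.trans hmn))).det ≠ 0) :
    ∃ D : Fin m → ℂ, F M = F (fun i k => if (i : ℕ) = k then D i else 0) ∧
      ∀ (r : ℕ) (hr : r ≤ m), ∏ i : Fin r, D (Fin.castLE hr i) =
        (M.submatrix (Fin.castLE hr) (Fin.castLE (hr.trans hmn))).det := by
  classical
  obtain ⟨G, hG⟩ : ∃ G : Matrix (Fin m) (Fin n) ℂ → α × (∀ r : ℕ, r ≤ m → ℂ), ∀ M, G M =
      (F M, fun r hr => (M.submatrix (Fin.castLE hr) (Fin.castLE (hr.trans hmn))).det) :=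
    ⟨_, fun _ => rfl⟩
  have hGr : ∀ (M : Matrix (Fin m) (Fin n) ℂ) (j i : Fin m), j < i → ∀ c : ℂ,
      G (Matrix.transvection i j c * M) = G M := by
    intro M j i hji c
    rw [hG, hG, hrow M j i hji c]
    congr 1
    funext r hr
    exact minor_row hmn M i j hji c r hr
  have hGc : ∀ (M : Matrix (Fin m) (Fin n) ℂ) (j l : Fin n), j < l → ∀ c : ℂ,
      G (M * Matrix.transvection j l c) = G M := by
    intro M j l hjl c
    rw [hG, hG, hcol M j l hjl c]
    congr 1
    funext r hr
    exact minor_col hmn M j l hjl c r hr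
  have hminor : ∀ M' : Matrix (Fin m) (Fin n) ℂ, G M' = G M → ∀ (r : ℕ) (hr : r ≤ m),
      (M'.submatrix (Fin.castLE hr) (Fin.castLE (hr.trans hmn))).det =
        (M.submatrix (Fin.castLE hr) (Fin.castLE (hr.trans hmn))).det := by
    intro M' h r hr
    rw [hG, hG] at h
    exact congrFun (congrFun (congrArg Prod.snd h) r) hr
  obtain ⟨N, hGN, hN⟩ := elim hmn G hGr hGc M (by
    intro M' hM' s hs h hz
    have h' : s + 1 ≤ m := h
    have h1 := hminor M' hM' (s + 1) h'
    rw [minor_of_diag hmn hs (s + 1) h' le_rfl] at h1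
    apply hM (s + 1) h'
    rw [← h1, Fin.prod_univ_castSucc]
    have : M' (Fin.castLE h' (Fin.last s)) (Fin.castLE (h'.trans hmn) (Fin.last s)) = 0 := hz
    rw [this, mul_zero]) m le_rfl
  refine ⟨fun i => N i (Fin.castLE hmn i), ?_, ?_⟩
  · have h1 : F N = F M := by
      rw [hG, hG] at hGN
      exact congrArg Prod.fst hGN
    rw [← h1]
    congr 1
    funext i k
    by_cases hik : (i : ℕ) = k
    · rw [if_pos hik]
      congr 1
      exact Fin.ext hik.symm
    · rw [if_neg hik]
      exact hN i k (Or.inl i.2) hik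
  · intro r hr
    rw [← hminor N hGN r hr, minor_of_diag hmn hN r hr (by omega)]
    rfl

end MotMono
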