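import Pool.Agent.Lib.MP_4e5fcd_ag.Inv.InvQ

/-! # INV-Match: the factors of two equal products correspond

PROOF. Induction on `Cs.card`. If `Cs` is empty there is nothing to prove. Otherwise choose `c₀ ∈ Cs` with
`rk c₀` maximal (`Finset.exists_max_image`). Then every `c ∈ Cs.erase c₀` satisfies `rk c ≤ rk c₀`, so its
`P c`, `Q c` do not depend on `T c₀`, `T' c₀` (`hind`). By `inv1_of_pow` with
`R = ∏ c ∈ Cs.erase c₀, P c ^ w c`, `R' = κ * ∏ c ∈ Cs.erase c₀, Q c ^ w c` (not identically zero, by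
`PolyFun.exists_prod_ne_zero` and `κ ≠ 0`): `Inv1 (P c₀) (Q c₀) (T c₀)` and `Inv1 (P c₀) (Q c₀) (T' c₀)`. By `hconst`
`P c₀ = κ₀ * Q c₀`, `κ₀ ≠ 0`. Cancel `Q c₀ ^ w c₀` in the identity (`PolyFun.mul_eq_zero`):
`∏ c ∈ Cs.erase c₀, P c ^ w c = (κ / κ₀ ^ w c₀) * ∏ c ∈ Cs.erase c₀, Q c ^ w c` for all `x`; apply the
induction hypothesis. -/

open MvPolynomial

namespace MotMono

variable {σ ι : Type}

theorem matching [DecidableEq ι] (Cs : Finset ι) (w : ι → ℕ) (hw : ∀ c ∈ Cs, 0 < w c)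
    (P Q : ι → (σ → ℂ) → ℂ) (hP : ∀ c ∈ Cs, PolyFun (P c)) (hQ : ∀ c ∈ Cs, PolyFun (Q c))
    (hP0 : ∀ c ∈ Cs, ∃ x, P c x ≠ 0) (hQ0 : ∀ c ∈ Cs, ∃ x, Q c x ≠ 0) (rk : ι → ℕ)
    (T T' : ι → Set σ)
    (hind : ∀ c ∈ Cs, ∀ c' ∈ Cs, c' ≠ c → rk c' ≤ rk c → ∀ x x',
      P c' (mix (T c) x x') = P c' x ∧ Q c' (mix (T c) x x') = Q c' x ∧
      P c' (mix (T' c) x x') = P c' x ∧ Q c' (mix (T' c) x x') = Q c' x)
    (hconst : ∀ c ∈ Cs, Inv1 (P c) (Q c) (T c) → Inv1 (P c) (Q c) (T' c) →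
      ∃ κ : ℂ, ∀ x, P c x = κ * Q c x)
    (κ : ℂ) (hκ : κ ≠ 0) (h : ∀ x, ∏ c ∈ Cs, P c x ^ w c = κ * ∏ c ∈ Cs, Q c x ^ w c) :
    ∀ c ∈ Cs, ∃ κ : ℂ, κ ≠ 0 ∧ ∀ x, P c x = κ * Q c x := by
  classical
  induction hcard : Cs.card generalizing Cs κ with
  | zero =>
    intro c hc
    rw [Finset.card_eq_zero] at hcard
    rw [hcard] at hc
    exact absurd hc (Finset.notMem_empty c)
  | succ N ih =>
    have hne : Cs.Nonempty := by
      rw [← Finset.card_pos, hcard]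
      exact Nat.succ_pos N
    obtain ⟨c₀, hc₀, hmax⟩ := Finset.exists_max_image Cs rk hne
    have herase : ∀ c ∈ Cs.erase c₀, c ∈ Cs ∧ c ≠ c₀ := by
      intro c hc
      exact ⟨Finset.mem_of_mem_erase hc, Finset.ne_of_mem_erase hc⟩
    have hsplitP : ∀ x, ∏ c ∈ Cs, P c x ^ w c = P c₀ x ^ w c₀ * ∏ c ∈ Cs.erase c₀, P c x ^ w c :=
      fun x => (Finset.mul_prod_erase Cs (fun c => P c x ^ w c) hc₀).symm
    have hsplitQ : ∀ x, ∏ c ∈ Cs, Q c x ^ w c = Q c₀ x ^ w c₀ * ∏ c ∈ Cs.erase c₀, Q c x ^ w c :=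
      fun x => (Finset.mul_prod_erase Cs (fun c => Q c x ^ w c) hc₀).symm
    have hRP : PolyFun fun x => ∏ c ∈ Cs.erase c₀, P c x ^ w c :=
      PolyFun.prod (Cs.erase c₀) (F := fun c x => P c x ^ w c)
        (fun c hc => (hP c (herase c hc).1).pow (w c))
    have hRQ : PolyFun fun x => ∏ c ∈ Cs.erase c₀, Q c x ^ w c :=
      PolyFun.prod (Cs.erase c₀) (F := fun c x => Q c x ^ w c)
        (fun c hc => (hQ c (herase c hc).1).pow (w c))
    have hRP0 : ∃ x, ∏ c ∈ Cs.erase c₀, P c x ^ w c ≠ 0 := by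
      apply PolyFun.exists_prod_ne_zero (Cs.erase c₀) (F := fun c x => P c x ^ w c)
      · exact fun c hc => (hP c (herase c hc).1).pow (w c)
      · intro c hc
        obtain ⟨x, hx⟩ := hP0 c (herase c hc).1
        exact ⟨x, pow_ne_zero _ hx⟩
    have hRQ0 : ∃ x, ∏ c ∈ Cs.erase c₀, Q c x ^ w c ≠ 0 := by
      apply PolyFun.exists_prod_ne_zero (Cs.erase c₀) (F := fun c x => Q c x ^ w c)
      · exact fun c hc => (hQ c (herase c hc).1).pow (w c)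
      · intro c hc
        obtain ⟨x, hx⟩ := hQ0 c (herase c hc).1
        exact ⟨x, pow_ne_zero _ hx⟩
    have hR' : PolyFun fun x => κ * ∏ c ∈ Cs.erase c₀, Q c x ^ w c := (PolyFun.const κ).mul hRQ
    have hR0' : ∃ x, κ * ∏ c ∈ Cs.erase c₀, Q c x ^ w c ≠ 0 := by
      obtain ⟨x, hx⟩ := hRQ0
      exact ⟨x, mul_ne_zero hκ hx⟩
    have hid : ∀ x, P c₀ x ^ w c₀ * ∏ c ∈ Cs.erase c₀, P c x ^ w c =
        Q c₀ x ^ w c₀ * (κ * ∏ c ∈ Cs.erase c₀, Q c x ^ w c) := by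
      intro x
      have := h x
      rw [hsplitP, hsplitQ] at this
      rw [this]
      ring
    have hinv1 : Inv1 (P c₀) (Q c₀) (T c₀) := by
      refine inv1_of_pow (hP c₀ hc₀) (hQ c₀ hc₀) hRP hR' (hP0 c₀ hc₀) (hQ0 c₀ hc₀) hRP0 hR0'
        (T c₀) ?_ ?_ (w c₀) (hw c₀ hc₀) hid
      · intro x x'
        refine Finset.prod_congr rfl fun c hc => ?_
        rw [(hind c₀ hc₀ c (herase c hc).1 (herase c hc).2 (hmax c (herase c hc).1) x x').1]
      · intro x x'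
        congr 1
        refine Finset.prod_congr rfl fun c hc => ?_
        rw [(hind c₀ hc₀ c (herase c hc).1 (herase c hc).2 (hmax c (herase c hc).1) x x').2.1]
    have hinv2 : Inv1 (P c₀) (Q c₀) (T' c₀) := by
      refine inv1_of_pow (hP c₀ hc₀) (hQ c₀ hc₀) hRP hR' (hP0 c₀ hc₀) (hQ0 c₀ hc₀) hRP0 hR0'
        (T' c₀) ?_ ?_ (w c₀) (hw c₀ hc₀) hid
      · intro x x'
        refine Finset.prod_congr rfl fun c hc => ?_
        rw [(hind c₀ hc₀ c (herase c hc).1 (herase c hc).2 (hmax c (herase c hc).1) x x').2.2.1]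
      · intro x x'
        congr 1
        refine Finset.prod_congr rfl fun c hc => ?_
        rw [(hind c₀ hc₀ c (herase c hc).1 (herase c hc).2 (hmax c (herase c hc).1) x x').2.2.2]
    obtain ⟨κ₀, hκ₀⟩ := hconst c₀ hc₀ hinv1 hinv2
    have hκ₀0 : κ₀ ≠ 0 := by
      rintro rfl
      obtain ⟨x, hx⟩ := hP0 c₀ hc₀
      apply hx
      rw [hκ₀ x, zero_mul]
    have hcancel : ∀ x, Q c₀ x ^ w c₀ *
        (κ₀ ^ w c₀ * ∏ c ∈ Cs.erase c₀, P c x ^ w c - κ * ∏ c ∈ Cs.erase c₀, Q c x ^ w c) = 0 := by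
      intro x
      have h1 := hid x
      rw [hκ₀ x, mul_pow] at h1
      linear_combination h1
    have hid2 : ∀ x, κ₀ ^ w c₀ * ∏ c ∈ Cs.erase c₀, P c x ^ w c -
        κ * ∏ c ∈ Cs.erase c₀, Q c x ^ w c = 0 := by
      rcases PolyFun.mul_eq_zero ((hQ c₀ hc₀).pow (w c₀))
        (((PolyFun.const (κ₀ ^ w c₀)).mul hRP).sub hR') hcancel with h1 | h1
      · exfalso
        obtain ⟨x, hx⟩ := hQ0 c₀ hc₀
        exact pow_ne_zero _ hx (h1 x)
      · exact h1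
    have hpow : κ₀ ^ w c₀ ≠ 0 := pow_ne_zero _ hκ₀0
    have hrec := ih (Cs.erase c₀) (fun c hc => hw c (herase c hc).1)
      (fun c hc => hP c (herase c hc).1) (fun c hc => hQ c (herase c hc).1)
      (fun c hc => hP0 c (herase c hc).1) (fun c hc => hQ0 c (herase c hc).1)
      (fun c hc c' hc' => hind c (herase c hc).1 c' (herase c' hc').1)
      (fun c hc => hconst c (herase c hc).1) (κ / κ₀ ^ w c₀) (div_ne_zero hκ hpow)
      (fun x => by
        have := hid2 x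
        field_simp
        linear_combination this)
      (by rw [Finset.card_erase_of_mem hc₀, hcard]; rfl)
    intro c hc
    by_cases hcc : c = c₀
    · subst hcc
      exact ⟨κ₀, hκ₀0, hκ₀⟩
    · exact hrec c (Finset.mem_erase.mpr ⟨hcc, hc⟩)

end MotMono
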