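import Pool.Agent.Lib.MP_4e5fcd_ag.Inv.Base

/-! # INV-StableDet: sums of products of determinantal ideals are stable

PROOF. `glSub e g h` maps `det ((X_a).submatrix S T)` to `det ((g_a X_a h_a).submatrix S T)`
(`RingHom.map_det`), and every minor of `g X h` of size `r` is a linear combination of the minors of
size `r` of `X`. So `Ideal.map (glSub e g h) (detIdeal e a r) ≤ detIdeal e a r`, and the same for
products, powers and sums. -/

open MvPolynomial

namespace MotMono

variable {s N : ℕ} {m n : Fin s → ℕ}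

private theorem sd_left {R : Type} [CommRing R] {p q l r : ℕ} (A : Matrix (Fin p) (Fin q) R)
    (B : Matrix (Fin q) (Fin l) R) (I : Ideal R) (S : Fin r → Fin p) (T : Fin r → Fin l)
    (h : ∀ f : Fin r → Fin q, (B.submatrix f T).det ∈ I) : ((A * B).submatrix S T).det ∈ I := by
  have h1 : ((A * B).submatrix S T).det =
      (Matrix.detRowAlternating (R := R) (n := Fin r)).toMultilinearMap
        (fun i => ∑ j : Fin q, A (S i) j • (fun k => B j (T k))) := by
    change Matrix.det _ = Matrix.det _
    congr 1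
    ext i k
    simp [Matrix.mul_apply, Finset.sum_apply]
  rw [h1, MultilinearMap.map_sum]
  refine Ideal.sum_mem _ fun f _ => ?_
  rw [MultilinearMap.map_smul_univ, smul_eq_mul]
  exact Ideal.mul_mem_left _ _ (h f)

private theorem sd_right {R : Type} [CommRing R] {p q l r : ℕ} (A : Matrix (Fin p) (Fin q) R)
    (B : Matrix (Fin q) (Fin l) R) (I : Ideal R) (S : Fin r → Fin p) (T : Fin r → Fin l)
    (h : ∀ f : Fin r → Fin q, (A.submatrix S f).det ∈ I) : ((A * B).submatrix S T).det ∈ I := by
  have h1 : ((A * B).submatrix S T).det = ((B.transpose * A.transpose).submatrix T S).det := by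
    rw [← Matrix.transpose_mul, ← Matrix.det_transpose]
    rfl
  rw [h1]
  refine sd_left _ _ I T S fun f => ?_
  rw [← Matrix.det_transpose]
  exact h f

private theorem sd_detIdeal (e : (Σ a, Fin (m a) × Fin (n a)) ≃ Fin N)
    (g : ∀ a, Matrix (Fin (m a)) (Fin (m a)) ℂ) (h : ∀ a, Matrix (Fin (n a)) (Fin (n a)) ℂ)
    (a : Fin s) (r : ℕ) :
    (detIdeal e a r).map (glSub e g h).toRingHom ≤ detIdeal e a r := by
  rw [detIdeal, Ideal.map_span, Ideal.span_le]
  rintro _ ⟨_, ⟨S, T, rfl⟩, rfl⟩
  have h1 : (glSub e g h).toRingHom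
      (Matrix.of fun i j => (X (e ⟨a, (S i, T j)⟩) : MvPolynomial (Fin N) ℂ)).det =
      (((((g a).map C : Matrix (Fin (m a)) (Fin (m a)) (MvPolynomial (Fin N) ℂ)) *
        ((XM e a * ((h a).map C : Matrix (Fin (n a)) (Fin (n a)) (MvPolynomial (Fin N) ℂ)) :
          Matrix (Fin (m a)) (Fin (n a)) (MvPolynomial (Fin N) ℂ)))) :
          Matrix (Fin (m a)) (Fin (n a)) (MvPolynomial (Fin N) ℂ)).submatrix S T).det := by
    rw [RingHom.map_det]
    congr 1
    ext1 i j
    rw [RingHom.mapMatrix_apply, Matrix.map_apply, Matrix.of_apply, Matrix.submatrix_apply]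
    change (glSub e g h) (X (e ⟨a, (S i, T j)⟩)) = _
    rw [glSub, aeval_X, e.symm_apply_apply]
    simp only [Matrix.mul_apply, Matrix.map_apply, XM, Finset.mul_sum, map_mul]
    refine Finset.sum_congr rfl fun i' _ => Finset.sum_congr rfl fun k' _ => ?_
    ring
  rw [SetLike.mem_coe, h1]
  refine sd_left _ _ _ S T fun f => ?_
  refine sd_right _ _ _ f T fun f' => ?_
  exact Ideal.subset_span ⟨f, f', rfl⟩

private theorem sd_map_prod {R S ι : Type} [CommRing R] [CommRing S] (f : R →+* S) (s : Finset ι)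
    (J : ι → Ideal R) (w : ι → ℕ) :
    (∏ i ∈ s, J i ^ w i).map f = ∏ i ∈ s, (J i).map f ^ w i := by
  classical
  induction s using Finset.induction_on with
  | empty => simp only [Finset.prod_empty, Ideal.one_eq_top, Ideal.map_top]
  | insert a s ha ih =>
    rw [Finset.prod_insert ha, Finset.prod_insert ha, Ideal.map_mul, Ideal.map_pow, ih]

private theorem sd_prod_mono {R ι : Type} [CommRing R] (s : Finset ι)
    (J K : ι → Ideal R) (w : ι → ℕ) (h : ∀ i, J i ≤ K i) :
    ∏ i ∈ s, J i ^ w i ≤ ∏ i ∈ s, K i ^ w i := by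
  classical
  induction s using Finset.induction_on with
  | empty => simp
  | insert a s ha ih =>
    rw [Finset.prod_insert ha, Finset.prod_insert ha]
    exact Ideal.mul_mono (Ideal.pow_right_mono (h a) _) ih

theorem glStable_detSum (e : (Σ a, Fin (m a) × Fin (n a)) ≃ Fin N)
    (A : Finset ((Σ a, Fin (m a)) → ℕ)) : GLStable e (detSum e A) := by
  intro g h _ _ f hf
  have key : (detSum e A).map (glSub e g h).toRingHom ≤ detSum e A := by
    rw [detSum, Ideal.map_iSup]
    refine iSup_le fun w => ?_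
    rw [Ideal.map_iSup]
    refine iSup_le fun hw => ?_
    rw [sd_map_prod]
    refine le_trans (sd_prod_mono _ _ _ _ fun c => sd_detIdeal e g h c.1 (c.2 + 1)) ?_
    exact le_iSup₂_of_le w hw le_rfl
  exact key (Ideal.mem_map_of_mem _ hf)

end MotMono
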