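import Pool.Agent.Lib.MP_4e5fcd_ag.Inv.CornerB
import Pool.Agent.Lib.MP_4e5fcd_ag.Inv.Match
import Pool.Agent.Lib.MP_4e5fcd_ag.Inv.StableDet
import Pool.Agent.Lib.MP_4e5fcd_ag.Det.P1

/-! # INV-Lead: proportional leading minors

PROOF. Let `N₀ = minF (AW A) u`, `U = refU n u δ`. Let `a, r` be visible: there are `w ∈ A` with
`InFace (AW A) u (Wf w)` and `i : Fin (m a)` with `i + 1 = r`, `w ⟨a, i⟩ ≠ 0`; `N₀ = pair (Wf w) u`
(`m10_face_eq` in `Det/M10.lean`, or as in `Det/M9.lean`). Let `Cs = {c | w c ≠ 0}`.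
(1) Reference: `eQ c = ev (part u c.1) (c.2 + 1)`, `Q c x = coeff (eQ c) (crn hmn (trM x U) c)`. All
coefficients of `crn hmn (trM x U) c` of index `< eQ c` vanish: `crn hmn (trM x U) c` is a linear
combination (with constant coefficients) of the minors of size `c.2 + 1` of `U c.1` (expand the
determinant in the rows of `g U` and then in the columns, `MultilinearMap.map_sum`; or use the lemma on
minors of products proved in `StableDet.lean`; stated here as `crn_trM_coeff_lt`), and these coefficients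
vanish by `coeff_refU_minor`. `Q c (1) ≠ 0` at the identity matrices (`trM_one`, `coeff_refU_minor`,
`coeff_ref_minor_id`, `δ ≠ 0`).
(2) For `c ∈ Cs` the power series `crn hmn (trM x M) c` is not zero for `x` = identity: by `h` the product
has a nonzero coefficient `d` there (equal to `∏ c, Q c (1) ^ w c ≠ 0`, see (3)). Let `eP c` be the
least `l` such that `coeff l (crn hmn (trM x M) c) ≠ 0` for some `x` (`Nat.find`),
`P c x = coeff (eP c) (crn hmn (trM x M) c)`.
(3) By `coeff_prod_lowest` (in `Det/P1.lean`; powers are products of equal factors, or write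
`∏ c, F c ^ w c` as `∏ c, ∏ _j : Fin (w c), F c`): the coefficients of index `< ∑ c, w c * eP c` of
`∏ c, crn hmn (trM x M) c ^ w c` vanish and the one of index `∑ c, w c * eP c` is `∏ c ∈ Cs, P c x ^ w c`; the
same for `U` with `∑ c, w c * eQ c = pair (Wf w) u = N₀` (`pair_Wf`).
(4) `d = ∑ c, w c * eP c`: `≤` since at the identity the coefficient `d` is not zero; `≥` since there is `x`
with all `P c x ≠ 0`, `c ∈ Cs` (`PolyFun.exists_prod_ne_zero`). So
`∏ c ∈ Cs, P c x ^ w c = ∏ c ∈ Cs, Q c x ^ w c` for all `x`.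
(5) `matching` with `rk c = c.2`, `T c = rowSet n c`, `T' c = colSet n c` (`crn_mix_of_ne`, `polyFun_crn`,
`exists_const_crn`) gives `P c x = κ * Q c x`, `κ ≠ 0`, for `c = ⟨a, i⟩`. Evaluate at the points of
`exists_select`: `coeff (eP c) ((M a).submatrix S T).det = κ * coeff (eQ c) ((U a).submatrix S T).det`, and the
lower coefficients of `((M a).submatrix S T).det` vanish by the choice of `eP c`; finally
`coeff_refU_minor` compares `U` with `refM _ _ _ 1` (factor `δ ^ (i + 1)`). This is `PatR`. -/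

open MvPolynomial

namespace MotMono

variable {s N : ℕ} {m n : Fin s → ℕ}

theorem crn_trM_coeff_lt (hmn : ∀ a, m a ≤ n a) (c : Σ a, Fin (m a)) (q : ℕ)
    (M : ∀ a, Matrix (Fin (m a)) (Fin (n a)) (PowerSeries ℂ))
    (hM : ∀ (S : Fin ((c.2 : ℕ) + 1) → Fin (m c.1)) (T : Fin ((c.2 : ℕ) + 1) → Fin (n c.1)),
      ∀ l < q, PowerSeries.coeff l ((M c.1).submatrix S T).det = 0)
    (x : GX m n → ℂ) (l : ℕ) (hl : l < q) :
    PowerSeries.coeff l (crn hmn (trM x M) c) = 0 := by
  have h1 : Dv q ((c.2 : ℕ) + 1) (M c.1) := fun S T => PowerSeries.X_pow_dvd_iff.mpr (hM S T)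
  have h2 : Dv q ((c.2 : ℕ) + 1) (trM x M c.1) := (h1.mul_left _).mul_right _
  exact PowerSeries.X_pow_dvd_iff.mp (h2 _ _) l hl

/-- lowest coefficient of a product of powers -/
theorem lead_prod_pow_lowest {α : Type} [Fintype α] (F : α → PowerSeries ℂ) (w k : α → ℕ)
    (h : ∀ c, w c ≠ 0 → ∀ l < k c, PowerSeries.coeff l (F c) = 0) :
    (∀ l < ∑ c, w c * k c, PowerSeries.coeff l (∏ c, F c ^ w c) = 0) ∧
      PowerSeries.coeff (∑ c, w c * k c) (∏ c, F c ^ w c) =
        ∏ c, PowerSeries.coeff (k c) (F c) ^ w c := by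
  have h1 : ∀ c, (∀ l < w c * k c, PowerSeries.coeff l (F c ^ w c) = 0) ∧
      PowerSeries.coeff (w c * k c) (F c ^ w c) = PowerSeries.coeff (k c) (F c) ^ w c := by
    intro c
    by_cases hw : w c = 0
    · rw [hw]
      simp
    · have h2 := coeff_prod_lowest (Finset.range (w c)) (fun _ => F c) (fun _ => k c)
        (fun _ _ => h c hw)
      rw [Finset.prod_const, Finset.prod_const, Finset.sum_const, Finset.card_range,
        smul_eq_mul] at h2
      exact h2
  have h3 := coeff_prod_lowest Finset.univ (fun c => F c ^ w c) (fun c => w c * k c)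
    (fun c _ => (h1 c).1)
  refine ⟨h3.1, h3.2.trans ?_⟩
  exact Finset.prod_congr rfl fun c _ => (h1 c).2

/-- the coefficients of the leading minors of the reference matrices -/
theorem lead_ref_lt (hmn : ∀ a, m a ≤ n a) (u : (Σ a, Fin (m a)) → ℕ) (δ : ℂ)
    (c : Σ a, Fin (m a)) (x : GX m n → ℂ) (l : ℕ) (hl : l < ev (part u c.1) (c.2 + 1)) :
    PowerSeries.coeff l (crn hmn (trM x (refU n u δ)) c) = 0 :=
  crn_trM_coeff_lt hmn c _ (refU n u δ) (fun S T => (coeff_refU_minor u δ c S T).1) x l hl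

theorem lead_ref_ne (hmn : ∀ a, m a ≤ n a) (u : (Σ a, Fin (m a)) → ℕ) (δ : ℂ) (hδ : δ ≠ 0)
    (c : Σ a, Fin (m a)) :
    PowerSeries.coeff (ev (part u c.1) (c.2 + 1))
      (crn hmn (trM (ghPt (fun _ => 1) fun _ => 1) (refU n u δ)) c) ≠ 0 := by
  rw [trM_one]
  unfold crn
  rw [(coeff_refU_minor u δ c _ _).2]
  refine mul_ne_zero (pow_ne_zero _ hδ) ?_
  have hm : (c.2 : ℕ) + 1 ≤ m c.1 := by have := c.2.2; omega
  have hn : (c.2 : ℕ) + 1 ≤ n c.1 := hm.trans (hmn c.1)
  have h1 := coeff_ref_minor_id (m := m c.1) (n := n c.1) (part u c.1) hm hn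
  have h2 : PowerSeries.coeff (ev (part u c.1) (c.2 + 1))
      ((refM (m c.1) (n c.1) (part u c.1) 1).submatrix
        (Fin.castLE (by omega) : Fin ((c.2 : ℕ) + 1) → Fin (m c.1))
        (Fin.castLE (by have := hmn c.1; omega) : Fin ((c.2 : ℕ) + 1) → Fin (n c.1))).det = 1 := h1
  rw [h2]
  exact one_ne_zero

theorem lead_face_eq {ι : Type} [Fintype ι] (A : Finset (ι → ℕ)) (u W : ι → ℕ)
    (hW : InFace A u W) : minF A u = pair W u := by
  refine le_antisymm (Nat.sInf_le ⟨W, hW.1, rfl⟩) ?_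
  refine le_csInf ⟨_, W, hW.1, rfl⟩ ?_
  rintro k ⟨W', hW', rfl⟩
  exact hW.2 W' hW'

theorem pat_of_crn (hmn : ∀ a, m a ≤ n a) (A : Finset ((Σ a, Fin (m a)) → ℕ))
    (u : (Σ a, Fin (m a)) → ℕ) (δ : ℂ) (hδ : δ ≠ 0) (d : ℕ)
    (M : ∀ a, Matrix (Fin (m a)) (Fin (n a)) (PowerSeries ℂ))
    (h : ∀ x : GX m n → ℂ, ∀ w ∈ A,
      (∀ l < d, PowerSeries.coeff l (∏ c, crn hmn (trM x M) c ^ w c) = 0) ∧
      PowerSeries.coeff d (∏ c, crn hmn (trM x M) c ^ w c) =
        PowerSeries.coeff (minF (AW A) u) (∏ c, crn hmn (trM x (refU n u δ)) c ^ w c)) :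
    ∀ a r, Vis A u a r → PatR (m a) (n a) (part u a) r (M a) := by
  classical
  rintro a r ⟨w, hwA, hface, i, hir, hwi⟩
  subst hir
  have hN : minF (AW A) u = ∑ c, w c * ev (part u c.1) (c.2 + 1) := by
    rw [lead_face_eq _ _ _ hface, pair_Wf]
  let eQ : (Σ a, Fin (m a)) → ℕ := fun c => ev (part u c.1) (c.2 + 1)
  let I : GX m n → ℂ := ghPt (fun _ => 1) fun _ => 1
  -- the reference
  have hQ := fun x : GX m n → ℂ => lead_prod_pow_lowest
    (fun c => crn hmn (trM x (refU n u δ)) c) w eQ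
    (fun c _ l hl => lead_ref_lt hmn u δ c x l hl)
  have hQI : PowerSeries.coeff (∑ c, w c * eQ c)
      (∏ c, crn hmn (trM I (refU n u δ)) c ^ w c) ≠ 0 := by
    rw [(hQ I).2]
    exact Finset.prod_ne_zero_iff.mpr fun c _ => pow_ne_zero _ (lead_ref_ne hmn u δ hδ c)
  have hh : ∀ x : GX m n → ℂ,
      (∀ l < d, PowerSeries.coeff l (∏ c, crn hmn (trM x M) c ^ w c) = 0) ∧
      PowerSeries.coeff d (∏ c, crn hmn (trM x M) c ^ w c) =
        ∏ c, PowerSeries.coeff (eQ c) (crn hmn (trM x (refU n u δ)) c) ^ w c := by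
    intro x
    obtain ⟨h1, h2⟩ := h x w hwA
    refine ⟨h1, h2.trans ?_⟩
    rw [hN]
    exact (hQ x).2
  -- existence of the lowest exponents
  have hne : ∀ c, w c ≠ 0 → ∃ l, ∃ x : GX m n → ℂ,
      PowerSeries.coeff l (crn hmn (trM x M) c) ≠ 0 := by
    intro c hc
    by_contra hcon
    push Not at hcon
    have h1 : crn hmn (trM I M) c = 0 := by
      ext l
      rw [hcon l I, map_zero]
    have h2 : ∏ c, crn hmn (trM I M) c ^ w c = 0 :=
      Finset.prod_eq_zero (Finset.mem_univ c) (by rw [h1, zero_pow hc])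
    have h3 := (hh I).2
    rw [h2, map_zero, ← (hQ I).2] at h3
    exact hQI h3.symm
  let eP : (Σ a, Fin (m a)) → ℕ := fun c => if hc : w c ≠ 0 then Nat.find (hne c hc) else 0
  have heP1 : ∀ c, w c ≠ 0 → ∃ x : GX m n → ℂ,
      PowerSeries.coeff (eP c) (crn hmn (trM x M) c) ≠ 0 := by
    intro c hc
    have h1 : eP c = Nat.find (hne c hc) := dif_pos hc
    rw [h1]
    exact Nat.find_spec (hne c hc)
  have heP2 : ∀ c, w c ≠ 0 → ∀ (x : GX m n → ℂ), ∀ l < eP c,
      PowerSeries.coeff l (crn hmn (trM x M) c) = 0 := by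
    intro c hc x l hl
    have h1 : eP c = Nat.find (hne c hc) := dif_pos hc
    rw [h1] at hl
    have h2 := Nat.find_min (hne c hc) hl
    push Not at h2
    exact h2 x
  have hP := fun x : GX m n → ℂ => lead_prod_pow_lowest
    (fun c => crn hmn (trM x M) c) w eP (fun c hc l hl => heP2 c hc x l hl)
  let Cs : Finset (Σ a, Fin (m a)) := Finset.univ.filter fun c => w c ≠ 0
  have hCs : ∀ c, c ∈ Cs ↔ w c ≠ 0 := fun c => by simp [Cs]
  have hprodCs : ∀ F : (Σ a, Fin (m a)) → ℂ, ∏ c, F c ^ w c = ∏ c ∈ Cs, F c ^ w c := by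
    intro F
    symm
    refine Finset.prod_subset (Finset.subset_univ _) fun c _ hc => ?_
    rw [hCs, not_not] at hc
    rw [hc, pow_zero]
  have hd : d = ∑ c, w c * eP c := by
    refine le_antisymm ?_ ?_
    · by_contra hlt
      push Not at hlt
      obtain ⟨x, hx⟩ := PolyFun.exists_prod_ne_zero Cs
        (F := fun c x => PowerSeries.coeff (eP c) (crn hmn (trM x M) c))
        (fun c _ => polyFun_crn hmn M c (eP c)) (fun c hc => heP1 c ((hCs c).mp hc))
      have h1 := (hh x).1 _ hlt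
      rw [(hP x).2, hprodCs] at h1
      refine absurd h1 (Finset.prod_ne_zero_iff.mpr fun c hc => pow_ne_zero _ ?_)
      exact Finset.prod_ne_zero_iff.mp hx c hc
    · by_contra hlt
      push Not at hlt
      have h1 := (hP I).1 d hlt
      have h2 := (hh I).2
      rw [h1, ← (hQ I).2] at h2
      exact hQI h2.symm
  have hkey : ∀ x : GX m n → ℂ,
      ∏ c ∈ Cs, PowerSeries.coeff (eP c) (crn hmn (trM x M) c) ^ w c =
        1 * ∏ c ∈ Cs, PowerSeries.coeff (eQ c) (crn hmn (trM x (refU n u δ)) c) ^ w c := by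
    intro x
    have h1 := (hh x).2
    rw [hd, (hP x).2] at h1
    rw [one_mul, ← hprodCs, ← hprodCs]
    exact h1
  have hmatch := matching Cs w (fun c hc => Nat.pos_of_ne_zero ((hCs c).mp hc))
    (fun c x => PowerSeries.coeff (eP c) (crn hmn (trM x M) c))
    (fun c x => PowerSeries.coeff (eQ c) (crn hmn (trM x (refU n u δ)) c))
    (fun c _ => polyFun_crn hmn M c (eP c))
    (fun c _ => polyFun_crn hmn (refU n u δ) c (eQ c))
    (fun c hc => heP1 c ((hCs c).mp hc))
    (fun c _ => ⟨I, lead_ref_ne hmn u δ hδ c⟩)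
    (fun c => (c.2 : ℕ)) (rowSet n) (colSet n)
    (by
      intro c _ c' _ hcc hle x x'
      obtain ⟨h1, h2⟩ := crn_mix_of_ne hmn M c c' hcc hle x x'
      obtain ⟨h3, h4⟩ := crn_mix_of_ne hmn (refU n u δ) c c' hcc hle x x'
      exact ⟨by simp only [h1], by simp only [h3], by simp only [h2], by simp only [h4]⟩)
    (by
      intro c hc h1 h2
      exact exists_const_crn hmn M (refU n u δ) c (eP c) (eQ c) (heP1 c ((hCs c).mp hc))
        ⟨I, lead_ref_ne hmn u δ hδ c⟩ h1 h2)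
    1 one_ne_zero hkey
  obtain ⟨κ, hκ, hκeq⟩ := hmatch ⟨a, i⟩ ((hCs _).mpr hwi)
  refine ⟨eP ⟨a, i⟩, κ * δ ^ ((i : ℕ) + 1), mul_ne_zero hκ (pow_ne_zero _ hδ), fun S T => ?_⟩
  obtain ⟨x, hx⟩ := exists_select hmn ⟨a, i⟩ S T
  refine ⟨fun l hl => ?_, ?_⟩
  · have h1 := heP2 ⟨a, i⟩ hwi x l hl
    rw [hx M] at h1
    exact h1
  · have h1 := hκeq x
    simp only [hx] at h1
    have h2 := (coeff_refU_minor u δ ⟨a, i⟩ S T).2
    have h3 : PowerSeries.coeff (eQ ⟨a, i⟩) ((refU n u δ a).submatrix S T).det =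
      δ ^ ((i : ℕ) + 1) * PowerSeries.coeff (ev (part u a) ((i : ℕ) + 1))
        ((refM (m a) (n a) (part u a) 1).submatrix S T).det := h2
    rw [mul_assoc, ← h3]
    exact h1

end MotMono
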