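import Pool.Agent.Lib.MP_4e5fcd_ag.Inv.Coeff

/-! # INV-LemB: the expansion of `f (g Y h)` -/

open MvPolynomial

namespace MotMono

variable {s N : ℕ} {m n : Fin s → ℕ}

/-- the generic point -/
noncomputable def lb_pt (e : (Σ a, Fin (m a) × Fin (n a)) ≃ Fin N) (x : Fin N) :
    MvPolynomial (GX m n) (MvPolynomial (Fin N) ℂ) :=
  ∑ i, ∑ k, X (Sum.inl ⟨(e.symm x).1, ((e.symm x).2.1, i)⟩) *
    X (Sum.inr ⟨(e.symm x).1, (k, (e.symm x).2.2)⟩) * C (X (e ⟨(e.symm x).1, (i, k)⟩))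

/-- the generic value -/
noncomputable def lb_P (e : (Σ a, Fin (m a) × Fin (n a)) ≃ Fin N) (f : MvPolynomial (Fin N) ℂ) :
    MvPolynomial (GX m n) (MvPolynomial (Fin N) ℂ) :=
  aeval (lb_pt e) f

/-- evaluation of the generic value -/
noncomputable def lb_psi {R : Type} [CommRing R] [Algebra ℂ R]
    (e : (Σ a, Fin (m a) × Fin (n a)) ≃ Fin N) (v : GX m n → R)
    (Y : ∀ a, Matrix (Fin (m a)) (Fin (n a)) R) :
    MvPolynomial (GX m n) (MvPolynomial (Fin N) ℂ) →+* R :=
  eval₂Hom ((aeval (pt e Y) : MvPolynomial (Fin N) ℂ →ₐ[ℂ] R) : MvPolynomial (Fin N) ℂ →+* R) v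

theorem lb_psi_P {R : Type} [CommRing R] [Algebra ℂ R]
    (e : (Σ a, Fin (m a) × Fin (n a)) ≃ Fin N)
    (g : ∀ a, Matrix (Fin (m a)) (Fin (m a)) R) (h : ∀ a, Matrix (Fin (n a)) (Fin (n a)) R)
    (Y : ∀ a, Matrix (Fin (m a)) (Fin (n a)) R) (f : MvPolynomial (Fin N) ℂ) :
    lb_psi e (ghPt g h) Y (lb_P e f) = aeval (pt e fun a => g a * Y a * h a) f := by
  have key : ∀ (a : Fin s) (i₀ : Fin (m a)) (k₀ : Fin (n a)),
      lb_psi e (ghPt g h) Y (∑ i, ∑ k, X (Sum.inl ⟨a, (i₀, i)⟩) *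
        X (Sum.inr ⟨a, (k, k₀)⟩) * C (X (e ⟨a, (i, k)⟩))) = (g a * Y a * h a) i₀ k₀ := by
    intro a i₀ k₀
    have hY : ∀ i k, pt e Y (e ⟨a, (i, k)⟩) = Y a i k := by
      intro i k
      unfold pt
      rw [Equiv.symm_apply_apply]
    rw [Matrix.mul_apply]
    simp only [Matrix.mul_apply, Finset.sum_mul, map_sum, map_mul]
    rw [Finset.sum_comm]
    refine Finset.sum_congr rfl fun k _ => Finset.sum_congr rfl fun i _ => ?_
    unfold lb_psi
    simp only [eval₂Hom_X', eval₂Hom_C, RingHom.coe_coe, aeval_X, hY]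
    unfold ghPt
    simp only [Sum.elim_inl, Sum.elim_inr]
    ring
  induction f using MvPolynomial.induction_on with
  | C a =>
    unfold lb_P
    rw [← algebraMap_eq, AlgHom.commutes, AlgHom.commutes]
    unfold lb_psi
    rw [IsScalarTower.algebraMap_apply ℂ (MvPolynomial (Fin N) ℂ), MvPolynomial.algebraMap_eq,
      coe_eval₂Hom, eval₂_C, RingHom.coe_coe, AlgHom.commutes]
  | add p q hp hq =>
    unfold lb_P at hp hq ⊢
    rw [map_add, map_add, hp, hq, map_add]
  | mul_X p x hp =>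
    unfold lb_P at hp ⊢
    rw [map_mul, map_mul, hp, map_mul, aeval_X, aeval_X]
    congr 1
    exact key _ _ _

theorem glSub_expand (e : (Σ a, Fin (m a) × Fin (n a)) ≃ Fin N)
    (I : Ideal (MvPolynomial (Fin N) ℂ)) (hI : GLStable e I) (f : MvPolynomial (Fin N) ℂ)
    (hf : f ∈ I) :
    ∃ (K : ℕ) (c : Fin K → MvPolynomial (GX m n) ℂ) (F : Fin K → MvPolynomial (Fin N) ℂ),
      (∀ j, F j ∈ I) ∧ ∀ (R : Type) [CommRing R] [Algebra ℂ R]
        (g : ∀ a, Matrix (Fin (m a)) (Fin (m a)) R) (h : ∀ a, Matrix (Fin (n a)) (Fin (n a)) R)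
        (Y : ∀ a, Matrix (Fin (m a)) (Fin (n a)) R),
        aeval (pt e fun a => g a * Y a * h a) f =
          ∑ j, aeval (ghPt g h) (c j) * aeval (pt e Y) (F j) := by
  classical
  -- the coefficients lie in `I`
  have hcoeff : ∀ ν, (lb_P (m := m) (n := n) e f).coeff ν ∈ I := by
    set Δ : MvPolynomial (GX m n) ℂ :=
      (∏ a, (Matrix.of fun i j : Fin (m a) => (X (Sum.inl ⟨a, (i, j)⟩) :
        MvPolynomial (GX m n) ℂ)).det) *
      ∏ a, (Matrix.of fun i j : Fin (n a) => (X (Sum.inr ⟨a, (i, j)⟩) :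
        MvPolynomial (GX m n) ℂ)).det with hΔ
    have hev : ∀ c : GX m n → ℂ, eval c Δ =
        (∏ a, (Matrix.of fun i j : Fin (m a) => c (Sum.inl ⟨a, (i, j)⟩)).det) *
        ∏ a, (Matrix.of fun i j : Fin (n a) => c (Sum.inr ⟨a, (i, j)⟩)).det := by
      intro c
      rw [hΔ, map_mul, map_prod, map_prod]
      congr 1
      · refine Finset.prod_congr rfl fun a _ => ?_
        rw [RingHom.map_det]
        congr 1
        ext i j
        simp
      · refine Finset.prod_congr rfl fun a _ => ?_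
        rw [RingHom.map_det]
        congr 1
        ext i j
        simp
    have hΔ0 : Δ ≠ 0 := by
      intro h0
      have h1 := hev (ghPt (fun _ => 1) fun _ => 1)
      rw [h0, map_zero] at h1
      have h2 : ∀ a, (Matrix.of fun i j : Fin (m a) =>
          ghPt (m := m) (n := n) (R := ℂ) (fun _ => 1) (fun _ => 1) (Sum.inl ⟨a, (i, j)⟩)) =
            (1 : Matrix (Fin (m a)) (Fin (m a)) ℂ) := fun a => rfl
      have h3 : ∀ a, (Matrix.of fun i j : Fin (n a) =>
          ghPt (m := m) (n := n) (R := ℂ) (fun _ => 1) (fun _ => 1) (Sum.inr ⟨a, (i, j)⟩)) =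
            (1 : Matrix (Fin (n a)) (Fin (n a)) ℂ) := fun a => rfl
      simp only [h2, h3, Matrix.det_one, Finset.prod_const_one, mul_one] at h1
      exact zero_ne_one h1
    refine coeff_mem_of_eval I _ Δ hΔ0 ?_
    intro c hc
    rw [hev] at hc
    have hc1 := left_ne_zero_of_mul hc
    have hc2 := right_ne_zero_of_mul hc
    rw [Finset.prod_ne_zero_iff] at hc1 hc2
    have hmem := hI (fun a => Matrix.of fun i j => c (Sum.inl ⟨a, (i, j)⟩))
      (fun a => Matrix.of fun i j => c (Sum.inr ⟨a, (i, j)⟩))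
      (fun a => hc1 a (Finset.mem_univ a)) (fun a => hc2 a (Finset.mem_univ a)) f hf
    convert hmem using 1
    -- both are homomorphisms
    unfold lb_P glSub
    have h1 : ((eval fun v => algebraMap ℂ (MvPolynomial (Fin N) ℂ) (c v)).comp
        ((aeval (lb_pt (m := m) (n := n) e) : MvPolynomial (Fin N) ℂ →ₐ[ℂ] _) :
          MvPolynomial (Fin N) ℂ →+* MvPolynomial (GX m n) (MvPolynomial (Fin N) ℂ))) =
        ((aeval fun x : Fin N => ∑ i, ∑ k,
          C ((Matrix.of fun i j => c (Sum.inl ⟨(e.symm x).1, (i, j)⟩)) (e.symm x).2.1 i *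
            (Matrix.of fun i j => c (Sum.inr ⟨(e.symm x).1, (i, j)⟩)) k (e.symm x).2.2) *
            X (e ⟨(e.symm x).1, (i, k)⟩) : MvPolynomial (Fin N) ℂ →ₐ[ℂ] _) :
          MvPolynomial (Fin N) ℂ →+* MvPolynomial (Fin N) ℂ) := by
      apply MvPolynomial.ringHom_ext
      · intro r
        rw [RingHom.comp_apply, RingHom.coe_coe, RingHom.coe_coe, ← algebraMap_eq,
          AlgHom.commutes, AlgHom.commutes,
          IsScalarTower.algebraMap_apply ℂ (MvPolynomial (Fin N) ℂ), MvPolynomial.algebraMap_eq]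
        exact eval_C _
      · intro x
        rw [RingHom.comp_apply, RingHom.coe_coe, RingHom.coe_coe, aeval_X, aeval_X]
        unfold lb_pt
        simp only [map_sum, map_mul, eval_X, eval_C, algebraMap_eq, Matrix.of_apply]
    exact RingHom.congr_fun h1 f
  refine ⟨(lb_P (m := m) (n := n) e f).support.card,
    fun j => monomial ((lb_P (m := m) (n := n) e f).support.equivFin.symm j : GX m n →₀ ℕ) 1,
    fun j => (lb_P (m := m) (n := n) e f).coeff
      ((lb_P (m := m) (n := n) e f).support.equivFin.symm j : GX m n →₀ ℕ),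
    fun j => hcoeff _, ?_⟩
  intro R _ _ g h Y
  rw [← lb_psi_P]
  conv_lhs => rw [(lb_P (m := m) (n := n) e f).as_sum]
  rw [map_sum, ← Finset.sum_coe_sort, ← Equiv.sum_comp
    (lb_P (m := m) (n := n) e f).support.equivFin.symm]
  refine Finset.sum_congr rfl fun j _ => ?_
  unfold lb_psi
  rw [coe_eval₂Hom, eval₂_monomial, aeval_monomial, map_one, one_mul, mul_comm]
  rfl

end MotMono
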