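import Pool.Agent.Lib.MP_4e5fcd_ag.Inv.LemB

/-! # INV-LemB2: consequences of the expansion of `f (g Y h)` -/

open MvPolynomial

namespace MotMono

variable {s N : ℕ} {m n : Fin s → ℕ}

theorem lb2_aeval_glSub {R : Type} [CommRing R] [Algebra ℂ R]
    (e : (Σ a, Fin (m a) × Fin (n a)) ≃ Fin N)
    (g : ∀ a, Matrix (Fin (m a)) (Fin (m a)) ℂ) (h : ∀ a, Matrix (Fin (n a)) (Fin (n a)) ℂ)
    (Y : ∀ a, Matrix (Fin (m a)) (Fin (n a)) R) (F : MvPolynomial (Fin N) ℂ) :
    aeval (pt e Y) (glSub e g h F) =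
      aeval (pt e fun a => (g a).map (algebraMap ℂ R) * Y a * (h a).map (algebraMap ℂ R)) F := by
  have key : ∀ (a : Fin s) (i₀ : Fin (m a)) (k₀ : Fin (n a)),
      aeval (pt e Y) (∑ i, ∑ k, C (g a i₀ i * h a k k₀) *
        (X (e ⟨a, (i, k)⟩) : MvPolynomial (Fin N) ℂ)) =
      ((g a).map (algebraMap ℂ R) * Y a * (h a).map (algebraMap ℂ R)) i₀ k₀ := by
    intro a i₀ k₀
    have hY : ∀ i k, pt e Y (e ⟨a, (i, k)⟩) = Y a i k := by
      intro i k
      unfold pt
      rw [Equiv.symm_apply_apply]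
    rw [Matrix.mul_apply]
    simp only [Matrix.mul_apply, Matrix.map_apply, map_sum, map_mul, aeval_C, aeval_X, hY,
      Finset.sum_mul]
    rw [Finset.sum_comm]
    refine Finset.sum_congr rfl fun k _ => Finset.sum_congr rfl fun i _ => ?_
    ring
  have h1 : (aeval (pt e Y)).comp (glSub e g h) =
      aeval (pt e fun a => (g a).map (algebraMap ℂ R) * Y a * (h a).map (algebraMap ℂ R)) := by
    apply MvPolynomial.algHom_ext
    intro x
    rw [AlgHom.comp_apply]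
    unfold glSub
    rw [aeval_X, aeval_X]
    exact key _ _ _
  rw [← h1]
  rfl

theorem lb2_XM (e : (Σ a, Fin (m a) × Fin (n a)) ≃ Fin N) (F : MvPolynomial (Fin N) ℂ) :
    aeval (pt e (XM e)) F = F := by
  have h1 : pt e (XM (m := m) (n := n) e) = X := by
    funext x
    unfold pt XM
    exact congrArg X (e.apply_symm_apply x)
  rw [h1, aeval_X_left_apply]

/-- the ideal is stable under all substitutions `x_a ↦ g_a x_a h_a`, also with singular matrices -/
theorem glSub_mem_all (e : (Σ a, Fin (m a) × Fin (n a)) ≃ Fin N)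
    (I : Ideal (MvPolynomial (Fin N) ℂ)) (hI : GLStable e I) (f : MvPolynomial (Fin N) ℂ)
    (hf : f ∈ I) (g : ∀ a, Matrix (Fin (m a)) (Fin (m a)) ℂ)
    (h : ∀ a, Matrix (Fin (n a)) (Fin (n a)) ℂ) : glSub e g h f ∈ I := by
  obtain ⟨K, c, F, hF, hexp⟩ := glSub_expand e I hI f hf
  have h1 : glSub e g h f = ∑ j, aeval (ghPt (fun a => (g a).map (algebraMap ℂ _))
      fun a => (h a).map (algebraMap ℂ _)) (c j) * F j := by
    rw [← lb2_XM e (glSub e g h f), lb2_aeval_glSub, hexp]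
    simp only [lb2_XM]
  rw [h1]
  exact Ideal.sum_mem _ fun j _ => I.mul_mem_left _ (hF j)

theorem dvd_act (e : (Σ a, Fin (m a) × Fin (n a)) ≃ Fin N)
    (I : Ideal (MvPolynomial (Fin N) ℂ)) (hI : GLStable e I)
    (Y : ∀ a, Matrix (Fin (m a)) (Fin (n a)) (PowerSeries ℂ)) (k : ℕ)
    (hY : ∀ f ∈ I, (PowerSeries.X : PowerSeries ℂ) ^ k ∣ aeval (pt e Y) f)
    (g : ∀ a, Matrix (Fin (m a)) (Fin (m a)) (PowerSeries ℂ))
    (h : ∀ a, Matrix (Fin (n a)) (Fin (n a)) (PowerSeries ℂ)) :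
    ∀ f ∈ I, (PowerSeries.X : PowerSeries ℂ) ^ k ∣ aeval (pt e fun a => g a * Y a * h a) f := by
  intro f hf
  obtain ⟨K, c, F, hF, hexp⟩ := glSub_expand e I hI f hf
  rw [hexp]
  exact Finset.dvd_sum fun j _ => Dvd.dvd.mul_left (hY _ (hF j)) _

theorem lb2_congr {σ : Type} (v v' : σ → PowerSeries ℂ)
    (h : ∀ i, (PowerSeries.X : PowerSeries ℂ) ∣ v i - v' i) (p : MvPolynomial σ ℂ) :
    (PowerSeries.X : PowerSeries ℂ) ∣ aeval v p - aeval v' p := by
  induction p using MvPolynomial.induction_on with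
  | C a =>
    rw [← algebraMap_eq, AlgHom.commutes, AlgHom.commutes, sub_self]
    exact dvd_zero _
  | add p q hp hq =>
    rw [map_add, map_add]
    have := dvd_add hp hq
    convert this using 1
    ring
  | mul_X p i hp =>
    rw [map_mul, map_mul, aeval_X, aeval_X]
    have h1 : aeval v p * v i - aeval v' p * v' i =
        (aeval v p - aeval v' p) * v i + aeval v' p * (v i - v' i) := by ring
    rw [h1]
    exact dvd_add (Dvd.dvd.mul_right hp _) (Dvd.dvd.mul_left (h i) _)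

theorem congr_act (e : (Σ a, Fin (m a) × Fin (n a)) ≃ Fin N)
    (I : Ideal (MvPolynomial (Fin N) ℂ)) (hI : GLStable e I)
    (Y : ∀ a, Matrix (Fin (m a)) (Fin (n a)) (PowerSeries ℂ)) (k : ℕ)
    (hY : ∀ f ∈ I, (PowerSeries.X : PowerSeries ℂ) ^ k ∣ aeval (pt e Y) f)
    (g : ∀ a, Matrix (Fin (m a)) (Fin (m a)) (PowerSeries ℂ))
    (h : ∀ a, Matrix (Fin (n a)) (Fin (n a)) (PowerSeries ℂ))
    (hg : ∀ a i j, (PowerSeries.X : PowerSeries ℂ) ∣
      g a i j - (1 : Matrix (Fin (m a)) (Fin (m a)) (PowerSeries ℂ)) i j)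
    (hh : ∀ a i j, (PowerSeries.X : PowerSeries ℂ) ∣
      h a i j - (1 : Matrix (Fin (n a)) (Fin (n a)) (PowerSeries ℂ)) i j) :
    ∀ f ∈ I, (PowerSeries.X : PowerSeries ℂ) ^ (k + 1) ∣
      aeval (pt e fun a => g a * Y a * h a) f - aeval (pt e Y) f := by
  intro f hf
  obtain ⟨K, c, F, hF, hexp⟩ := glSub_expand e I hI f hf
  have h1 : aeval (pt e Y) f = ∑ j, aeval (ghPt (R := PowerSeries ℂ)
      (fun a => (1 : Matrix (Fin (m a)) (Fin (m a)) (PowerSeries ℂ)))
      fun a => (1 : Matrix (Fin (n a)) (Fin (n a)) (PowerSeries ℂ))) (c j) *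
        aeval (pt e Y) (F j) := by
    rw [← hexp]
    simp only [Matrix.one_mul, Matrix.mul_one]
  rw [hexp, h1, ← Finset.sum_sub_distrib]
  refine Finset.dvd_sum fun j _ => ?_
  rw [← sub_mul, add_comm k 1, pow_add, pow_one]
  refine mul_dvd_mul (lb2_congr _ _ ?_ _) (hY _ (hF j))
  rintro (x | x)
  · exact hg x.1 x.2.1 x.2.2
  · exact hh x.1 x.2.1 x.2.2

end MotMono
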