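import Pool.Agent.Lib.MP_4e5fcd_ag.Inv.Raise
import Pool.Agent.Lib.MP_4e5fcd_ag.Inv.Smith
import Pool.Agent.Lib.MP_4e5fcd_ag.Inv.DiagMinor
import Pool.Agent.Lib.MP_4e5fcd_ag.Inv.StableDet
import Pool.Agent.Lib.MP_4e5fcd_ag.Inv.LemB2

/-! # INV-Ord: orders of a stable ideal and of its determinantal model -/

open MvPolynomial

namespace MotMono

variable {s N : ℕ} {m n : Fin s → ℕ}

theorem or_pt {R : Type} (e : (Σ a, Fin (m a) × Fin (n a)) ≃ Fin N)
    (Y : ∀ a, Matrix (Fin (m a)) (Fin (n a)) R) (a : Fin s) (i : Fin (m a)) (k : Fin (n a)) :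
    pt e Y (e ⟨a, (i, k)⟩) = Y a i k := by
  unfold pt
  rw [Equiv.symm_apply_apply]

theorem aeval_genMinor (e : (Σ a, Fin (m a) × Fin (n a)) ≃ Fin N)
    (Y : ∀ a, Matrix (Fin (m a)) (Fin (n a)) (PowerSeries ℂ)) {w : (Σ a, Fin (m a)) → ℕ}
    (C : Choice m n w) : aeval (pt e Y) (genMinor e C) = prodMinor Y C := by
  unfold genMinor prodMinor
  rw [map_prod]
  refine Finset.prod_congr rfl fun c _ => ?_
  rw [map_prod]
  refine Finset.prod_congr rfl fun j _ => ?_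
  rw [AlgHom.map_det]
  congr 1
  ext1 i k
  rw [AlgHom.mapMatrix_apply, Matrix.map_apply, Matrix.of_apply, aeval_X, or_pt,
    Matrix.submatrix_apply]

theorem genMinor_id (e : (Σ a, Fin (m a) × Fin (n a)) ≃ Fin N) (hmn : ∀ a, m a ≤ n a)
    (w : (Σ a, Fin (m a)) → ℕ) : genMinor e (idChoice hmn w) = dPoly e hmn w := by
  unfold genMinor dPoly
  refine Finset.prod_congr rfl fun c _ => ?_
  have h1 : ∀ j : Fin (w c), (Matrix.of fun i k =>
      (X (e ⟨c.1, ((idChoice hmn w c j).1 i, (idChoice hmn w c j).2 k)⟩) :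
        MvPolynomial (Fin N) ℂ)).det = crn hmn (XM e) c := fun j => rfl
  rw [Finset.prod_congr rfl fun j _ => h1 j, Finset.prod_const, Finset.card_univ,
    Fintype.card_fin]

/-- the value of a monomial at a diagonal point -/
theorem aeval_monomial_dgD {R : Type} [CommRing R] [Algebra ℂ R]
    (e : (Σ a, Fin (m a) × Fin (n a)) ≃ Fin N) (D : (Σ a, Fin (m a)) → R) (κ : Fin N →₀ ℕ) :
    (∀ a (i : Fin (m a)) (k : Fin (n a)), (i : ℕ) ≠ k → κ (e ⟨a, (i, k)⟩) = 0) ∧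
      (∏ p, pt e (dgD n D) p ^ κ p) = ∏ c, D c ^ rowwt e κ c ∨
    (∏ p, pt e (dgD n D) p ^ κ p) = 0 := by
  by_cases h : ∀ a (i : Fin (m a)) (k : Fin (n a)), (i : ℕ) ≠ k → κ (e ⟨a, (i, k)⟩) = 0
  · left
    refine ⟨h, ?_⟩
    rw [← Equiv.prod_comp e, Fintype.prod_sigma, Fintype.prod_sigma]
    refine Finset.prod_congr rfl fun a _ => ?_
    rw [Fintype.prod_prod_type]
    refine Finset.prod_congr rfl fun i _ => ?_
    unfold rowwt
    rw [← Finset.prod_pow_eq_pow_sum]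
    refine Finset.prod_congr rfl fun k _ => ?_
    rw [or_pt]
    unfold dgD
    by_cases hik : (i : ℕ) = k
    · rw [if_pos hik]
    · rw [if_neg hik, h a i k hik, pow_zero, pow_zero]
  · right
    push Not at h
    obtain ⟨a, i, k, hik, hne⟩ := h
    refine Finset.prod_eq_zero (Finset.mem_univ (e ⟨a, (i, k)⟩)) ?_
    rw [or_pt]
    unfold dgD
    rw [if_neg hik, zero_pow hne]

theorem or_aeval_dPoly {R : Type} [CommRing R] [Algebra ℂ R]
    (e : (Σ a, Fin (m a) × Fin (n a)) ≃ Fin N) (hmn : ∀ a, m a ≤ n a)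
    (Y : ∀ a, Matrix (Fin (m a)) (Fin (n a)) R) (w : (Σ a, Fin (m a)) → ℕ) :
    aeval (pt e Y) (dPoly e hmn w) = ∏ c, crn hmn Y c ^ w c := by
  unfold dPoly
  rw [map_prod]
  refine Finset.prod_congr rfl fun c _ => ?_
  rw [map_pow, aeval_crn]

theorem or_wtw_mono {w w' : (Σ a, Fin (m a)) → ℕ} (h : ∀ c, w' c ≤ w c)
    (c : Σ a, Fin (m a)) : wtw w' c ≤ wtw w c := by
  unfold wtw
  refine Finset.sum_le_sum fun i _ => ?_
  split_ifs
  · exact h _
  · exact le_rfl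

/-- the equivalence at a diagonal point -/
theorem or_diag (e : (Σ a, Fin (m a) × Fin (n a)) ≃ Fin N) (hmn : ∀ a, m a ≤ n a)
    (I : Ideal (MvPolynomial (Fin N) ℂ)) (hI : GLStable e I)
    (A : Finset ((Σ a, Fin (m a)) → ℕ)) (hA : ∀ w ∈ A, dPoly e hmn w ∈ I)
    (hA' : ∀ w, dPoly e hmn w ∈ I → ∃ w' ∈ A, ∀ c, w' c ≤ w c)
    (D : (Σ a, Fin (m a)) → PowerSeries ℂ)
    (hD : ∀ a, ∀ i j : Fin (m a), i ≤ j → D ⟨a, i⟩ ∣ D ⟨a, j⟩) (k : ℕ) :
    (∀ f ∈ I, (PowerSeries.X : PowerSeries ℂ) ^ k ∣ aeval (pt e (dgD n D)) f) ↔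
      ∀ f ∈ detSum e A, (PowerSeries.X : PowerSeries ℂ) ^ k ∣ aeval (pt e (dgD n D)) f := by
  constructor
  · intro h f hf
    have h1 : ∀ w ∈ A, (PowerSeries.X : PowerSeries ℂ) ^ k ∣ ∏ c, D c ^ wtw w c := by
      intro w hw
      rw [← prod_crn_dgD hmn D w, ← or_aeval_dPoly e hmn]
      exact h _ (hA w hw)
    have hle : detSum e A ≤ (Ideal.span {(PowerSeries.X : PowerSeries ℂ) ^ k}).comap
        (aeval (pt e (dgD n D)) : MvPolynomial (Fin N) ℂ →ₐ[ℂ] PowerSeries ℂ) := by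
      rw [detSum_eq_span, Ideal.span_le]
      rintro g ⟨w, hw, C, rfl⟩
      rw [SetLike.mem_coe, Ideal.mem_comap, Ideal.mem_span_singleton, aeval_genMinor]
      exact (h1 w hw).trans (dvd_prodMinor_dgD hmn D hD C)
    have h2 := hle hf
    rwa [Ideal.mem_comap, Ideal.mem_span_singleton] at h2
  · intro h f hf
    have h1 : ∀ w ∈ A, (PowerSeries.X : PowerSeries ℂ) ^ k ∣ ∏ c, D c ^ wtw w c := by
      intro w hw
      rw [← prod_crn_dgD hmn D w, ← or_aeval_dPoly e hmn]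
      refine h _ ?_
      rw [← genMinor_id, detSum_eq_span]
      exact Ideal.subset_span ⟨w, hw, _, rfl⟩
    have h2 : ∀ κ ∈ f.support, (PowerSeries.X : PowerSeries ℂ) ^ k ∣
        ∏ c, D c ^ rowwt e κ c := by
      intro κ hκ
      refine raise e hmn I hI
        (fun β => (PowerSeries.X : PowerSeries ℂ) ^ k ∣ ∏ c, D c ^ β c) ?_ ?_ f hf κ hκ
      · intro w hw
        obtain ⟨w', hw', hle⟩ := hA' w hw
        refine (h1 w' hw').trans ?_
        exact Finset.prod_dvd_prod_of_dvd _ _ fun c _ => pow_dvd_pow _ (or_wtw_mono hle c)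
      · intro a j i hji β hβ
        have h3 : ∀ x : (Σ a, Fin (m a)),
            ∏ c, D c ^ ((β + Pi.single x 1 : (Σ a, Fin (m a)) → ℕ) c) =
            (∏ c, D c ^ β c) * D x := by
          intro x
          have h4 : ∀ c, D c ^ ((β + Pi.single x 1 : (Σ a, Fin (m a)) → ℕ) c) =
              D c ^ β c * D c ^ ((Pi.single x 1 : (Σ a, Fin (m a)) → ℕ) c) := by
            intro c
            rw [Pi.add_apply, pow_add]
          rw [Finset.prod_congr rfl fun c _ => h4 c, Finset.prod_mul_distrib]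
          congr 1
          rw [Finset.prod_eq_single x]
          · rw [Pi.single_eq_same, pow_one]
          · intro c _ hc
            rw [Pi.single_eq_of_ne hc, pow_zero]
          · intro h
            exact absurd (Finset.mem_univ _) h
        rw [h3] at hβ ⊢
        exact hβ.trans (mul_dvd_mul_left _ (hD a j i hji.le))
    rw [f.as_sum, map_sum]
    refine Finset.dvd_sum fun κ hκ => ?_
    rw [aeval_monomial]
    refine Dvd.dvd.mul_left ?_ _
    have h5 : (κ.prod fun i k => pt e (dgD n D) i ^ k) = ∏ p, pt e (dgD n D) p ^ κ p := by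
      rw [Finsupp.prod_fintype]
      intro i
      rw [pow_zero]
    rw [h5]
    rcases aeval_monomial_dgD e D κ with ⟨-, h6⟩ | h6
    · rw [h6]
      exact h2 κ hκ
    · rw [h6]
      exact dvd_zero _

theorem ord_iff (e : (Σ a, Fin (m a) × Fin (n a)) ≃ Fin N) (hmn : ∀ a, m a ≤ n a)
    (I : Ideal (MvPolynomial (Fin N) ℂ)) (hI : GLStable e I)
    (A : Finset ((Σ a, Fin (m a)) → ℕ)) (hA : ∀ w ∈ A, dPoly e hmn w ∈ I)
    (hA' : ∀ w, dPoly e hmn w ∈ I → ∃ w' ∈ A, ∀ c, w' c ≤ w c)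
    (Y : ∀ a, Matrix (Fin (m a)) (Fin (n a)) (PowerSeries ℂ)) (k : ℕ) :
    (∀ f ∈ I, (PowerSeries.X : PowerSeries ℂ) ^ k ∣ aeval (pt e Y) f) ↔
      ∀ f ∈ detSum e A, (PowerSeries.X : PowerSeries ℂ) ^ k ∣ aeval (pt e Y) f := by
  choose D g g' h h' hD hY hY' using fun a => smith (m a) (n a) (hmn a) (Y a)
  set D' : (Σ a, Fin (m a)) → PowerSeries ℂ := fun c => D c.1 c.2 with hD'
  have hdg : ∀ a, dgD n D' a =
      Matrix.of fun (i : Fin (m a)) (k : Fin (n a)) => if (i : ℕ) = k then D a i else 0 :=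
    fun a => rfl
  have hY1 : Y = fun a => g a * dgD n D' a * h a := funext fun a => by rw [hdg]; exact hY a
  have hY2 : dgD n D' = fun a => g' a * Y a * h' a := funext fun a => by rw [hdg]; exact hY' a
  have key : ∀ J : Ideal (MvPolynomial (Fin N) ℂ), GLStable e J →
      ((∀ f ∈ J, (PowerSeries.X : PowerSeries ℂ) ^ k ∣ aeval (pt e Y) f) ↔
        ∀ f ∈ J, (PowerSeries.X : PowerSeries ℂ) ^ k ∣ aeval (pt e (dgD n D')) f) := by
    intro J hJ
    constructor
    · intro h1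
      have h2 := dvd_act e J hJ Y k h1 g' h'
      rwa [← hY2] at h2
    · intro h1
      have h2 := dvd_act e J hJ (dgD n D') k h1 g h
      rwa [← hY1] at h2
  rw [key I hI, key _ (glStable_detSum e A)]
  exact or_diag e hmn I hI A hA hA' D' (fun a i j hij => hD a i j hij) k

end MotMono
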