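import Pool.Agent.Lib.MP_4e5fcd_ag.Inv.Base

/-! # INV-PolyF: polynomial functions

PROOFS. Closure properties: choose the polynomials (`PolyFun.comp`: substitute the polynomials, `aeval`,
`eval₂Hom`/`bind₁`). `PolyFun.mul_eq_zero`: `p * q` vanishes at all points, so `p * q = 0`
(`MvPolynomial.funext`), `p = 0` or `q = 0`. `PolyFun.exists_prod_ne_zero`: induction on the finset with
`PolyFun.mul_eq_zero`. -/

open MvPolynomial

namespace MotMono

variable {σ τ ι : Type}

theorem PolyFun.const (c : ℂ) : PolyFun fun _ : σ → ℂ => c := ⟨C c, fun x => by simp⟩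

theorem PolyFun.coord (v : σ) : PolyFun fun x : σ → ℂ => x v := ⟨X v, fun x => by simp⟩

theorem PolyFun.add {F G : (σ → ℂ) → ℂ} (hF : PolyFun F) (hG : PolyFun G) :
    PolyFun fun x => F x + G x := by
  obtain ⟨p, hp⟩ := hF
  obtain ⟨q, hq⟩ := hG
  exact ⟨p + q, fun x => by simp [hp, hq]⟩

theorem PolyFun.sub {F G : (σ → ℂ) → ℂ} (hF : PolyFun F) (hG : PolyFun G) :
    PolyFun fun x => F x - G x := by
  obtain ⟨p, hp⟩ := hF
  obtain ⟨q, hq⟩ := hG
  exact ⟨p - q, fun x => by simp [hp, hq]⟩

theorem PolyFun.mul {F G : (σ → ℂ) → ℂ} (hF : PolyFun F) (hG : PolyFun G) :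
    PolyFun fun x => F x * G x := by
  obtain ⟨p, hp⟩ := hF
  obtain ⟨q, hq⟩ := hG
  exact ⟨p * q, fun x => by simp [hp, hq]⟩

theorem PolyFun.pow {F : (σ → ℂ) → ℂ} (hF : PolyFun F) (k : ℕ) : PolyFun fun x => F x ^ k := by
  obtain ⟨p, hp⟩ := hF
  exact ⟨p ^ k, fun x => by simp [hp]⟩

theorem PolyFun.sum (T : Finset ι) {F : ι → (σ → ℂ) → ℂ} (hF : ∀ i ∈ T, PolyFun (F i)) :
    PolyFun fun x => ∑ i ∈ T, F i x := by
  classical
  induction T using Finset.induction_on with
  | empty => simpa using PolyFun.const (σ := σ) 0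
  | insert a T ha ih =>
    simp only [Finset.sum_insert ha]
    exact (hF a (Finset.mem_insert_self a T)).add
      (ih fun i hi => hF i (Finset.mem_insert_of_mem hi))

theorem PolyFun.prod (T : Finset ι) {F : ι → (σ → ℂ) → ℂ} (hF : ∀ i ∈ T, PolyFun (F i)) :
    PolyFun fun x => ∏ i ∈ T, F i x := by
  classical
  induction T using Finset.induction_on with
  | empty => simpa using PolyFun.const (σ := σ) 1
  | insert a T ha ih =>
    simp only [Finset.prod_insert ha]
    exact (hF a (Finset.mem_insert_self a T)).mul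
      (ih fun i hi => hF i (Finset.mem_insert_of_mem hi))

theorem PolyFun.comp {F : (σ → ℂ) → ℂ} (hF : PolyFun F) {g : (τ → ℂ) → (σ → ℂ)}
    (hg : ∀ v, PolyFun fun y => g y v) : PolyFun fun y => F (g y) := by
  obtain ⟨p, hp⟩ := hF
  choose q hq using hg
  refine ⟨aeval q p, fun y => ?_⟩
  have h1 : g y = fun v => eval y (q v) := _root_.funext fun v => (hq v y).symm
  change eval y (aeval q p) = F (g y)
  rw [← hp, h1]
  have h2 : (eval y).comp ((aeval q : MvPolynomial σ ℂ →ₐ[ℂ] MvPolynomial τ ℂ) :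
      MvPolynomial σ ℂ →+* MvPolynomial τ ℂ) = eval fun v => eval y (q v) := by
    apply MvPolynomial.ringHom_ext
    · intro r
      simp
    · intro i
      simp
  exact RingHom.congr_fun h2 p

theorem PolyFun.mul_eq_zero {F G : (σ → ℂ) → ℂ} (hF : PolyFun F) (hG : PolyFun G)
    (h : ∀ x, F x * G x = 0) : (∀ x, F x = 0) ∨ ∀ x, G x = 0 := by
  obtain ⟨p, hp⟩ := hF
  obtain ⟨q, hq⟩ := hG
  have h1 : p * q = 0 := by
    apply MvPolynomial.funext
    intro x
    have := h x
    rw [← hp, ← hq] at this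
    simpa using this
  rcases _root_.mul_eq_zero.mp h1 with h2 | h2
  · left
    intro x
    rw [← hp, h2, map_zero]
  · right
    intro x
    rw [← hq, h2, map_zero]

/-- a finite product of polynomial functions, none of them identically zero, is not identically
zero -/
theorem PolyFun.exists_prod_ne_zero (T : Finset ι) {F : ι → (σ → ℂ) → ℂ}
    (hF : ∀ i ∈ T, PolyFun (F i)) (h : ∀ i ∈ T, ∃ x, F i x ≠ 0) : ∃ x, ∏ i ∈ T, F i x ≠ 0 := by
  classical
  induction T using Finset.induction_on with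
  | empty => exact ⟨0, by simp⟩
  | insert a T ha ih =>
    obtain ⟨x, hx⟩ := h a (Finset.mem_insert_self a T)
    obtain ⟨y, hy⟩ := ih (fun i hi => hF i (Finset.mem_insert_of_mem hi))
      (fun i hi => h i (Finset.mem_insert_of_mem hi))
    by_contra hcon
    push Not at hcon
    simp only [Finset.prod_insert ha] at hcon
    rcases PolyFun.mul_eq_zero (hF a (Finset.mem_insert_self a T))
      (PolyFun.prod T fun i hi => hF i (Finset.mem_insert_of_mem hi)) hcon with h1 | h1
    · exact hx (h1 x)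
    · exact hy (h1 y)

end MotMono
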