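import Pool.Agent.Lib.MP_4e5fcd_ag.Inv.Shift
import Pool.Agent.Lib.MP_4e5fcd_ag.Inv.LemB2

/-! # INV-Step: one step of the raising process

PROOF. Let `M` be the product of `((Σ a, Fin (m a)) → ℕ)` and `((Σ a, Fin (n a)) → ℕ)` and
`W (e ⟨a, (i, k)⟩) = (Pi.single ⟨a, i⟩ 1, Pi.single ⟨a, k⟩ 1)`, i.e.
`W p = (Pi.single ⟨(e.symm p).1, (e.symm p).2.1⟩ 1, Pi.single ⟨(e.symm p).1, (e.symm p).2.2⟩ 1)`. Then
`(κ.sum fun p k => k • W p) = (rowwt e κ, colwt e κ)`.
Suppose `f` is not `RowInv`: there are `a`, `j < i`, `c`, `M` with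
`eval (pt e (update M a (transvection i j c * M a))) f ≠ eval (pt e M) f`. Apply `exists_shift` with
`S` = the set of all `e ⟨a, (i, k)⟩`, `τ (e ⟨a, (i, k)⟩) = e ⟨a, (j, k)⟩` (and anything outside `S`; e.g.
`τ p = if h : (e.symm p).1 = a then e ⟨a, (j, Fin.cast (by rw [h]) (e.symm p).2.2)⟩ else p`),
`ε = (Pi.single ⟨a, i⟩ 1, 0)`, `ε' = (Pi.single ⟨a, j⟩ 1, 0)`. The substitution
`X p ↦ X p + C c * X (τ p)` (`p ∈ S`) is `glSub e (update 1 a (transvection i j c)) 1`, which
preserves `I` (`det (transvection i j c) = 1`: `Matrix.det_transvection_of_ne`), and its value at the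
point `M` is the value at `update M a (transvection i j c * M a)`. The first alternative of
`exists_shift` contradicts the choice of `c`, `M`; the second one gives `f'` with
`(β₁, β₁') + k • ε = (β, β') + k • ε'`: here one must see that `rowwt` and `colwt` are constant on
the support of `f'`, which follows since addition in `ℕ` is cancellative; take `β₁`, `β₁'` the values
at some element of the (nonempty) support. The same for columns, with
`glSub e 1 (update 1 a (transvection j l c))`, `S` = all `e ⟨a, (i, l)⟩`, `τ (e ⟨a, (i, l)⟩) = e ⟨a, (i, j)⟩`,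
`ε = (0, Pi.single ⟨a, l⟩ 1)`, `ε' = (0, Pi.single ⟨a, j⟩ 1)`. -/

open MvPolynomial

namespace MotMono

variable {s N : ℕ} {m n : Fin s → ℕ}

private noncomputable def stepW (e : (Σ a, Fin (m a) × Fin (n a)) ≃ Fin N) (p : Fin N) :
    ((Σ a, Fin (m a)) → ℕ) × ((Σ a, Fin (n a)) → ℕ) :=
  (Pi.single ⟨(e.symm p).1, (e.symm p).2.1⟩ 1, Pi.single ⟨(e.symm p).1, (e.symm p).2.2⟩ 1)

private theorem stepW_apply (e : (Σ a, Fin (m a) × Fin (n a)) ≃ Fin N)
    (y : Σ a, Fin (m a) × Fin (n a)) :
    stepW e (e y) = (Pi.single ⟨y.1, y.2.1⟩ 1, Pi.single ⟨y.1, y.2.2⟩ 1) := by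
  unfold stepW
  rw [Equiv.symm_apply_apply]

private theorem step_pt (e : (Σ a, Fin (m a) × Fin (n a)) ≃ Fin N)
    (M : ∀ a, Matrix (Fin (m a)) (Fin (n a)) ℂ) (y : Σ a, Fin (m a) × Fin (n a)) :
    pt e M (e y) = M y.1 y.2.1 y.2.2 := by
  unfold pt
  rw [Equiv.symm_apply_apply]

private theorem step_gl (e : (Σ a, Fin (m a) × Fin (n a)) ≃ Fin N)
    (g : ∀ a, Matrix (Fin (m a)) (Fin (m a)) ℂ) (h : ∀ a, Matrix (Fin (n a)) (Fin (n a)) ℂ)
    (y : Σ a, Fin (m a) × Fin (n a)) :
    glSub e g h (X (e y)) = ∑ i, ∑ k, C (g y.1 y.2.1 i * h y.1 k y.2.2) *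
      X (e ⟨y.1, (i, k)⟩) := by
  unfold glSub
  rw [aeval_X, Equiv.symm_apply_apply]

private theorem stepW_sum (e : (Σ a, Fin (m a) × Fin (n a)) ≃ Fin N) (κ : Fin N →₀ ℕ) :
    (κ.sum fun p k => k • stepW e p) = (rowwt e κ, colwt e κ) := by
  rw [Finsupp.sum_fintype κ (fun p k => k • stepW e p) (fun p => zero_smul ℕ _),
    ← Equiv.sum_comp e]
  simp only [stepW_apply]
  ext c
  · rw [Prod.fst_sum, Finset.sum_apply]
    simp only [Prod.smul_fst, Pi.smul_apply, smul_eq_mul]
    rw [Fintype.sum_sigma]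
    simp only [Fintype.sum_prod_type]
    have h1 : ∀ (a : Fin s) (i : Fin (m a)),
        (∑ k : Fin (n a), κ (e ⟨a, (i, k)⟩) * (Pi.single (⟨a, i⟩ : Σ a, Fin (m a)) (1 : ℕ) :
          (Σ a, Fin (m a)) → ℕ) c) =
        (fun d : (Σ a, Fin (m a)) => if c = d then
          (∑ k : Fin (n d.1), κ (e ⟨d.1, (d.2, k)⟩)) else 0) ⟨a, i⟩ := by
      intro a i
      simp only [Pi.single_apply, ← Finset.sum_mul]
      by_cases h : c = ⟨a, i⟩
      · simp [h]
      · simp [h]
    simp only [h1]
    rw [← Fintype.sum_sigma (fun d : (Σ a, Fin (m a)) => if c = d then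
          (∑ k : Fin (n d.1), κ (e ⟨d.1, (d.2, k)⟩)) else 0)]
    rw [Finset.sum_ite_eq]
    simp [rowwt]
  · rw [Prod.snd_sum, Finset.sum_apply]
    simp only [Prod.smul_snd, Pi.smul_apply, smul_eq_mul]
    rw [Fintype.sum_sigma]
    simp only [Fintype.sum_prod_type_right]
    have h1 : ∀ (a : Fin s) (k : Fin (n a)),
        (∑ i : Fin (m a), κ (e ⟨a, (i, k)⟩) * (Pi.single (⟨a, k⟩ : Σ a, Fin (n a)) (1 : ℕ) :
          (Σ a, Fin (n a)) → ℕ) c) =
        (fun d : (Σ a, Fin (n a)) => if c = d then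
          (∑ i : Fin (m d.1), κ (e ⟨d.1, (i, d.2)⟩)) else 0) ⟨a, k⟩ := by
      intro a k
      simp only [Pi.single_apply, ← Finset.sum_mul]
      by_cases h : c = ⟨a, k⟩
      · simp [h]
      · simp [h]
    simp only [h1]
    rw [← Fintype.sum_sigma (fun d : (Σ a, Fin (n a)) => if c = d then
          (∑ i : Fin (m d.1), κ (e ⟨d.1, (i, d.2)⟩)) else 0)]
    rw [Finset.sum_ite_eq]
    simp [colwt]

/-! ### Rows -/

private def stepR (e : (Σ a, Fin (m a) × Fin (n a)) ≃ Fin N) (a : Fin s) (j : Fin (m a))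
    (p : Fin N) : Fin N :=
  e ⟨(e.symm p).1, (Function.update (fun (a' : Fin s) (i' : Fin (m a')) => i') a (fun _ => j)
    (e.symm p).1 (e.symm p).2.1, (e.symm p).2.2)⟩

private theorem stepR_apply (e : (Σ a, Fin (m a) × Fin (n a)) ≃ Fin N) (a : Fin s)
    (j i : Fin (m a)) (k : Fin (n a)) : stepR e a j (e ⟨a, (i, k)⟩) = e ⟨a, (j, k)⟩ := by
  unfold stepR
  rw [Equiv.symm_apply_apply]
  simp

private noncomputable def stepRS (e : (Σ a, Fin (m a) × Fin (n a)) ≃ Fin N) (a : Fin s)
    (i : Fin (m a)) : Finset (Fin N) := Finset.univ.image fun k : Fin (n a) => e ⟨a, (i, k)⟩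

private theorem mem_stepRS (e : (Σ a, Fin (m a) × Fin (n a)) ≃ Fin N) (a : Fin s)
    (i : Fin (m a)) (y : Σ a, Fin (m a) × Fin (n a)) :
    e y ∈ stepRS e a i ↔ (⟨y.1, y.2.1⟩ : Σ a, Fin (m a)) = ⟨a, i⟩ := by
  unfold stepRS
  simp only [Finset.mem_image, Finset.mem_univ, true_and, EmbeddingLike.apply_eq_iff_eq]
  constructor
  · rintro ⟨k, rfl⟩
    rfl
  · obtain ⟨a', i', k'⟩ := y
    intro h
    obtain ⟨rfl, h2⟩ := Sigma.mk.inj_iff.1 h
    obtain rfl := eq_of_heq h2
    exact ⟨k', rfl⟩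

private theorem stepR_sub (e : (Σ a, Fin (m a) × Fin (n a)) ≃ Fin N) (a : Fin s)
    (j i : Fin (m a)) (c : ℂ) :
    (aeval (fun p => if p ∈ stepRS e a i then X p + C c * X (stepR e a j p) else X p) :
      MvPolynomial (Fin N) ℂ →ₐ[ℂ] MvPolynomial (Fin N) ℂ) =
    glSub e (Function.update (fun _ => 1) a (Matrix.transvection i j c)) (fun _ => 1) := by
  apply MvPolynomial.algHom_ext
  intro p
  obtain ⟨⟨a', i', k'⟩, rfl⟩ := e.surjective p
  rw [aeval_X, step_gl]
  simp only [mem_stepRS]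
  by_cases ha : a' = a
  · subst ha
    rw [Function.update_self]
    have h1 : ∀ x : Fin (m a'), (∑ k : Fin (n a'),
        (C (Matrix.transvection i j c i' x * (1 : Matrix (Fin (n a')) (Fin (n a')) ℂ) k k') *
          X (e ⟨a', (x, k)⟩) : MvPolynomial (Fin N) ℂ)) =
        C (Matrix.transvection i j c i' x) * X (e ⟨a', (x, k')⟩) := by
      intro x
      rw [Finset.sum_eq_single k']
      · simp
      · intro b _ hb
        simp [Matrix.one_apply_ne hb]
      · simp
    simp only [h1]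
    simp only [Matrix.transvection, Matrix.add_apply, Matrix.one_apply, Matrix.single_apply,
      C_add, add_mul, Finset.sum_add_distrib]
    have h2 : (∑ x : Fin (m a'), (C (if i' = x then (1 : ℂ) else 0) * X (e ⟨a', (x, k')⟩) :
        MvPolynomial (Fin N) ℂ)) = X (e ⟨a', (i', k')⟩) := by
      rw [Finset.sum_eq_single i']
      · simp
      · intro b _ hb
        simp [Ne.symm hb]
      · simp
    rw [h2]
    by_cases hi : i' = i
    · subst hi
      rw [stepR_apply]
      have h3 : (∑ x : Fin (m a'), (C (if i' = i' ∧ j = x then c else 0) * X (e ⟨a', (x, k')⟩) :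
          MvPolynomial (Fin N) ℂ)) = C c * X (e ⟨a', (j, k')⟩) := by
        rw [Finset.sum_eq_single j]
        · simp
        · intro b _ hb
          simp [Ne.symm hb]
        · simp
      rw [h3]
      simp
    · have h3 : (∑ x : Fin (m a'), (C (if i = i' ∧ j = x then c else 0) * X (e ⟨a', (x, k')⟩) :
          MvPolynomial (Fin N) ℂ)) = 0 := by
        apply Finset.sum_eq_zero
        intro x _
        simp [Ne.symm hi]
      rw [h3]
      simp [hi]
  · rw [Function.update_of_ne ha]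
    have h0 : (⟨a', i'⟩ : Σ a, Fin (m a)) ≠ ⟨a, i⟩ := by
      intro h
      exact ha (Sigma.mk.inj_iff.1 h).1
    rw [if_neg h0]
    rw [Finset.sum_eq_single i']
    · rw [Finset.sum_eq_single k']
      · simp
      · intro b _ hb
        simp [Matrix.one_apply_ne hb]
      · simp
    · intro b _ hb
      apply Finset.sum_eq_zero
      intro k _
      simp [Matrix.one_apply_ne (Ne.symm hb)]
    · simp

private theorem stepR_eval (e : (Σ a, Fin (m a) × Fin (n a)) ≃ Fin N) (a : Fin s)
    (j i : Fin (m a)) (c : ℂ) (f : MvPolynomial (Fin N) ℂ)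
    (M : ∀ a, Matrix (Fin (m a)) (Fin (n a)) ℂ) :
    eval (pt e M) (aeval (fun p => if p ∈ stepRS e a i then X p + C c * X (stepR e a j p)
      else X p) f : MvPolynomial (Fin N) ℂ) =
    eval (pt e (Function.update M a (Matrix.transvection i j c * M a))) f := by
  rw [aeval_def, eval_eval₂]
  have h1 : eval (pt e (Function.update M a (Matrix.transvection i j c * M a))) f =
      eval₂ (RingHom.id ℂ) (pt e (Function.update M a (Matrix.transvection i j c * M a))) f := rfl
  rw [h1]
  congr 1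
  · ext x; simp
  · funext p
    obtain ⟨⟨a', i', k'⟩, rfl⟩ := e.surjective p
    rw [step_pt]
    simp only [mem_stepRS]
    by_cases ha : a' = a
    · subst ha
      rw [Function.update_self]
      by_cases hi : i' = i
      · subst hi
        rw [if_pos rfl, stepR_apply]
        simp [Matrix.transvection, Matrix.add_mul, step_pt]
      · have h0 : (⟨a', i'⟩ : Σ a, Fin (m a)) ≠ ⟨a', i⟩ := by
          intro h
          exact hi (eq_of_heq (Sigma.mk.inj_iff.1 h).2)
        rw [if_neg h0]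
        simp [Matrix.transvection, Matrix.add_mul, step_pt, hi]
    · have h0 : (⟨a', i'⟩ : Σ a, Fin (m a)) ≠ ⟨a, i⟩ := by
        intro h
        exact ha (Sigma.mk.inj_iff.1 h).1
      rw [if_neg h0, Function.update_of_ne ha]
      simp [step_pt]

/-! ### Columns -/

private def stepC (e : (Σ a, Fin (m a) × Fin (n a)) ≃ Fin N) (a : Fin s) (j : Fin (n a))
    (p : Fin N) : Fin N :=
  e ⟨(e.symm p).1, ((e.symm p).2.1, Function.update (fun (a' : Fin s) (i' : Fin (n a')) => i') a
    (fun _ => j) (e.symm p).1 (e.symm p).2.2)⟩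

private theorem stepC_apply (e : (Σ a, Fin (m a) × Fin (n a)) ≃ Fin N) (a : Fin s)
    (j l : Fin (n a)) (i : Fin (m a)) : stepC e a j (e ⟨a, (i, l)⟩) = e ⟨a, (i, j)⟩ := by
  unfold stepC
  rw [Equiv.symm_apply_apply]
  simp

private noncomputable def stepCS (e : (Σ a, Fin (m a) × Fin (n a)) ≃ Fin N) (a : Fin s)
    (l : Fin (n a)) : Finset (Fin N) := Finset.univ.image fun i : Fin (m a) => e ⟨a, (i, l)⟩

private theorem mem_stepCS (e : (Σ a, Fin (m a) × Fin (n a)) ≃ Fin N) (a : Fin s)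
    (l : Fin (n a)) (y : Σ a, Fin (m a) × Fin (n a)) :
    e y ∈ stepCS e a l ↔ (⟨y.1, y.2.2⟩ : Σ a, Fin (n a)) = ⟨a, l⟩ := by
  unfold stepCS
  simp only [Finset.mem_image, Finset.mem_univ, true_and, EmbeddingLike.apply_eq_iff_eq]
  constructor
  · rintro ⟨k, rfl⟩
    rfl
  · obtain ⟨a', i', k'⟩ := y
    intro h
    obtain ⟨rfl, h2⟩ := Sigma.mk.inj_iff.1 h
    obtain rfl := eq_of_heq h2
    exact ⟨i', rfl⟩

private theorem stepC_sub (e : (Σ a, Fin (m a) × Fin (n a)) ≃ Fin N) (a : Fin s)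
    (j l : Fin (n a)) (c : ℂ) :
    (aeval (fun p => if p ∈ stepCS e a l then X p + C c * X (stepC e a j p) else X p) :
      MvPolynomial (Fin N) ℂ →ₐ[ℂ] MvPolynomial (Fin N) ℂ) =
    glSub e (fun _ => 1) (Function.update (fun _ => 1) a (Matrix.transvection j l c)) := by
  apply MvPolynomial.algHom_ext
  intro p
  obtain ⟨⟨a', i', k'⟩, rfl⟩ := e.surjective p
  rw [aeval_X, step_gl]
  simp only [mem_stepCS]
  by_cases ha : a' = a
  · subst ha
    rw [Function.update_self, Finset.sum_comm]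
    have h1 : ∀ x : Fin (n a'), (∑ k : Fin (m a'),
        (C ((1 : Matrix (Fin (m a')) (Fin (m a')) ℂ) i' k * Matrix.transvection j l c x k') *
          X (e ⟨a', (k, x)⟩) : MvPolynomial (Fin N) ℂ)) =
        C (Matrix.transvection j l c x k') * X (e ⟨a', (i', x)⟩) := by
      intro x
      rw [Finset.sum_eq_single i']
      · simp
      · intro b _ hb
        simp [Matrix.one_apply_ne (Ne.symm hb)]
      · simp
    simp only [h1]
    simp only [Matrix.transvection, Matrix.add_apply, Matrix.one_apply, Matrix.single_apply,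
      C_add, add_mul, Finset.sum_add_distrib]
    have h2 : (∑ x : Fin (n a'), (C (if x = k' then (1 : ℂ) else 0) * X (e ⟨a', (i', x)⟩) :
        MvPolynomial (Fin N) ℂ)) = X (e ⟨a', (i', k')⟩) := by
      rw [Finset.sum_eq_single k']
      · simp
      · intro b _ hb
        simp [hb]
      · simp
    rw [h2]
    by_cases hi : k' = l
    · subst hi
      rw [stepC_apply]
      have h3 : (∑ x : Fin (n a'), (C (if j = x ∧ k' = k' then c else 0) * X (e ⟨a', (i', x)⟩) :
          MvPolynomial (Fin N) ℂ)) = C c * X (e ⟨a', (i', j)⟩) := by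
        rw [Finset.sum_eq_single j]
        · simp
        · intro b _ hb
          simp [Ne.symm hb]
        · simp
      rw [h3]
      simp
    · have h3 : (∑ x : Fin (n a'), (C (if j = x ∧ l = k' then c else 0) * X (e ⟨a', (i', x)⟩) :
          MvPolynomial (Fin N) ℂ)) = 0 := by
        apply Finset.sum_eq_zero
        intro x _
        simp [Ne.symm hi]
      rw [h3]
      simp [hi]
  · rw [Function.update_of_ne ha]
    have h0 : (⟨a', k'⟩ : Σ a, Fin (n a)) ≠ ⟨a, l⟩ := by
      intro h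
      exact ha (Sigma.mk.inj_iff.1 h).1
    rw [if_neg h0]
    rw [Finset.sum_eq_single i']
    · rw [Finset.sum_eq_single k']
      · simp
      · intro b _ hb
        simp [Matrix.one_apply_ne hb]
      · simp
    · intro b _ hb
      apply Finset.sum_eq_zero
      intro k _
      simp [Matrix.one_apply_ne (Ne.symm hb)]
    · simp

private theorem stepC_eval (e : (Σ a, Fin (m a) × Fin (n a)) ≃ Fin N) (a : Fin s)
    (j l : Fin (n a)) (c : ℂ) (f : MvPolynomial (Fin N) ℂ)
    (M : ∀ a, Matrix (Fin (m a)) (Fin (n a)) ℂ) :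
    eval (pt e M) (aeval (fun p => if p ∈ stepCS e a l then X p + C c * X (stepC e a j p)
      else X p) f : MvPolynomial (Fin N) ℂ) =
    eval (pt e (Function.update M a (M a * Matrix.transvection j l c))) f := by
  rw [aeval_def, eval_eval₂]
  have h1 : eval (pt e (Function.update M a (M a * Matrix.transvection j l c))) f =
      eval₂ (RingHom.id ℂ) (pt e (Function.update M a (M a * Matrix.transvection j l c))) f := rfl
  rw [h1]
  congr 1
  · ext x; simp
  · funext p
    obtain ⟨⟨a', i', k'⟩, rfl⟩ := e.surjective p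
    rw [step_pt]
    simp only [mem_stepCS]
    by_cases ha : a' = a
    · subst ha
      rw [Function.update_self]
      by_cases hi : k' = l
      · subst hi
        rw [if_pos rfl, stepC_apply]
        simp [Matrix.transvection, Matrix.mul_add, step_pt]
        ring
      · have h0 : (⟨a', k'⟩ : Σ a, Fin (n a)) ≠ ⟨a', l⟩ := by
          intro h
          exact hi (eq_of_heq (Sigma.mk.inj_iff.1 h).2)
        rw [if_neg h0]
        simp [Matrix.transvection, Matrix.mul_add, step_pt, hi]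
    · have h0 : (⟨a', k'⟩ : Σ a, Fin (n a)) ≠ ⟨a, l⟩ := by
        intro h
        exact ha (Sigma.mk.inj_iff.1 h).1
      rw [if_neg h0, Function.update_of_ne ha]
      simp [step_pt]

theorem raise_step (e : (Σ a, Fin (m a) × Fin (n a)) ≃ Fin N)
    (I : Ideal (MvPolynomial (Fin N) ℂ)) (hI : GLStable e I) (f : MvPolynomial (Fin N) ℂ)
    (hf : f ∈ I) (β : (Σ a, Fin (m a)) → ℕ) (β' : (Σ a, Fin (n a)) → ℕ)
    (hβ : ∀ κ ∈ f.support, rowwt e κ = β ∧ colwt e κ = β') :
    (RowInv e f ∧ ColInv e f) ∨ ∃ f' ∈ I, f' ≠ 0 ∧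
      ∃ (β₁ : (Σ a, Fin (m a)) → ℕ) (β₁' : (Σ a, Fin (n a)) → ℕ),
        (∀ κ ∈ f'.support, rowwt e κ = β₁ ∧ colwt e κ = β₁') ∧
        ((β₁' = β' ∧ ∃ (a : Fin s) (j i : Fin (m a)) (k : ℕ), j < i ∧ 0 < k ∧
            β₁ + Pi.single ⟨a, i⟩ k = β + Pi.single ⟨a, j⟩ k) ∨
          (β₁ = β ∧ ∃ (a : Fin s) (j l : Fin (n a)) (k : ℕ), j < l ∧ 0 < k ∧
            β₁' + Pi.single ⟨a, l⟩ k = β' + Pi.single ⟨a, j⟩ k)) := by
  have hW0 : ∀ κ ∈ f.support, (κ.sum fun p k => k • stepW e p) = (β, β') := by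
    intro κ hκ
    rw [stepW_sum, (hβ κ hκ).1, (hβ κ hκ).2]
  by_cases hR : RowInv e f
  · by_cases hC : ColInv e f
    · exact Or.inl ⟨hR, hC⟩
    · right
      unfold ColInv at hC
      push Not at hC
      obtain ⟨a, j, l, hjl, c₀, M₀, hne⟩ := hC
      have hWW : ∀ p ∈ stepCS e a l, stepW e (stepC e a j p) + (0, Pi.single ⟨a, l⟩ 1) =
          stepW e p + (0, Pi.single ⟨a, j⟩ 1) := by
        intro p hp
        obtain ⟨⟨a', i', k'⟩, rfl⟩ := e.surjective p
        rw [mem_stepCS] at hp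
        obtain ⟨h1, h2⟩ := Sigma.mk.inj_iff.1 hp
        dsimp only at h1
        subst h1
        obtain rfl := eq_of_heq h2
        dsimp only
        rw [stepC_apply]
        simp only [stepW_apply, Prod.mk_add_mk, add_zero]
        rw [add_comm]
      have hII : ∀ c : ℂ, ∀ f ∈ I, (aeval (fun p => if p ∈ stepCS e a l then
          X p + C c * X (stepC e a j p) else X p) f : MvPolynomial (Fin N) ℂ) ∈ I := by
        intro c g hg
        rw [stepC_sub]
        refine hI _ _ ?_ ?_ g hg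
        · intro a'
          simp
        · intro a'
          by_cases ha : a' = a
          · subst ha
            rw [Function.update_self, Matrix.det_transvection_of_ne _ _ hjl.ne]
            exact one_ne_zero
          · rw [Function.update_of_ne ha]
            simp
      rcases exists_shift (stepW e) (stepCS e a l) (stepC e a j)
        (0, Pi.single ⟨a, l⟩ 1) (0, Pi.single ⟨a, j⟩ 1) hWW I hII f hf (β, β') hW0 with h | h
      · exfalso
        apply hne
        rw [← stepC_eval, h c₀]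
      · obtain ⟨k, hk, f', hf', hf0, hs⟩ := h
        refine ⟨f', hf', hf0, ?_⟩
        have hs' : ∀ κ ∈ f'.support, rowwt e κ = β ∧
            colwt e κ + Pi.single ⟨a, l⟩ k = β' + Pi.single ⟨a, j⟩ k := by
          intro κ hκ
          have h1 := hs κ hκ
          rw [stepW_sum] at h1
          have h2 := congrArg Prod.fst h1
          have h3 := congrArg Prod.snd h1
          simp only [Prod.fst_add, Prod.snd_add, Prod.smul_fst, Prod.smul_snd, smul_zero,
            add_zero] at h2 h3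
          refine ⟨h2, ?_⟩
          rw [← Pi.single_smul, ← Pi.single_smul] at h3
          simpa using h3
        obtain ⟨κ₀, hκ₀⟩ := (MvPolynomial.support_nonempty).2 hf0
        refine ⟨rowwt e κ₀, colwt e κ₀, ?_, Or.inr ⟨(hs' κ₀ hκ₀).1, a, j, l, k, hjl, hk,
          (hs' κ₀ hκ₀).2⟩⟩
        intro κ hκ
        refine ⟨(hs' κ hκ).1.trans (hs' κ₀ hκ₀).1.symm, ?_⟩
        exact add_right_cancel ((hs' κ hκ).2.trans (hs' κ₀ hκ₀).2.symm)
  · right
    unfold RowInv at hR
    push Not at hR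
    obtain ⟨a, j, i, hji, c₀, M₀, hne⟩ := hR
    have hWW : ∀ p ∈ stepRS e a i, stepW e (stepR e a j p) + (Pi.single ⟨a, i⟩ 1, 0) =
        stepW e p + (Pi.single ⟨a, j⟩ 1, 0) := by
      intro p hp
      obtain ⟨⟨a', i', k'⟩, rfl⟩ := e.surjective p
      rw [mem_stepRS] at hp
      obtain ⟨h1, h2⟩ := Sigma.mk.inj_iff.1 hp
      dsimp only at h1
      subst h1
      obtain rfl := eq_of_heq h2
      dsimp only
      rw [stepR_apply]
      simp only [stepW_apply, Prod.mk_add_mk, add_zero]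
      rw [add_comm]
    have hII : ∀ c : ℂ, ∀ f ∈ I, (aeval (fun p => if p ∈ stepRS e a i then
        X p + C c * X (stepR e a j p) else X p) f : MvPolynomial (Fin N) ℂ) ∈ I := by
      intro c g hg
      rw [stepR_sub]
      refine hI _ _ ?_ ?_ g hg
      · intro a'
        by_cases ha : a' = a
        · subst ha
          rw [Function.update_self, Matrix.det_transvection_of_ne _ _ hji.ne']
          exact one_ne_zero
        · rw [Function.update_of_ne ha]
          simp
      · intro a'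
        simp
    rcases exists_shift (stepW e) (stepRS e a i) (stepR e a j)
      (Pi.single ⟨a, i⟩ 1, 0) (Pi.single ⟨a, j⟩ 1, 0) hWW I hII f hf (β, β') hW0 with h | h
    · exfalso
      apply hne
      rw [← stepR_eval, h c₀]
    · obtain ⟨k, hk, f', hf', hf0, hs⟩ := h
      refine ⟨f', hf', hf0, ?_⟩
      have hs' : ∀ κ ∈ f'.support, colwt e κ = β' ∧
          rowwt e κ + Pi.single ⟨a, i⟩ k = β + Pi.single ⟨a, j⟩ k := by
        intro κ hκ
        have h1 := hs κ hκ
        rw [stepW_sum] at h1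
        have h2 := congrArg Prod.fst h1
        have h3 := congrArg Prod.snd h1
        simp only [Prod.fst_add, Prod.snd_add, Prod.smul_fst, Prod.smul_snd, smul_zero,
          add_zero] at h2 h3
        refine ⟨h3, ?_⟩
        rw [← Pi.single_smul, ← Pi.single_smul] at h2
        simpa using h2
      obtain ⟨κ₀, hκ₀⟩ := (MvPolynomial.support_nonempty).2 hf0
      refine ⟨rowwt e κ₀, colwt e κ₀, ?_, Or.inl ⟨(hs' κ₀ hκ₀).1, a, j, i, k, hji, hk,
        (hs' κ₀ hκ₀).2⟩⟩
      intro κ hκ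
      refine ⟨?_, (hs' κ hκ).1.trans (hs' κ₀ hκ₀).1.symm⟩
      exact add_right_cancel ((hs' κ hκ).2.trans (hs' κ₀ hκ₀).2.symm)

end MotMono
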