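import Pool.Agent.Lib.MP_4e5fcd_ag.Inv.Comp
import Pool.Agent.Lib.MP_4e5fcd_ag.Inv.Step
import Pool.Agent.Lib.MP_4e5fcd_ag.Inv.ClassB

/-! # INV-Raise: the row degrees of the monomials of the elements of a stable ideal -/

open MvPolynomial

namespace MotMono

variable {s N : ℕ} {m n : Fin s → ℕ}

theorem ra_steps (Pr : ((Σ a, Fin (m a)) → ℕ) → Prop)
    (hstep : ∀ (a : Fin s) (j i : Fin (m a)), j < i → ∀ β : (Σ a, Fin (m a)) → ℕ,
      Pr (β + Pi.single ⟨a, j⟩ 1) → Pr (β + Pi.single ⟨a, i⟩ 1))
    (a : Fin s) (j i : Fin (m a)) (hji : j < i) (k : ℕ) : ∀ β : (Σ a, Fin (m a)) → ℕ,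
      Pr (β + Pi.single ⟨a, j⟩ k) → Pr (β + Pi.single ⟨a, i⟩ k) := by
  induction k with
  | zero =>
    intro β h
    simpa using h
  | succ k ih =>
    intro β h
    have h1 : ∀ x : (Σ a, Fin (m a)), (Pi.single x (k + 1) : (Σ a, Fin (m a)) → ℕ) =
        Pi.single x k + Pi.single x 1 := by
      intro x
      rw [← Pi.single_add]
    rw [h1] at h ⊢
    have h2 := ih (β + Pi.single ⟨a, j⟩ 1) (by
      rw [add_assoc, add_comm (Pi.single (⟨a, j⟩ : Σ a, Fin (m a)) 1 : (Σ a, Fin (m a)) → ℕ)]
      exact h)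
    have h3 := hstep a j i hji (β + Pi.single ⟨a, i⟩ k) (by
      rw [add_assoc, add_comm (Pi.single (⟨a, i⟩ : Σ a, Fin (m a)) k : (Σ a, Fin (m a)) → ℕ),
        ← add_assoc]
      exact h2)
    rw [add_assoc] at h3
    exact h3

theorem ra_glSub_diag (e : (Σ a, Fin (m a) × Fin (n a)) ≃ Fin N)
    (g : ∀ a, Fin (m a) → ℂ) (h : ∀ a, Fin (n a) → ℂ) :
    glSub e (fun a => Matrix.diagonal (g a)) (fun a => Matrix.diagonal (h a)) =
      aeval fun x : Fin N => C (g (e.symm x).1 (e.symm x).2.1 * h (e.symm x).1 (e.symm x).2.2) *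
        (X x : MvPolynomial (Fin N) ℂ) := by
  have key : ∀ (a : Fin s) (i₀ : Fin (m a)) (k₀ : Fin (n a)),
      ∑ i, ∑ k, C (Matrix.diagonal (g a) i₀ i * Matrix.diagonal (h a) k k₀) *
        (X (e ⟨a, (i, k)⟩) : MvPolynomial (Fin N) ℂ) =
      C (g a i₀ * h a k₀) * X (e ⟨a, (i₀, k₀)⟩) := by
    intro a i₀ k₀
    rw [Finset.sum_eq_single i₀]
    · rw [Finset.sum_eq_single k₀]
      · rw [Matrix.diagonal_apply_eq, Matrix.diagonal_apply_eq]
      · intro k _ hk
        rw [Matrix.diagonal_apply_ne _ hk, mul_zero, map_zero, zero_mul]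
      · intro h
        exact absurd (Finset.mem_univ _) h
    · intro i _ hi
      refine Finset.sum_eq_zero fun k _ => ?_
      rw [Matrix.diagonal_apply_ne' _ hi, zero_mul, map_zero, zero_mul]
    · intro h
      exact absurd (Finset.mem_univ _) h
  unfold glSub
  congr 1
  funext x
  have h1 := key (e.symm x).1 (e.symm x).2.1 (e.symm x).2.2
  have h3 : e ⟨(e.symm x).1, ((e.symm x).2.1, (e.symm x).2.2)⟩ = x := e.apply_symm_apply x
  rw [h3] at h1
  exact h1

theorem ra_claim (e : (Σ a, Fin (m a) × Fin (n a)) ≃ Fin N) (hmn : ∀ a, m a ≤ n a)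
    (I : Ideal (MvPolynomial (Fin N) ℂ)) (hI : GLStable e I)
    (Pr : ((Σ a, Fin (m a)) → ℕ) → Prop)
    (hbase : ∀ w, dPoly e hmn w ∈ I → Pr (wtw w))
    (hstep : ∀ (a : Fin s) (j i : Fin (m a)), j < i → ∀ β : (Σ a, Fin (m a)) → ℕ,
      Pr (β + Pi.single ⟨a, j⟩ 1) → Pr (β + Pi.single ⟨a, i⟩ 1)) (K : ℕ) :
    ∀ (f : MvPolynomial (Fin N) ℂ) (_ : f ∈ I) (_ : f ≠ 0) (β : (Σ a, Fin (m a)) → ℕ)
      (β' : (Σ a, Fin (n a)) → ℕ) (_ : ∀ κ ∈ f.support, rowwt e κ = β ∧ colwt e κ = β')
      (_ : ∑ c, (c.2 : ℕ) * β c + ∑ c, (c.2 : ℕ) * β' c = K), Pr β := by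
  induction K using Nat.strong_induction_on with
  | _ K ih =>
    intro f hf hf0 β β' hβ hK
    rcases raise_step e I hI f hf β β' hβ with ⟨hr, hc⟩ | ⟨f', hf', hf'0, β₁, β₁', hβ₁, hmove⟩
    · obtain ⟨w, c, hc0, hfw, rfl⟩ := classify e hmn f hf0 β (fun κ hκ => (hβ κ hκ).1) hr hc
      refine hbase w ?_
      have h1 : C c⁻¹ * f = dPoly e hmn w := by
        rw [hfw, ← mul_assoc, ← map_mul, inv_mul_cancel₀ hc0, map_one, one_mul]
      rw [← h1]
      exact I.mul_mem_left _ hf
    · rcases hmove with ⟨h1, a, j, i, k, hji, hk, h2⟩ | ⟨h1, a, j, l, k, hjl, hk, h2⟩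
      · -- the sum decreases
        have hsum : ∑ c, (c.2 : ℕ) * β₁ c + (i : ℕ) * k = ∑ c, (c.2 : ℕ) * β c + (j : ℕ) * k := by
          have h3 : ∀ (x : Σ a, Fin (m a)), ∑ c : (Σ a, Fin (m a)),
              (c.2 : ℕ) * (Pi.single x k : (Σ a, Fin (m a)) → ℕ) c = (x.2 : ℕ) * k := by
            intro x
            rw [Finset.sum_eq_single x]
            · rw [Pi.single_eq_same]
            · intro c _ hc
              rw [Pi.single_eq_of_ne hc, mul_zero]
            · intro h
              exact absurd (Finset.mem_univ _) h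
          have h4 := h3 ⟨a, i⟩
          have h5 := h3 ⟨a, j⟩
          simp only at h4 h5
          rw [← h4, ← h5, ← Finset.sum_add_distrib, ← Finset.sum_add_distrib]
          refine Finset.sum_congr rfl fun c _ => ?_
          rw [← mul_add, ← mul_add]
          congr 1
          exact congrFun h2 c
        have hlt : (j : ℕ) * k < (i : ℕ) * k := Nat.mul_lt_mul_of_pos_right hji hk
        have hPr : Pr β₁ := by
          subst h1
          exact ih _ (by omega) f' hf' hf'0 β₁ β₁' hβ₁ rfl
        have hij : (⟨a, j⟩ : Σ a, Fin (m a)) ≠ ⟨a, i⟩ := by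
          intro h
          rw [Sigma.mk.injEq] at h
          exact (ne_of_lt hji) (eq_of_heq h.2)
        have hkβ : k ≤ β ⟨a, i⟩ := by
          have h3 := congrFun h2 ⟨a, i⟩
          simp only [Pi.add_apply, Pi.single_eq_same] at h3
          rw [Pi.single_eq_of_ne hij.symm] at h3
          omega
        have hβ0 : β = (β - Pi.single ⟨a, i⟩ k) + Pi.single ⟨a, i⟩ k := by
          funext c
          simp only [Pi.add_apply, Pi.sub_apply]
          by_cases hc : c = ⟨a, i⟩
          · subst hc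
            rw [Pi.single_eq_same]
            omega
          · rw [Pi.single_eq_of_ne hc]
            omega
        have hβ1 : β₁ = (β - Pi.single ⟨a, i⟩ k) + Pi.single ⟨a, j⟩ k := by
          funext c
          have h3 := congrFun h2 c
          have h4 := congrFun hβ0 c
          simp only [Pi.add_apply, Pi.sub_apply] at h3 h4 ⊢
          omega
        rw [hβ0]
        rw [hβ1] at hPr
        exact ra_steps Pr hstep a j i hji k _ hPr
      · have hsum : ∑ c, (c.2 : ℕ) * β₁' c + (l : ℕ) * k =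
            ∑ c, (c.2 : ℕ) * β' c + (j : ℕ) * k := by
          have h3 : ∀ (x : Σ a, Fin (n a)), ∑ c : (Σ a, Fin (n a)),
              (c.2 : ℕ) * (Pi.single x k : (Σ a, Fin (n a)) → ℕ) c = (x.2 : ℕ) * k := by
            intro x
            rw [Finset.sum_eq_single x]
            · rw [Pi.single_eq_same]
            · intro c _ hc
              rw [Pi.single_eq_of_ne hc, mul_zero]
            · intro h
              exact absurd (Finset.mem_univ _) h
          have h4 := h3 ⟨a, l⟩
          have h5 := h3 ⟨a, j⟩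
          simp only at h4 h5
          rw [← h4, ← h5, ← Finset.sum_add_distrib, ← Finset.sum_add_distrib]
          refine Finset.sum_congr rfl fun c _ => ?_
          rw [← mul_add, ← mul_add]
          congr 1
          exact congrFun h2 c
        have hlt : (j : ℕ) * k < (l : ℕ) * k := Nat.mul_lt_mul_of_pos_right hjl hk
        subst h1
        exact ih _ (by omega) f' hf' hf'0 β₁ β₁' hβ₁ rfl

theorem raise (e : (Σ a, Fin (m a) × Fin (n a)) ≃ Fin N) (hmn : ∀ a, m a ≤ n a)
    (I : Ideal (MvPolynomial (Fin N) ℂ)) (hI : GLStable e I)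
    (Pr : ((Σ a, Fin (m a)) → ℕ) → Prop)
    (hbase : ∀ w, dPoly e hmn w ∈ I → Pr (wtw w))
    (hstep : ∀ (a : Fin s) (j i : Fin (m a)), j < i → ∀ β : (Σ a, Fin (m a)) → ℕ,
      Pr (β + Pi.single ⟨a, j⟩ 1) → Pr (β + Pi.single ⟨a, i⟩ 1))
    (f : MvPolynomial (Fin N) ℂ) (hf : f ∈ I) (κ : Fin N →₀ ℕ) (hκ : κ ∈ f.support) :
    Pr (rowwt e κ) := by
  classical
  set r : (Σ a, Fin (m a) × Fin (n a)) → (Σ a, Fin (m a)) := fun q => ⟨q.1, q.2.1⟩ with hr
  set r' : (Σ a, Fin (m a) × Fin (n a)) → (Σ a, Fin (n a)) := fun q => ⟨q.1, q.2.2⟩ with hr'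
  set ω : (Σ a, Fin (m a)) ⊕ (Σ a, Fin (n a)) → Fin N → ℕ := Sum.elim
    (fun c x => if r (e.symm x) = c then 1 else 0)
    (fun c x => if r' (e.symm x) = c then 1 else 0) with hω
  have hω1 : ∀ c q, ω (Sum.inl c) (e q) = if r q = c then 1 else 0 := by
    intro c q
    simp only [hω, Sum.elim_inl, Equiv.symm_apply_apply]
  have hω2 : ∀ c q, ω (Sum.inr c) (e q) = if r' q = c then 1 else 0 := by
    intro c q
    simp only [hω, Sum.elim_inr, Equiv.symm_apply_apply]
  have hrow : ∀ (κ : Fin N →₀ ℕ) (c : Σ a, Fin (m a)), ∑ p, κ p * ω (Sum.inl c) p =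
      rowwt e κ c := by
    rintro κ ⟨a, j⟩
    unfold rowwt
    rw [← Equiv.sum_comp e, Fintype.sum_sigma, Finset.sum_eq_single a]
    · rw [Fintype.sum_prod_type, Finset.sum_eq_single j]
      · refine Finset.sum_congr rfl fun k _ => ?_
        rw [hω1, if_pos rfl, mul_one]
      · intro i _ hi
        refine Finset.sum_eq_zero fun k _ => ?_
        rw [hω1, if_neg, mul_zero]
        intro h
        apply hi
        simp only [hr, Sigma.mk.injEq] at h
        exact eq_of_heq h.2
      · intro h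
        exact absurd (Finset.mem_univ _) h
    · intro a' _ ha
      refine Finset.sum_eq_zero fun k _ => ?_
      rw [hω1, if_neg, mul_zero]
      intro h
      apply ha
      simp only [hr, Sigma.mk.injEq] at h
      exact h.1
    · intro h
      exact absurd (Finset.mem_univ _) h
  have hcol : ∀ (κ : Fin N →₀ ℕ) (c : Σ a, Fin (n a)), ∑ p, κ p * ω (Sum.inr c) p =
      colwt e κ c := by
    rintro κ ⟨a, j⟩
    unfold colwt
    rw [← Equiv.sum_comp e, Fintype.sum_sigma, Finset.sum_eq_single a]
    · rw [Fintype.sum_prod_type, Finset.sum_comm, Finset.sum_eq_single j]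
      · refine Finset.sum_congr rfl fun k _ => ?_
        rw [hω2, if_pos rfl, mul_one]
      · intro i _ hi
        refine Finset.sum_eq_zero fun k _ => ?_
        rw [hω2, if_neg, mul_zero]
        intro h
        apply hi
        simp only [hr', Sigma.mk.injEq] at h
        exact eq_of_heq h.2
      · intro h
        exact absurd (Finset.mem_univ _) h
    · intro a' _ ha
      refine Finset.sum_eq_zero fun k _ => ?_
      rw [hω2, if_neg, mul_zero]
      intro h
      apply ha
      simp only [hr', Sigma.mk.injEq] at h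
      exact h.1
    · intro h
      exact absurd (Finset.mem_univ _) h
  obtain ⟨f', hf', hκ', hall⟩ := exists_weight_component ω I (by
    intro j c hc f hf
    rcases j with j | j
    · have h1 := hI (fun a => Matrix.diagonal fun i => if (⟨a, i⟩ : Σ a, Fin (m a)) = j then c else 1)
        (fun a => Matrix.diagonal fun _ => 1) (by
          intro a
          rw [Matrix.det_diagonal, Finset.prod_ne_zero_iff]
          intro i _
          split_ifs
          · exact hc
          · exact one_ne_zero) (by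
          intro a
          rw [Matrix.det_diagonal, Finset.prod_const_one]
          exact one_ne_zero) f hf
      rw [ra_glSub_diag] at h1
      convert h1 using 3
      funext x
      simp only [hω, hr, Sum.elim_inl, mul_one]
      split_ifs
      · rw [pow_one]
      · rw [pow_zero]
    · have h1 := hI (fun a => Matrix.diagonal fun _ => 1)
        (fun a => Matrix.diagonal fun i => if (⟨a, i⟩ : Σ a, Fin (n a)) = j then c else 1) (by
          intro a
          rw [Matrix.det_diagonal, Finset.prod_const_one]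
          exact one_ne_zero) (by
          intro a
          rw [Matrix.det_diagonal, Finset.prod_ne_zero_iff]
          intro i _
          split_ifs
          · exact hc
          · exact one_ne_zero) f hf
      rw [ra_glSub_diag] at h1
      convert h1 using 3
      funext x
      simp only [hω, hr', Sum.elim_inr, one_mul]
      split_ifs
      · rw [pow_one]
      · rw [pow_zero]) f hf κ hκ
  have hf'0 : f' ≠ 0 := by
    intro h
    rw [h] at hκ'
    simp at hκ'
  refine ra_claim e hmn I hI Pr hbase hstep _ f' hf' hf'0 (rowwt e κ) (colwt e κ) ?_ rfl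
  intro κ₁ hκ₁
  refine ⟨funext fun c => ?_, funext fun c => ?_⟩
  · rw [← hrow, ← hrow]
    exact hall κ₁ hκ₁ (Sum.inl c)
  · rw [← hcol, ← hcol]
    exact hall κ₁ hκ₁ (Sum.inr c)

end MotMono
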