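import Pool.Agent.Lib.MP_4e5fcd_ag.Inv.Coeff

/-! # INV-Shift: one-parameter unipotent substitutions and weights -/

open MvPolynomial

namespace MotMono

variable {N : ℕ}

/-- the weight of a monomial -/
private def shWt {M : Type} [AddCommMonoid M] (W : Fin N → M) (κ : Fin N →₀ ℕ) : M :=
  κ.sum fun p k => k • W p

private theorem shWt_add {M : Type} [AddCommMonoid M] (W : Fin N → M) (κ κ' : Fin N →₀ ℕ) :
    shWt W (κ + κ') = shWt W κ + shWt W κ' := by
  unfold shWt
  exact Finsupp.sum_add_index' (fun p => zero_smul _ _) (fun p a b => add_smul a b _)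

/-- `Q` has weight `β` -/
private def shHas {M : Type} [AddCommMonoid M] (W : Fin N → M) (ε ε' : M) (β : M)
    (Q : Polynomial (MvPolynomial (Fin N) ℂ)) : Prop :=
  ∀ k, ∀ κ ∈ (Q.coeff k).support, shWt W κ + k • ε = β + k • ε'

private theorem shHas_zero {M : Type} [AddCommMonoid M] (W : Fin N → M) (ε ε' β : M) :
    shHas W ε ε' β 0 := by
  intro k κ hκ
  simp at hκ

private theorem shHas_const {M : Type} [AddCommMonoid M] (W : Fin N → M) (ε ε' : M) (a : ℂ) :
    shHas W ε ε' 0 (Polynomial.C (C a)) := by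
  intro k κ hκ
  rw [Polynomial.coeff_C] at hκ
  split_ifs at hκ with hk
  · subst hk
    have h0 : κ = 0 := by
      by_contra hne
      rw [mem_support_iff, coeff_C, if_neg (fun h => hne h.symm)] at hκ
      exact hκ rfl
    subst h0
    simp [shWt]
  · simp at hκ

private theorem shHas_mul {M : Type} [AddCommMonoid M] (W : Fin N → M) (ε ε' : M) {β β' : M}
    {Q Q' : Polynomial (MvPolynomial (Fin N) ℂ)} (h : shHas W ε ε' β Q)
    (h' : shHas W ε ε' β' Q') : shHas W ε ε' (β + β') (Q * Q') := by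
  classical
  intro k κ hκ
  rw [Polynomial.coeff_mul] at hκ
  have h1 := MvPolynomial.support_sum hκ
  rw [Finset.mem_biUnion] at h1
  obtain ⟨⟨i, j⟩, hij, hκ2⟩ := h1
  have h2 := MvPolynomial.support_mul _ _ hκ2
  rw [Finset.mem_add] at h2
  obtain ⟨κ1, hκ1, κ2, hκ2', rfl⟩ := h2
  have hij' : i + j = k := Finset.HasAntidiagonal.mem_antidiagonal.1 hij
  rw [← hij', shWt_add, add_smul, add_smul]
  have e1 := h i κ1 hκ1
  have e2 := h' j κ2 hκ2'
  calc shWt W κ1 + shWt W κ2 + (i • ε + j • ε)
      = (shWt W κ1 + i • ε) + (shWt W κ2 + j • ε) := by abel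
    _ = (β + i • ε') + (β' + j • ε') := by rw [e1, e2]
    _ = β + β' + (i • ε' + j • ε') := by abel

private theorem shHas_add {M : Type} [AddCommMonoid M] (W : Fin N → M) (ε ε' : M) {β : M}
    {Q Q' : Polynomial (MvPolynomial (Fin N) ℂ)} (h : shHas W ε ε' β Q)
    (h' : shHas W ε ε' β Q') : shHas W ε ε' β (Q + Q') := by
  classical
  intro k κ hκ
  rw [Polynomial.coeff_add] at hκ
  have h1 := MvPolynomial.support_add hκ
  rw [Finset.mem_union] at h1
  rcases h1 with h1 | h1
  · exact h k κ h1
  · exact h' k κ h1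

private theorem shHas_sum {M ι : Type} [AddCommMonoid M] (W : Fin N → M) (ε ε' : M) {β : M}
    (s : Finset ι) (Q : ι → Polynomial (MvPolynomial (Fin N) ℂ))
    (h : ∀ i ∈ s, shHas W ε ε' β (Q i)) : shHas W ε ε' β (∑ i ∈ s, Q i) := by
  classical
  induction s using Finset.induction_on with
  | empty => simpa using shHas_zero W ε ε' β
  | insert a s ha ih =>
    rw [Finset.sum_insert ha]
    exact shHas_add W ε ε' (h a (Finset.mem_insert_self _ _))
      (ih fun i hi => h i (Finset.mem_insert_of_mem hi))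

private theorem shHas_pow {M : Type} [AddCommMonoid M] (W : Fin N → M) (ε ε' : M) {β : M}
    {Q : Polynomial (MvPolynomial (Fin N) ℂ)} (h : shHas W ε ε' β Q) (k : ℕ) :
    shHas W ε ε' (k • β) (Q ^ k) := by
  induction k with
  | zero =>
    rw [pow_zero, zero_smul]
    have := shHas_const W ε ε' 1
    simpa using this
  | succ k ih =>
    rw [pow_succ, add_smul, one_smul]
    exact shHas_mul W ε ε' ih h

private theorem shHas_prod {M ι : Type} [AddCommMonoid M] (W : Fin N → M) (ε ε' : M)
    (s : Finset ι) (β : ι → M) (Q : ι → Polynomial (MvPolynomial (Fin N) ℂ))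
    (h : ∀ i ∈ s, shHas W ε ε' (β i) (Q i)) : shHas W ε ε' (∑ i ∈ s, β i) (∏ i ∈ s, Q i) := by
  classical
  induction s using Finset.induction_on with
  | empty =>
    have := shHas_const W ε ε' 1
    simpa using this
  | insert a s ha ih =>
    rw [Finset.prod_insert ha, Finset.sum_insert ha]
    exact shHas_mul W ε ε' (h a (Finset.mem_insert_self _ _))
      (ih fun i hi => h i (Finset.mem_insert_of_mem hi))

private theorem shWt_single {M : Type} [AddCommMonoid M] (W : Fin N → M) (p : Fin N) :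
    shWt W (Finsupp.single p 1) = W p := by
  unfold shWt
  rw [Finsupp.sum_single_index (h := fun p k => k • W p) (zero_smul _ _), one_smul]

private theorem shHas_var {M : Type} [AddCommMonoid M] (W : Fin N → M) (ε ε' : M) (p : Fin N) :
    shHas W ε ε' (W p) (Polynomial.C (X p)) := by
  intro k κ hκ
  rw [Polynomial.coeff_C] at hκ
  split_ifs at hκ with hk
  · subst hk
    rw [MvPolynomial.support_X, Finset.mem_singleton] at hκ
    rw [hκ, shWt_single, zero_smul, zero_smul]
  · simp at hκ

private theorem shHas_var' {M : Type} [AddCommMonoid M] (W : Fin N → M) (ε ε' : M) (p q : Fin N)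
    (h : W q + ε = W p + ε') :
    shHas W ε ε' (W p) (Polynomial.X * Polynomial.C (X q)) := by
  intro k κ hκ
  rw [Polynomial.X_mul_C, Polynomial.coeff_C_mul, Polynomial.coeff_X] at hκ
  split_ifs at hκ with hk
  · rw [mul_one, MvPolynomial.support_X, Finset.mem_singleton] at hκ
    rw [hκ, shWt_single, ← hk, one_smul, one_smul]
    exact h
  · simp at hκ

/-- the generic substitution -/
private noncomputable def shPhi (S : Finset (Fin N)) (τ : Fin N → Fin N) :
    MvPolynomial (Fin N) ℂ →ₐ[ℂ] Polynomial (MvPolynomial (Fin N) ℂ) :=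
  aeval (fun p => if p ∈ S then Polynomial.C (X p) + Polynomial.X * Polynomial.C (X (τ p))
    else Polynomial.C (X p))

private theorem shPhi_eval (S : Finset (Fin N)) (τ : Fin N → Fin N) (c : ℂ)
    (f : MvPolynomial (Fin N) ℂ) :
    (shPhi S τ f).eval (algebraMap ℂ (MvPolynomial (Fin N) ℂ) c) =
      aeval (fun p => if p ∈ S then X p + C c * X (τ p) else X p) f := by
  have h : ((Polynomial.aeval (C c : MvPolynomial (Fin N) ℂ)).restrictScalars ℂ).comp (shPhi S τ) =
      (aeval (fun p => if p ∈ S then X p + C c * X (τ p) else X p) :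
        MvPolynomial (Fin N) ℂ →ₐ[ℂ] MvPolynomial (Fin N) ℂ) := by
    apply MvPolynomial.algHom_ext
    intro p
    rw [AlgHom.comp_apply, shPhi, aeval_X, aeval_X]
    split_ifs with hp
    · simp only [AlgHom.restrictScalars_apply, map_add, map_mul, Polynomial.aeval_X,
        Polynomial.aeval_C, Algebra.algebraMap_self, RingHom.id_apply]
    · simp
  have h2 := DFunLike.congr_fun h f
  rw [← h2]
  rfl

private theorem shPhi_has {M : Type} [AddCommMonoid M] (W : Fin N → M) (S : Finset (Fin N))
    (τ : Fin N → Fin N) (ε ε' : M) (hW : ∀ p ∈ S, W (τ p) + ε = W p + ε')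
    (f : MvPolynomial (Fin N) ℂ) (β : M) (hβ : ∀ κ ∈ f.support, shWt W κ = β) :
    shHas W ε ε' β (shPhi S τ f) := by
  rw [f.as_sum, map_sum]
  refine shHas_sum W ε ε' _ _ fun κ hκ => ?_
  rw [shPhi, aeval_monomial]
  have h1 : shHas W ε ε' (0 + ∑ p ∈ κ.support, κ p • W p)
      (algebraMap ℂ (Polynomial (MvPolynomial (Fin N) ℂ)) (coeff κ f) *
        κ.prod fun p k => (if p ∈ S then Polynomial.C (X p) +
          Polynomial.X * Polynomial.C (X (τ p)) else Polynomial.C (X p)) ^ k) := by
    refine shHas_mul W ε ε' (shHas_const W ε ε' _) ?_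
    refine shHas_prod W ε ε' _ _ _ fun p _ => ?_
    refine shHas_pow W ε ε' ?_ _
    split_ifs with hp
    · exact shHas_add W ε ε' (shHas_var W ε ε' p) (shHas_var' W ε ε' p (τ p) (hW p hp))
    · exact shHas_var W ε ε' p
  have h2 : (0 : M) + ∑ p ∈ κ.support, κ p • W p = β := by
    rw [zero_add]
    exact hβ κ hκ
  rw [h2] at h1
  exact h1

theorem exists_shift {M : Type} [AddCommMonoid M] (W : Fin N → M) (S : Finset (Fin N))
    (τ : Fin N → Fin N) (ε ε' : M) (hW : ∀ p ∈ S, W (τ p) + ε = W p + ε')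
    (I : Ideal (MvPolynomial (Fin N) ℂ))
    (hI : ∀ c : ℂ, ∀ f ∈ I, (aeval (fun p => if p ∈ S then X p + C c * X (τ p) else X p) f :
      MvPolynomial (Fin N) ℂ) ∈ I)
    (f : MvPolynomial (Fin N) ℂ) (hf : f ∈ I) (β : M)
    (hβ : ∀ κ ∈ f.support, (κ.sum fun p k => k • W p) = β) :
    (∀ c : ℂ, (aeval (fun p => if p ∈ S then X p + C c * X (τ p) else X p) f :
      MvPolynomial (Fin N) ℂ) = f) ∨
    ∃ k : ℕ, 0 < k ∧ ∃ f' ∈ I, f' ≠ 0 ∧ ∀ κ ∈ f'.support,
      (κ.sum fun p k => k • W p) + k • ε = β + k • ε' := by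
  by_cases hall : ∀ k : ℕ, 0 < k → (shPhi S τ f).coeff k = 0
  · left
    have hC : shPhi S τ f = Polynomial.C ((shPhi S τ f).coeff 0) := by
      ext1 k
      rw [Polynomial.coeff_C]
      split_ifs with hk
      · rw [hk]
      · exact hall k (Nat.pos_of_ne_zero hk)
    have hval : ∀ c : ℂ, (aeval (fun p => if p ∈ S then X p + C c * X (τ p) else X p) f :
        MvPolynomial (Fin N) ℂ) = (shPhi S τ f).coeff 0 := by
      intro c
      rw [← shPhi_eval S τ c f]
      conv_lhs => rw [hC]
      rw [Polynomial.eval_C]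
    have h0 : (aeval (fun p => if p ∈ S then X p + C 0 * X (τ p) else X p) f :
        MvPolynomial (Fin N) ℂ) = f := by
      have h1 : (fun p => if p ∈ S then X p + C 0 * X (τ p) else X p :
          Fin N → MvPolynomial (Fin N) ℂ) = X := by
        funext p
        split_ifs
        · rw [C_0, zero_mul, add_zero]
        · rfl
      rw [h1, aeval_X_left_apply]
    intro c
    rw [hval c, ← hval 0, h0]
  · right
    push Not at hall
    obtain ⟨k, hk, hne⟩ := hall
    refine ⟨k, hk, (shPhi S τ f).coeff k, ?_, hne, ?_⟩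
    · refine coeff_mem_of_eval_one I _ (fun c _ => ?_) k
      rw [shPhi_eval]
      exact hI c f hf
    · exact shPhi_has W S τ ε ε' hW f β hβ k

end MotMono
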